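import Mathlib
import Pool.Agent.Lib.MP92dd55.Kernel
import Pool.Agent.Lib.MP92dd55.Reduce

/-! # Forgetful strategies in the symmetric rendezvous problem: definitions -/

namespace Pool.Agent.Lib.RdvF

open MeasureTheory Finset Pool.Agent.Lib.MP92dd55
open scoped ENNReal

/-- `1/e` -/
noncomputable def E1 : ℝ := Real.exp (-1)

/-- the Anderson-Weber constant `R = (1/e + sqrt (1/e^2 + 3 - 4/e))/2 = 0.828885` -/
noncomputable def Rc : ℝ := (E1 + Real.sqrt (E1 ^ 2 + 3 - 4 * E1)) / 2

/-- `W = R + 1/2 = 1.328885` -/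
noncomputable def Wc : ℝ := Rc + 1 / 2

/-- `beta = 1 - 1/e + R/e = 0.937050` -/
noncomputable def bc : ℝ := 1 - E1 + Rc * E1

/-- `rho = R - 1/2 = 0.328885` -/
noncomputable def rho : ℝ := Rc - 1 / 2

/-- relabelling of the phones by `π r` in the block `[r n, (r+1) n)` of periods -/
def relabel {n : ℕ} (π : ℕ → Equiv.Perm (Fin n)) (x : ℕ → Fin n) (t : ℕ) : Fin n :=
  π (t / n) (x t)

/-- A mixed strategy is forgetful if its law is invariant under relabelling the phones
independently in the blocks `[r n, (r+1) n)`. -/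
def Forgetful {n : ℕ} (μ : Measure (ℕ → Fin n)) : Prop :=
  ∀ π : ℕ → Equiv.Perm (Fin n), μ.map (relabel π) = μ

/-! ## Sums over the grid `0, 1/n, ..., 1` -/

/-- trapezoidal sum of `f 0, ..., f n` -/
noncomputable def I0 (n : ℕ) (f : ℕ → ℝ) : ℝ := (∑ s ∈ range n, (f s + f (s + 1)) / 2) / n

/-- trapezoidal sum plus `R` times the last value -/
noncomputable def I1 (n : ℕ) (f : ℕ → ℝ) : ℝ := I0 n f + Rc * f n

/-- Four nonnegative nondecreasing sequences on `0..n`, starting at `0`, with sum `s/n`: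
the four states of a pair of players. -/
structure Path (n : ℕ) (A B C D : ℕ → ℝ) : Prop where
  npos : 0 < n
  A0 : A 0 = 0
  B0 : B 0 = 0
  C0 : C 0 = 0
  D0 : D 0 = 0
  A1 : ∀ s < n, A s ≤ A (s + 1)
  B1 : ∀ s < n, B s ≤ B (s + 1)
  C1 : ∀ s < n, C s ≤ C (s + 1)
  D1 : ∀ s < n, D s ≤ D (s + 1)
  sum : ∀ s ≤ n, A s + B s + C s + D s = (s : ℝ) / n

/-- limiting probability of not having met -/
noncomputable def Sv (A B C : ℕ → ℝ) (s : ℕ) : ℝ :=
  Real.exp (-C s) * (1 - A s) * (1 - B s)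

/-- `(1-x)(1-y) + z/e` at the end of the block -/
noncomputable def Qv (n : ℕ) (A B C : ℕ → ℝ) : ℝ :=
  (1 - A n - C n) * (1 - B n - C n) + C n * E1

/-- the minorant `P` -/
noncomputable def Pv (n : ℕ) (A B C : ℕ → ℝ) : ℝ :=
  (1 + Rc) - I1 n A - I1 n B - 2 * I1 n C +
    Rc / Wc ^ 2 * (I1 n A + I1 n C) * (I1 n B + I1 n C) + bc / Wc * I1 n C

/-! ## Kernels for blocks -/

/-- share of the times of `T` before `s` -/
noncomputable def cnt {n : ℕ} (T : Finset (Fin n)) (s : ℕ) : ℝ :=
  ((T.filter fun k : Fin n => k.val < s).card : ℝ) / n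

/-- weight of the time `k` -/
noncomputable def wgt (n : ℕ) (k : ℕ) : ℝ := (1 + Rc - (k + 1 / 2) / n) / (n * Wc)

/-- total weight of a set of times -/
noncomputable def lw {n : ℕ} (L : Finset (Fin n)) : ℝ := ∑ k ∈ L, wgt n k

noncomputable def Qk {n : ℕ} (L L' : Finset (Fin n)) : ℝ :=
  (1 - (L.card : ℝ) / n) * (1 - (L'.card : ℝ) / n) + E1 * ((L ∩ L').card : ℝ) / n

noncomputable def Bk {n : ℕ} (L L' : Finset (Fin n)) : ℝ :=
  (1 - Wc * lw L) * (1 - Wc * lw L') + bc * (lw (L ∩ L') - lw L * lw L')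

/-- limiting probability of not having met before time `s` of the block -/
noncomputable def Sk {n : ℕ} (L L' : Finset (Fin n)) (s : ℕ) : ℝ :=
  Real.exp (-cnt (L ∩ L') s) * (1 - cnt (L \ L') s) * (1 - cnt (L' \ L) s)

/-- positive semidefinite kernels -/
def PSD {α : Type} (K : α → α → ℝ) : Prop :=
  ∃ (m : ℕ) (φ : Fin m → α → ℝ), ∀ a b, K a b = ∑ j, φ j a * φ j b

/-! ## Blocks of a sequence -/

/-- the first `M` blocks of length `n` -/
def blocks {n : ℕ} (M : ℕ) (x : ℕ → Fin n) (r : Fin M) (k : Fin n) : Fin n := x (r * n + k)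

/-- law of the first `M` blocks -/
noncomputable def wB {n : ℕ} (μ : Measure (ℕ → Fin n)) (M : ℕ) (A : Fin M → Fin n → Fin n) : ℝ :=
  ((μ.map (blocks M)) {A}).toReal

/-- the blocks as a function on `ℕ` -/
def extB {n M : ℕ} (A : Fin M → Fin n → Fin n) (i : ℕ) : Fin n → Fin n :=
  if h : i < M then A ⟨i, h⟩ else id

/-- probability of not meeting during the first `s` periods of a block -/
noncomputable def pS {n : ℕ} (s : ℕ) (a b : Fin n → Fin n) : ℝ :=
  pAvoid (pairsOn a b (univ.filter fun k : Fin n => k.val < s))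

/-- probability of not meeting in the blocks `0, ..., r-1` -/
noncomputable def sP {n : ℕ} (A B : ℕ → Fin n → Fin n) (r : ℕ) : ℝ :=
  ∏ i ∈ range r, pS n (A i) (B i)

/-! ## The Anderson-Weber strategy -/

/-- One block: `u.1` is a relabelling of the phones, `u.2` says whether the player stays. -/
def awBlock {n : ℕ} (u : Equiv.Perm (Fin n) × Bool) (k : Fin n) : Fin n :=
  if u.2 then u.1 ⟨0, k.pos⟩ else u.1 k

/-- weights: uniform relabelling, stay with probability `p` -/
noncomputable def awWeight (n : ℕ) (p : ℝ) (u : Equiv.Perm (Fin n) × Bool) : ℝ≥0∞ :=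
  (if u.2 then ENNReal.ofReal p else ENNReal.ofReal (1 - p)) / (n.factorial : ℝ≥0∞)

/-- the sequence of phones built from the blocks -/
def awSeq {n : ℕ} (hn : 0 < n) (f : ℕ → Equiv.Perm (Fin n) × Bool) (t : ℕ) : Fin n :=
  awBlock (f (t / n)) ⟨t % n, Nat.mod_lt _ hn⟩

/-- The Anderson-Weber law: in each block of `n` periods, independently, with probability `p` a
uniformly random phone is used all the time, and with probability `1 - p` all the phones are used
in a uniformly random order. -/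
noncomputable def awLaw {n : ℕ} (hn : 0 < n) (p : ℝ) : Measure (ℕ → Fin n) :=
  letI : MeasurableSpace (Equiv.Perm (Fin n) × Bool) := ⊤
  (Measure.infinitePi fun _ : ℕ =>
    (∑ u : Equiv.Perm (Fin n) × Bool, awWeight n p u • Measure.dirac u)).map (awSeq hn)

end Pool.Agent.Lib.RdvF
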