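import Mathlib
import Pool.Agent.Lib.RdvF.Defs

/-! # RdvF.AwF: the Anderson-Weber law is a forgetful probability law -/

namespace Pool.Agent.Lib.RdvF

open MeasureTheory Finset Pool.Agent.Lib.MP92dd55
open scoped ENNReal

private lemma sum_weight (n : ℕ) (p : ℝ) (h0 : 0 ≤ p) (h1 : p ≤ 1) :
    ∑ u : Equiv.Perm (Fin n) × Bool, awWeight n p u = 1 := by
  rw [Fintype.sum_prod_type]
  have hb : ∀ σ : Equiv.Perm (Fin n), ∑ b : Bool, awWeight n p (σ, b) = 1 / (n.factorial : ℝ≥0∞) := by
    intro σ
    simp only [awWeight, Fintype.sum_bool, if_true, Bool.false_eq_true, if_false]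
    rw [← ENNReal.add_div, ← ENNReal.ofReal_add h0 (by linarith)]
    simp
  rw [Finset.sum_congr rfl (fun σ _ => hb σ), Finset.sum_const, Finset.card_univ,
    Fintype.card_perm, Fintype.card_fin, nsmul_eq_mul]
  rw [one_div]
  exact ENNReal.mul_inv_cancel (by exact_mod_cast n.factorial_ne_zero) (ENNReal.natCast_ne_top _)

private lemma weight_left (n : ℕ) (p : ℝ) (τ : Equiv.Perm (Fin n)) (u : Equiv.Perm (Fin n) × Bool) :
    awWeight n p (τ * u.1, u.2) = awWeight n p u := rfl

theorem AwF_p {n : ℕ} (hn : 0 < n) (p : ℝ) (h0 : 0 ≤ p) (h1 : p ≤ 1) :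
    IsProbabilityMeasure (awLaw hn p) ∧ Forgetful (awLaw hn p) := by
  letI : MeasurableSpace (Equiv.Perm (Fin n) × Bool) := ⊤
  set κ : Measure (Equiv.Perm (Fin n) × Bool) :=
    ∑ u : Equiv.Perm (Fin n) × Bool, awWeight n p u • Measure.dirac u with hκ
  have hmeas : ∀ {β : Type} [MeasurableSpace β] (f : Equiv.Perm (Fin n) × Bool → β),
      Measurable f := fun f => measurable_from_top
  have hP : IsProbabilityMeasure κ := by
    constructor
    rw [hκ, Measure.finsetSum_apply]
    simp only [Measure.smul_apply, smul_eq_mul, measure_univ, mul_one]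
    exact sum_weight n p h0 h1
  have hlaw : awLaw hn p = (Measure.infinitePi fun _ : ℕ => κ).map (awSeq hn) := rfl
  have hseq : Measurable (awSeq (n := n) hn) := by
    rw [measurable_pi_iff]
    intro t
    exact (hmeas (fun u : Equiv.Perm (Fin n) × Bool =>
      awBlock u ⟨t % n, Nat.mod_lt _ hn⟩)).comp (measurable_pi_apply (t / n))
  refine ⟨?_, ?_⟩
  · rw [hlaw]
    exact Measure.isProbabilityMeasure_map hseq.aemeasurable
  · intro π
    have hrel : Measurable (relabel π) := by
      rw [measurable_pi_iff]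
      intro t
      exact (measurable_of_finite (fun k : Fin n => π (t / n) k)).comp (measurable_pi_apply t)
    let τ : (ℕ → Equiv.Perm (Fin n) × Bool) → (ℕ → Equiv.Perm (Fin n) × Bool) :=
      fun f r => (π r * (f r).1, (f r).2)
    have hτ : Measurable τ := by
      rw [measurable_pi_iff]
      intro r
      exact (hmeas (fun u : Equiv.Perm (Fin n) × Bool => (π r * u.1, u.2))).comp
        (measurable_pi_apply r)
    have hcomp : relabel π ∘ awSeq hn = awSeq hn ∘ τ := by
      funext f t
      simp only [Function.comp, relabel, awSeq, awBlock, τ]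
      by_cases hb : (f (t / n)).2 = true
      · simp [hb]
      · simp [hb]
    have hκτ : ∀ r : ℕ, κ.map (fun u : Equiv.Perm (Fin n) × Bool => (π r * u.1, u.2)) = κ := by
      intro r
      ext s hs
      rw [Measure.map_apply (hmeas _) hs, hκ, Measure.finsetSum_apply, Measure.finsetSum_apply]
      rw [← Equiv.sum_comp ((Equiv.mulLeft (π r)).prodCongr (Equiv.refl Bool))
        (fun u => (awWeight n p u • Measure.dirac u) s)]
      refine Finset.sum_congr rfl fun u _ => ?_
      simp only [Measure.smul_apply, smul_eq_mul]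
      congr 1
      rw [Measure.dirac_apply' _ (by trivial), Measure.dirac_apply' _ hs]
      rfl
    have hinf : (Measure.infinitePi fun _ : ℕ => κ).map τ = Measure.infinitePi fun _ : ℕ => κ := by
      have h := Measure.infinitePi_map_pi (μ := fun _ : ℕ => κ)
        (f := fun (r : ℕ) (u : Equiv.Perm (Fin n) × Bool) => (π r * u.1, u.2))
        (fun r => hmeas _)
      have h2 : (fun r : ℕ => κ.map (fun u : Equiv.Perm (Fin n) × Bool => (π r * u.1, u.2)))
          = fun _ => κ := funext hκτ
      rw [h2] at h
      exact h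
    rw [hlaw, Measure.map_map hrel hseq, hcomp, ← Measure.map_map hseq hτ, hinf]

end Pool.Agent.Lib.RdvF
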