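import Mathlib
import Pool.Agent.Lib.RdvF.Defs

/-! # RdvF.Num: numerical bounds for the constants (60 lines)

`Real.exp_one_gt_d9`, `Real.exp_one_lt_d9` and `E1 = 1/exp 1` (`Real.exp_neg`) give the bounds of
`E1`. `Rc` is the larger root of `x^2 - E1 x - (3/4 - E1) = 0`: the discriminant is
`E1^2 + 3 - 4 E1 > 0`, `Real.mul_self_sqrt`. Bounds of `Rc`: compare the square root with
rational numbers (`Real.lt_sqrt`, `Real.sqrt_lt'`). Last claim: `Wc^2 = Rc^2 + Rc + 1/4`. -/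

namespace Pool.Agent.Lib.RdvF

open MeasureTheory Finset Pool.Agent.Lib.MP92dd55
open scoped ENNReal

private theorem num_e1 : (0.367879 : ℝ) < E1 ∧ E1 < 0.367880 := by
  have h1 := Real.exp_one_gt_d9
  have h2 := Real.exp_one_lt_d9
  have h3 : E1 * Real.exp 1 = 1 := by
    unfold E1
    rw [← Real.exp_add]
    norm_num
  have hpos : 0 < E1 := Real.exp_pos _
  constructor
  · by_contra h
    push Not at h
    nlinarith
  · by_contra h
    push Not at h
    nlinarith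

theorem Num_p : (0.367879 : ℝ) < E1 ∧ E1 < 0.367880 ∧ (0.82888 : ℝ) < Rc ∧ Rc < 0.82889 ∧
    Rc ^ 2 = E1 * Rc + 3 / 4 - E1 ∧ bc + Rc = Wc ^ 2 := by
  obtain ⟨h1, h2⟩ := num_e1
  have hD : 0 ≤ E1 ^ 2 + 3 - 4 * E1 := by nlinarith
  have hsq := Real.mul_self_sqrt hD
  have hlow : 1.65776 - E1 < Real.sqrt (E1 ^ 2 + 3 - 4 * E1) := by
    apply Real.lt_sqrt_of_sq_lt
    nlinarith
  have hup : Real.sqrt (E1 ^ 2 + 3 - 4 * E1) < 1.65778 - E1 := by
    rw [Real.sqrt_lt' (by linarith)]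
    nlinarith
  have hRc : Rc ^ 2 = E1 * Rc + 3 / 4 - E1 := by
    unfold Rc
    nlinarith [hsq]
  refine ⟨h1, h2, ?_, ?_, hRc, ?_⟩
  · unfold Rc
    linarith
  · unfold Rc
    linarith
  · unfold bc Wc
    nlinarith [hRc]

end Pool.Agent.Lib.RdvF
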