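import Mathlib
import Pool.Agent.Lib.RdvF.Defs
import Pool.Agent.Lib.RdvF.Num
import Pool.Agent.Lib.MP92dd55.Value
import Pool.Agent.Lib.MP92dd55.PermUpper

/-! # RdvF.AwUp: the Anderson-Weber strategy needs R n + o(n) -/

namespace Pool.Agent.Lib.RdvF

open MeasureTheory Finset Pool.Agent.Lib.MP92dd55
open scoped ENNReal

private def blkA {n : ℕ} (hn : 0 < n) (b : Bool) (k : ℕ) : Fin n :=
  if b then ⟨0, hn⟩ else ⟨k % n, Nat.mod_lt _ hn⟩

private noncomputable def pw (p : ℝ) (b : Bool) : ℝ := if b then p else 1 - p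

private lemma pw_nonneg {p : ℝ} (hp0 : 0 ≤ p) (hp1 : p ≤ 1) (b : Bool) : 0 ≤ pw p b := by
  unfold pw
  split_ifs
  · exact hp0
  · linarith

private lemma pw_sum (p : ℝ) : ∑ b : Bool, pw p b = 1 := by
  rw [Fintype.sum_bool]
  simp [pw]

private lemma aw_eq_sym {n : ℕ} (p : ℝ) (u : Equiv.Perm (Fin n) × Bool) :
    awWeight n p u = symWeight n (pw p) u := by
  unfold awWeight symWeight pw
  split_ifs <;> rfl

private lemma awSeq_eq {n : ℕ} (hn : 0 < n) :
    awSeq hn = concat n (symBlock (blkA hn)) := by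
  funext f t
  unfold awSeq concat symBlock blkA awBlock
  by_cases h : (f (t / n)).2 = true
  · rw [if_pos h, if_pos h]
  · rw [if_neg h, if_neg h]
    congr 1
    apply Fin.ext
    simp

private lemma aw_le {n : ℕ} (hn : 0 < n) (p : ℝ) (hp0 : 0 ≤ p) (hp1 : p ≤ 1) (S D : ℝ)
    (hS : ∑ s ∈ range n, ∑ ω, ∑ ω', pw p ω * pw p ω' *
      pAvoid (pairsUp s (blkA hn ω) (blkA hn ω')) ≤ S)
    (hD : ∑ ω, ∑ ω', pw p ω * pw p ω' * pAvoid (pairsUp n (blkA hn ω) (blkA hn ω')) ≤ D)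
    (hD1 : D < 1) :
    expectedTime (awLaw hn p) ≤ ENNReal.ofReal (S / (1 - D)) := by
  classical
  letI : MeasurableSpace (Equiv.Perm (Fin n) × Bool) := ⊤
  haveI : MeasurableSingletonClass (Equiv.Perm (Fin n) × Bool) := ⟨fun _ => trivial⟩
  obtain ⟨κ, hκdef⟩ : ∃ κ : Measure (Equiv.Perm (Fin n) × Bool),
    κ = ∑ u : Equiv.Perm (Fin n) × Bool, awWeight n p u • Measure.dirac u := ⟨_, rfl⟩
  have hκ : ∀ u, κ {u} = symWeight n (pw p) u := by
    intro u
    rw [hκdef, Measure.finsetSum_apply]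
    rw [Finset.sum_eq_single u]
    · rw [Measure.smul_apply, Measure.dirac_apply' _ (measurableSet_singleton _)]
      simp [aw_eq_sym]
    · intro v _ hv
      rw [Measure.smul_apply, Measure.dirac_apply' _ (measurableSet_singleton _)]
      simp [hv]
    · intro h
      exact absurd (mem_univ u) h
  have hκ1 : IsProbabilityMeasure κ := by
    refine ⟨?_⟩
    rw [hκdef, Measure.finsetSum_apply]
    have h1 : ∀ u : Equiv.Perm (Fin n) × Bool,
        (awWeight n p u • Measure.dirac u) Set.univ = symWeight n (pw p) u := by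
      intro u
      rw [Measure.smul_apply, measure_univ, smul_eq_mul, mul_one, aw_eq_sym]
    rw [Finset.sum_congr rfl fun u _ => h1 u]
    exact symWeight_sum (pw p) (pw_nonneg hp0 hp1) (pw_sum p)
  have hlaw : awLaw hn p = blockLaw κ n (symBlock (blkA hn)) := by
    unfold awLaw blockLaw
    rw [hκdef, awSeq_eq]
  have hnn : ∀ s ω ω', 0 ≤ pw p ω * pw p ω' * pAvoid (pairsUp s (blkA hn ω) (blkA hn ω')) :=
    fun s ω ω' => mul_nonneg (mul_nonneg (pw_nonneg hp0 hp1 _) (pw_nonneg hp0 hp1 _))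
      (pAvoid_nonneg _)
  have hσ : ∀ σ : Equiv.Perm (Fin n),
      ∫⁻ x, ∫⁻ y, meetTime σ x y ∂(awLaw hn p) ∂(awLaw hn p) ≤
      ENNReal.ofReal (S / (1 - D)) := by
    intro σ
    rw [hlaw]
    refine (lintegral_meetTime_block κ n hn (symBlock (blkA hn)) σ).trans ?_
    simp_rw [hκ]
    rw [sum_sym (pw p) (pw_nonneg hp0 hp1) (blkA hn) σ n]
    have h1 : ∀ s ∈ range n, ∑ u : Equiv.Perm (Fin n) × Bool, ∑ v : Equiv.Perm (Fin n) × Bool,
      blockInd (symBlock (blkA hn)) σ s u v * symWeight n (pw p) v * symWeight n (pw p) u =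
      ENNReal.ofReal (∑ ω, ∑ ω', pw p ω * pw p ω' *
        pAvoid (pairsUp s (blkA hn ω) (blkA hn ω'))) :=
      fun s _ => sum_sym (pw p) (pw_nonneg hp0 hp1) (blkA hn) σ s
    rw [Finset.sum_congr rfl h1, ← ENNReal.ofReal_sum_of_nonneg
      (fun s _ => Finset.sum_nonneg fun ω _ => Finset.sum_nonneg fun ω' _ => hnn s ω ω')]
    have h2 : (1 - ENNReal.ofReal (∑ ω, ∑ ω', pw p ω * pw p ω' *
        pAvoid (pairsUp n (blkA hn ω) (blkA hn ω'))))⁻¹
        ≤ ENNReal.ofReal ((1 - D)⁻¹) := by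
      rw [ENNReal.ofReal_inv_of_pos (by linarith)]
      rw [ENNReal.inv_le_inv]
      rw [← ENNReal.ofReal_one, ← ENNReal.ofReal_sub _
        (Finset.sum_nonneg fun ω _ => Finset.sum_nonneg fun ω' _ => hnn n ω ω')]
      apply ENNReal.ofReal_le_ofReal
      linarith
    have h3 : 0 ≤ (1 - D)⁻¹ := by
      apply inv_nonneg.2; linarith
    calc _ ≤ ENNReal.ofReal ((1 - D)⁻¹) * ENNReal.ofReal S := by
          gcongr
      _ = ENNReal.ofReal (S / (1 - D)) := by
          rw [← ENNReal.ofReal_mul h3, div_eq_mul_inv, mul_comm]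
  unfold expectedTime
  calc (∑ σ : Equiv.Perm (Fin n), ∫⁻ x, ∫⁻ y, meetTime σ x y
        ∂(awLaw hn p) ∂(awLaw hn p)) / (n.factorial : ℝ≥0∞)
      ≤ (∑ σ : Equiv.Perm (Fin n), ENNReal.ofReal (S / (1 - D))) / (n.factorial : ℝ≥0∞) := by
        gcongr with σ _
        exact hσ σ
    _ = ENNReal.ofReal (S / (1 - D)) := by
        rw [sum_const, card_univ, Fintype.card_perm, Fintype.card_fin, nsmul_eq_mul]
        rw [mul_comm, div_eq_mul_inv, mul_assoc,
          ENNReal.mul_inv_cancel (by exact_mod_cast n.factorial_ne_zero)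
            (ENNReal.natCast_ne_top _), mul_one]

/-- the nonzero phones below `s` -/
private def low {n : ℕ} (hn : 0 < n) (s : ℕ) : Finset (Fin n) :=
  (Ico 1 s).image fun k => blkA hn false k

private lemma low_card {n : ℕ} (hn : 0 < n) (s : ℕ) (hs : s ≤ n) :
    (low hn s).card = s - 1 := by
  unfold low
  rw [card_image_of_injOn, Nat.card_Ico]
  intro a ha b hb h
  rw [coe_Ico, Set.mem_Ico] at ha hb
  simp only [blkA, Bool.false_eq_true, if_false, Fin.mk.injEq] at h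
  rwa [Nat.mod_eq_of_lt (by omega), Nat.mod_eq_of_lt (by omega)] at h

private lemma zero_notMem_low {n : ℕ} (hn : 0 < n) (s : ℕ) (hs : s ≤ n) :
    (⟨0, hn⟩ : Fin n) ∉ low hn s := by
  unfold low
  rw [mem_image]
  rintro ⟨k, hk, h⟩
  rw [mem_Ico] at hk
  simp only [blkA, Bool.false_eq_true, if_false, Fin.mk.injEq] at h
  rw [Nat.mod_eq_of_lt (by omega)] at h
  omega

private lemma tf_le {n : ℕ} (hn : 2 ≤ n) (s : ℕ) (hs : s ≤ n) :
    pAvoid (pairsUp s (blkA (by omega : 0 < n) true) (blkA (by omega : 0 < n) false)) ≤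
      1 - (s : ℝ) / n + 1 / n + 1 / ((n : ℝ) - 1) := by
  have hn' : 0 < n := by omega
  have hnr : (0 : ℝ) < n := by exact_mod_cast hn'
  have h1 : stars (⟨0, hn'⟩ : Fin n) (low hn' s) ∅ ⊆
      pairsUp s (blkA hn' true) (blkA hn' false) := by
    intro e he
    unfold stars low at he
    simp only [image_empty, union_empty, mem_image, mem_Ico] at he
    obtain ⟨j, ⟨k, hk, rfl⟩, rfl⟩ := he
    unfold pairsUp
    rw [mem_image]
    exact ⟨k, mem_range.2 hk.2, by simp [blkA]⟩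
  have h2 := pAvoid_anti h1
  have h3 := pAvoid_stars hn (⟨0, hn'⟩ : Fin n) (low hn' s) ∅ (zero_notMem_low hn' s hs) (by simp)
  rw [low_card hn' s hs] at h3
  have h4 : (s : ℝ) - 1 ≤ ((s - 1 : ℕ) : ℝ) := by
    have : s ≤ (s - 1) + 1 := by omega
    have h5 : (s : ℝ) ≤ ((s - 1 : ℕ) : ℝ) + 1 := by exact_mod_cast this
    linarith
  have h5 : ((s : ℝ) - 1) / n ≤ ((s - 1 : ℕ) : ℝ) / n := by gcongr
  have h6 : ((s : ℝ) - 1) / n = (s : ℝ) / n - 1 / n := by ring
  simp only [card_empty, Nat.cast_zero, zero_div, sub_zero, mul_one] at h3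
  linarith

private lemma ft_le {n : ℕ} (hn : 2 ≤ n) (s : ℕ) (hs : s ≤ n) :
    pAvoid (pairsUp s (blkA (by omega : 0 < n) false) (blkA (by omega : 0 < n) true)) ≤
      1 - (s : ℝ) / n + 1 / n + 1 / ((n : ℝ) - 1) := by
  have hn' : 0 < n := by omega
  have hnr : (0 : ℝ) < n := by exact_mod_cast hn'
  have h1 : stars (⟨0, hn'⟩ : Fin n) ∅ (low hn' s) ⊆
      pairsUp s (blkA hn' false) (blkA hn' true) := by
    intro e he
    unfold stars low at he
    simp only [image_empty, empty_union, mem_image, mem_Ico] at he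
    obtain ⟨j, ⟨k, hk, rfl⟩, rfl⟩ := he
    unfold pairsUp
    rw [mem_image]
    exact ⟨k, mem_range.2 hk.2, by simp [blkA]⟩
  have h2 := pAvoid_anti h1
  have h3 := pAvoid_stars hn (⟨0, hn'⟩ : Fin n) ∅ (low hn' s) (by simp) (zero_notMem_low hn' s hs)
  rw [low_card hn' s hs] at h3
  have h4 : (s : ℝ) - 1 ≤ ((s - 1 : ℕ) : ℝ) := by
    have : s ≤ (s - 1) + 1 := by omega
    have h5 : (s : ℝ) ≤ ((s - 1 : ℕ) : ℝ) + 1 := by exact_mod_cast this
    linarith
  have h5 : ((s : ℝ) - 1) / n ≤ ((s - 1 : ℕ) : ℝ) / n := by gcongr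
  have h6 : ((s : ℝ) - 1) / n = (s : ℝ) / n - 1 / n := by ring
  simp only [card_empty, Nat.cast_zero, zero_div, sub_zero, one_mul] at h3
  linarith

private lemma ff_le {n : ℕ} (hn : 2 ≤ n) (s : ℕ) (hs : s ≤ n) :
    pAvoid (pairsUp s (blkA (by omega : 0 < n) false) (blkA (by omega : 0 < n) false)) ≤
      Real.exp (-((s : ℝ) / n)) + 1 / ((n : ℝ) - 1) := by
  have hn' : 0 < n := by omega
  have hnr : (0 : ℝ) < n := by exact_mod_cast hn'
  have hn1 : (0 : ℝ) < (n : ℝ) - 1 := by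
    have : (2 : ℝ) ≤ n := by exact_mod_cast hn
    linarith
  have hc : (pairsUp s (blkA hn' false) (blkA hn' false)).card = s := by
    unfold pairsUp
    rw [card_image_of_injOn, card_range]
    intro a ha b hb h
    rw [coe_range, Set.mem_Iio] at ha hb
    simp only [blkA, Bool.false_eq_true, if_false, Prod.mk.injEq, Fin.mk.injEq] at h
    have h1 := h.1
    rwa [Nat.mod_eq_of_lt (by omega), Nat.mod_eq_of_lt (by omega)] at h1
  have h1 := pAvoid_union_le hn ∅ (pairsUp s (blkA hn' false) (blkA hn' false))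
    (disjoint_empty_left _)
  rw [empty_union, pAvoid_empty, hc, one_mul, card_empty, Nat.cast_zero, zero_add] at h1
  have h2 : (1 - 1 / (n : ℝ)) ^ s ≤ Real.exp (-((s : ℝ) / n)) := by
    have h3 : 1 - 1 / (n : ℝ) ≤ Real.exp (-(1 / (n : ℝ))) := by
      have := Real.add_one_le_exp (-(1 / (n : ℝ)))
      linarith
    have h4 : (0 : ℝ) ≤ 1 - 1 / (n : ℝ) := by
      rw [sub_nonneg, div_le_one hnr]; linarith
    calc (1 - 1 / (n : ℝ)) ^ s ≤ (Real.exp (-(1 / (n : ℝ)))) ^ s := by gcongr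
      _ = Real.exp (-((s : ℝ) / n)) := by
        rw [← Real.exp_nat_mul]; congr 1; ring
  have h3 : (s : ℝ) * s / ((n : ℝ) ^ 2 * ((n : ℝ) - 1)) ≤ 1 / ((n : ℝ) - 1) := by
    rw [div_le_div_iff₀ (by positivity) hn1, one_mul]
    have h4 : (s : ℝ) ≤ n := by exact_mod_cast hs
    have h5 : (s : ℝ) * s ≤ (n : ℝ) ^ 2 := by
      have : (0 : ℝ) ≤ s := by positivity
      nlinarith
    nlinarith
  linarith

private lemma sum_exp_le {n : ℕ} (hn : 0 < n) :
    ∑ s ∈ range n, Real.exp (-((s : ℝ) / n)) ≤ (1 - E1) * n + 1 := by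
  have hnr : (0 : ℝ) < n := by exact_mod_cast hn
  set x : ℝ := Real.exp (-(1 / (n : ℝ))) with hx
  have hx0 : 0 < x := Real.exp_pos _
  have h1 : x * (1 + 1 / (n : ℝ)) ≤ 1 := by
    have h2 : 1 + 1 / (n : ℝ) ≤ Real.exp (1 / (n : ℝ)) := by
      have := Real.add_one_le_exp (1 / (n : ℝ)); linarith
    calc x * (1 + 1 / (n : ℝ)) ≤ x * Real.exp (1 / (n : ℝ)) := by gcongr
      _ = 1 := by rw [hx, ← Real.exp_add]; simp
  have h2 : ∀ s : ℕ, Real.exp (-((s : ℝ) / n)) = x ^ s := by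
    intro s
    rw [hx, ← Real.exp_nat_mul]; congr 1; ring
  have h3 : x ^ n = E1 := by
    rw [← h2 n, E1]; congr 1; field_simp
  simp_rw [h2]
  set T := ∑ s ∈ range n, x ^ s with hT
  have h4 : T * (1 - x) = 1 - E1 := by
    rw [← h3]
    have := geom_sum_mul_neg x n
    rw [← this]
  have h5 : 0 ≤ T := Finset.sum_nonneg fun s _ => by positivity
  have h6 : 1 / ((n : ℝ) + 1) ≤ 1 - x := by
    have h7 : x * ((n : ℝ) + 1) ≤ n := by
      have : x * ((n : ℝ) + 1) = (x * (1 + 1 / (n : ℝ))) * n := by field_simp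
      rw [this]
      nlinarith
    rw [div_le_iff₀ (by positivity)]
    linarith
  have h7 : T * (1 / ((n : ℝ) + 1)) ≤ 1 - E1 := by
    calc T * (1 / ((n : ℝ) + 1)) ≤ T * (1 - x) := by gcongr
      _ = 1 - E1 := h4
  have h8 : T ≤ (1 - E1) * ((n : ℝ) + 1) := by
    rw [mul_one_div, div_le_iff₀ (by positivity)] at h7
    exact h7
  have h9 : 0 < E1 := Real.exp_pos _
  linarith

private lemma sum_lin {n : ℕ} (hn : 0 < n) :
    ∑ s ∈ range n, (1 - (s : ℝ) / n) = ((n : ℝ) + 1) / 2 := by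
  have hnr : (0 : ℝ) < n := by exact_mod_cast hn
  rw [Finset.sum_sub_distrib, ← Finset.sum_div]
  have h1 : ∑ s ∈ range n, (s : ℝ) = (n : ℝ) * (n - 1) / 2 := by
    have h := Finset.sum_range_id_mul_two n
    have h2 : (∑ s ∈ range n, (s : ℝ)) * 2 = ((n * (n - 1) : ℕ) : ℝ) := by
      rw [← h, Nat.cast_mul, Nat.cast_sum, Nat.cast_ofNat]
    rw [Nat.cast_mul, Nat.cast_sub hn, Nat.cast_one] at h2
    linarith
  rw [h1]
  simp
  field_simp
  ring

theorem AwUp_p (ε : ℝ) (hε : 0 < ε) :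
    ∃ N : ℕ, ∀ n ≥ N, ∀ hn : 0 < n,
      expectedTime (awLaw hn (1 - 1 / Wc)) ≤ ENNReal.ofReal ((Rc + ε) * n) := by
  obtain ⟨hE1, hE2, hR1, hR2, hRq, -⟩ := Num_p
  have hW1 : (1.3 : ℝ) < Wc := by unfold Wc; linarith
  have hW0 : (0 : ℝ) < Wc := by linarith
  obtain ⟨q, hq⟩ : ∃ q : ℝ, q = 1 / Wc := ⟨_, rfl⟩
  obtain ⟨p, hp⟩ : ∃ p : ℝ, p = 1 - 1 / Wc := ⟨_, rfl⟩
  have hq0 : 0 < q := by rw [hq]; positivity
  have hq1 : q < 1 := by rw [hq, div_lt_one hW0]; linarith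
  have hpq : p = 1 - q := by rw [hp, hq]
  have hp0 : 0 ≤ p := by linarith
  have hp1 : p ≤ 1 := by linarith
  obtain ⟨G, hG⟩ : ∃ G : ℝ, G = 1 - p ^ 2 - q ^ 2 * E1 := ⟨_, rfl⟩
  have hG0 : 0 < G := by
    rw [hG, hpq]
    nlinarith
  have hid : p ^ 2 + p * q + q ^ 2 * (1 - E1) = Rc * G := by
    have hqW : q * Wc = 1 := by rw [hq]; field_simp
    have h1 : Wc ^ 2 * (p ^ 2 + p * q + q ^ 2 * (1 - E1)) = Wc ^ 2 * (Rc * G) := by
      have e1 : Wc * p = Wc - 1 := by rw [hpq]; linarith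
      have e2 : Wc ^ 2 * (p ^ 2 + p * q + q ^ 2 * (1 - E1)) =
          (Wc * p) ^ 2 + (Wc * p) * (q * Wc) + (q * Wc) ^ 2 * (1 - E1) := by ring
      have e3 : Wc ^ 2 * (Rc * G) = Rc * (Wc ^ 2 - (Wc * p) ^ 2 - (q * Wc) ^ 2 * E1) := by
        rw [hG]; ring
      rw [e2, e3, e1, hqW]
      unfold Wc
      linear_combination (-1 : ℝ) * hRq
    exact mul_left_cancel₀ (by positivity) h1
  obtain ⟨N1, hN1⟩ := exists_nat_gt ((10 + 8 * (Rc + ε)) / (ε * G))
  obtain ⟨N2, hN2⟩ := exists_nat_gt (8 / G)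
  refine ⟨max (max N1 N2) 2, ?_⟩
  intro n hnN hn
  have hn2 : 2 ≤ n := le_trans (le_max_right _ _) hnN
  have hnr : (0 : ℝ) < n := by exact_mod_cast hn
  have hn2r : (2 : ℝ) ≤ n := by exact_mod_cast hn2
  have hn1 : (0 : ℝ) < (n : ℝ) - 1 := by linarith
  have hnN1 : (N1 : ℝ) ≤ n := by
    exact_mod_cast le_trans (le_trans (le_max_left _ _) (le_max_left _ _)) hnN
  have hnN2 : (N2 : ℝ) ≤ n := by
    exact_mod_cast le_trans (le_trans (le_max_right _ _) (le_max_left _ _)) hnN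
  have hb1 : 10 + 8 * (Rc + ε) < ε * G * n := by
    have h1 : (10 + 8 * (Rc + ε)) / (ε * G) < n := lt_of_lt_of_le hN1 hnN1
    rw [div_lt_iff₀ (by positivity)] at h1
    linarith
  have hb2 : 8 < G * n := by
    have h1 : 8 / G < n := lt_of_lt_of_le hN2 hnN2
    rw [div_lt_iff₀ hG0] at h1
    linarith
  have hinv : 1 / ((n : ℝ) - 1) ≤ 2 / n := by
    rw [div_le_div_iff₀ hn1 hnr]; linarith
  -- pointwise bound
  have hpt : ∀ s ≤ n, ∑ ω, ∑ ω', pw p ω * pw p ω' *
      pAvoid (pairsUp s (blkA hn ω) (blkA hn ω')) ≤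
      p ^ 2 + 2 * (p * q) * (1 - (s : ℝ) / n + 3 / n) +
        q ^ 2 * (Real.exp (-((s : ℝ) / n)) + 2 / n) := by
    intro s hs
    simp only [Fintype.sum_bool]
    have e1 : pw p true = p := by simp [pw]
    have e2 : pw p false = q := by simp [pw, hpq]
    rw [e1, e2]
    have t1 := pAvoid_le_one (pairsUp s (blkA hn true) (blkA hn true))
    have t2 := tf_le hn2 s hs
    have t3 := ft_le hn2 s hs
    have t4 := ff_le hn2 s hs
    have t5 : 1 - (s : ℝ) / n + 1 / n + 1 / ((n : ℝ) - 1) ≤ 1 - (s : ℝ) / n + 3 / n := by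
      have : (3 : ℝ) / n = 1 / n + 2 / n := by ring
      linarith
    have u1 : p * p * pAvoid (pairsUp s (blkA hn true) (blkA hn true)) ≤ p * p * 1 := by
      gcongr
    have u2 : p * q * pAvoid (pairsUp s (blkA hn true) (blkA hn false)) ≤
        p * q * (1 - (s : ℝ) / n + 3 / n) := by
      apply mul_le_mul_of_nonneg_left (t2.trans t5) (by positivity)
    have u3 : q * p * pAvoid (pairsUp s (blkA hn false) (blkA hn true)) ≤
        q * p * (1 - (s : ℝ) / n + 3 / n) := by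
      apply mul_le_mul_of_nonneg_left (t3.trans t5) (by positivity)
    have u4 : q * q * pAvoid (pairsUp s (blkA hn false) (blkA hn false)) ≤
        q * q * (Real.exp (-((s : ℝ) / n)) + 2 / n) := by
      apply mul_le_mul_of_nonneg_left _ (by positivity)
      linarith
    nlinarith
  -- the two sums
  have hsumS : ∑ s ∈ range n, ∑ ω, ∑ ω', pw p ω * pw p ω' *
      pAvoid (pairsUp s (blkA hn ω) (blkA hn ω')) ≤ Rc * G * n + 10 := by
    calc _ ≤ ∑ s ∈ range n, (p ^ 2 + 2 * (p * q) * (1 - (s : ℝ) / n + 3 / n) +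
        q ^ 2 * (Real.exp (-((s : ℝ) / n)) + 2 / n)) := by
          apply Finset.sum_le_sum
          intro s hs
          exact hpt s (mem_range.1 hs).le
      _ = n * p ^ 2 + 2 * (p * q) * (∑ s ∈ range n, (1 - (s : ℝ) / n) + 3) +
        q ^ 2 * (∑ s ∈ range n, Real.exp (-((s : ℝ) / n)) + 2) := by
          rw [Finset.sum_add_distrib, Finset.sum_add_distrib, ← Finset.mul_sum, ← Finset.mul_sum,
            Finset.sum_add_distrib, Finset.sum_add_distrib]
          simp only [sum_const, card_range, nsmul_eq_mul]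
          have a1 : (n : ℝ) * (3 / n) = 3 := by field_simp
          have a2 : (n : ℝ) * (2 / n) = 2 := by field_simp
          rw [a1, a2]
      _ ≤ n * p ^ 2 + 2 * (p * q) * (((n : ℝ) + 1) / 2 + 3) +
        q ^ 2 * ((1 - E1) * n + 1 + 2) := by
          rw [sum_lin hn]
          have := sum_exp_le hn
          gcongr
      _ = n * (p ^ 2 + p * q + q ^ 2 * (1 - E1)) + (7 * (p * q) + 3 * q ^ 2) := by ring
      _ ≤ Rc * G * n + 10 := by
          rw [hid]
          have a1 : p * q ≤ 1 := by nlinarith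
          have a2 : q ^ 2 ≤ 1 := by nlinarith
          linarith
  have hsumD : ∑ ω, ∑ ω', pw p ω * pw p ω' * pAvoid (pairsUp n (blkA hn ω) (blkA hn ω')) ≤
      1 - G + 8 / n := by
    refine (hpt n le_rfl).trans ?_
    have a0 : (n : ℝ) / n = 1 := by field_simp
    rw [a0]
    have a1 : p * q ≤ 1 := by nlinarith
    have a2 : q ^ 2 ≤ 1 := by nlinarith
    have a3 : Real.exp (-1) = E1 := rfl
    rw [a3, hG]
    have a4 : 0 < 1 / (n : ℝ) := by positivity
    have e1 : p ^ 2 + 2 * (p * q) * (1 - 1 + 3 / (n : ℝ)) + q ^ 2 * (E1 + 2 / n) =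
        p ^ 2 + q ^ 2 * E1 + (6 * (p * q) + 2 * q ^ 2) * (1 / n) := by ring
    have e2 : (8 : ℝ) / n = 8 * (1 / n) := by ring
    rw [e1, e2]
    nlinarith
  have hD1 : 1 - G + 8 / (n : ℝ) < 1 := by
    have : 8 / (n : ℝ) < G := by
      rw [div_lt_iff₀ hnr]; exact hb2
    linarith
  have hmain := aw_le hn p hp0 hp1 (Rc * G * n + 10) (1 - G + 8 / n) hsumS hsumD hD1
  rw [← hp]
  refine hmain.trans (ENNReal.ofReal_le_ofReal ?_)
  rw [div_le_iff₀ (by linarith)]
  have e1 : (Rc + ε) * n * (1 - (1 - G + 8 / (n : ℝ))) = (Rc + ε) * n * G - 8 * (Rc + ε) := by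
    field_simp
    ring
  rw [e1]
  nlinarith

end Pool.Agent.Lib.RdvF
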