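import Mathlib
import Pool.Agent.Lib.RdvF.Defs

/-! # RdvF.CBd: the sequence C of a path -/

namespace Pool.Agent.Lib.RdvF

open MeasureTheory Finset Pool.Agent.Lib.MP92dd55
open scoped ENNReal

private lemma C_step {n : ℕ} {A B C D : ℕ → ℝ} (h : Path n A B C D) (s : ℕ) (hs : s < n) :
    0 ≤ C (s + 1) - C s ∧ C (s + 1) - C s ≤ 1 / (n : ℝ) := by
  have h1 := h.sum s hs.le
  have h2 := h.sum (s + 1) hs
  have hA := h.A1 s hs
  have hB := h.B1 s hs
  have hC := h.C1 s hs
  have hD := h.D1 s hs
  have hn : (0 : ℝ) < n := by exact_mod_cast h.npos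
  have e : (((s + 1 : ℕ) : ℝ)) / n = (s : ℝ) / n + 1 / n := by
    push_cast
    ring
  rw [e] at h2
  constructor
  · linarith
  · linarith

private lemma C_lower {n : ℕ} {A B C D : ℕ → ℝ} (h : Path n A B C D) :
    ∀ s ≤ n, 0 ≤ C s := by
  intro s
  induction s with
  | zero => intro _; rw [h.C0]
  | succ k ih =>
    intro hk
    have h1 := ih (by omega)
    have h2 := (C_step h k (by omega)).1
    linarith

private lemma C_upper {n : ℕ} {A B C D : ℕ → ℝ} (h : Path n A B C D) :
    ∀ k ≤ n, C (n - k) ≤ C n := by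
  intro k
  induction k with
  | zero => intro _; simp
  | succ k ih =>
    intro hk
    have h1 := ih (by omega)
    have h2 := (C_step h (n - (k + 1)) (by omega)).1
    have e : n - (k + 1) + 1 = n - k := by omega
    rw [e] at h2
    linarith

private lemma C_range {n : ℕ} {A B C D : ℕ → ℝ} (h : Path n A B C D) (s : ℕ) (hs : s ≤ n) :
    0 ≤ C s ∧ C s ≤ C n := by
  refine ⟨C_lower h s hs, ?_⟩
  have := C_upper h (n - s) (by omega)
  have e : n - (n - s) = s := by omega
  rwa [e] at this

private lemma gen_step {n : ℕ} {A B C D : ℕ → ℝ} (h : Path n A B C D) (g G : ℝ → ℝ)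
    (hg : ∀ u, 0 ≤ u → u ≤ C n → 0 ≤ g u)
    (hG : ∀ u v, 0 ≤ u → u ≤ v → v ≤ C n → G v - G u ≤ (v - u) * ((g u + g v) / 2)) :
    G (C n) - G 0 ≤ I0 n (fun s => g (C s)) := by
  have hn : (0 : ℝ) < n := by exact_mod_cast h.npos
  have h1 : ∀ s ∈ range n, G (C (s + 1)) - G (C s) ≤ ((g (C s) + g (C (s + 1))) / 2) / n := by
    intro s hs
    have hs' : s < n := mem_range.mp hs
    obtain ⟨a1, a2⟩ := C_step h s hs'
    obtain ⟨b1, b2⟩ := C_range h s hs'.le
    obtain ⟨c1, c2⟩ := C_range h (s + 1) hs'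
    have h2 := hG (C s) (C (s + 1)) b1 (by linarith) c2
    have h3 := hg _ b1 b2
    have h4 := hg _ c1 c2
    have h5 : (C (s + 1) - C s) * ((g (C s) + g (C (s + 1))) / 2) ≤
        1 / (n : ℝ) * ((g (C s) + g (C (s + 1))) / 2) :=
      mul_le_mul_of_nonneg_right a2 (by linarith)
    calc G (C (s + 1)) - G (C s) ≤ (C (s + 1) - C s) * ((g (C s) + g (C (s + 1))) / 2) := h2
      _ ≤ 1 / (n : ℝ) * ((g (C s) + g (C (s + 1))) / 2) := h5
      _ = ((g (C s) + g (C (s + 1))) / 2) / n := by ring
  have h6 := sum_le_sum h1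
  have h7 : ∑ s ∈ range n, (G (C (s + 1)) - G (C s)) = G (C n) - G (C 0) :=
    sum_range_sub (fun s => G (C s)) n
  rw [h7, h.C0] at h6
  unfold I0
  rw [sum_div]
  exact h6

private lemma I0_const (n : ℕ) (hn : 0 < n) (c : ℝ) : I0 n (fun _ => c) = c := by
  unfold I0
  have hn' : (n : ℝ) ≠ 0 := by exact_mod_cast hn.ne'
  rw [sum_const, card_range, nsmul_eq_mul]
  field_simp
  ring

private lemma I0_lin (n : ℕ) (a b : ℝ) (f g : ℕ → ℝ) :
    I0 n (fun s => a * f s + b * g s) = a * I0 n f + b * I0 n g := by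
  unfold I0
  rw [← mul_div_assoc, ← mul_div_assoc, ← add_div, mul_sum, mul_sum, ← sum_add_distrib]
  congr 1
  refine sum_congr rfl fun s _ => ?_
  ring

private lemma k_nonneg : ∀ d : ℝ, 0 ≤ d → 0 ≤ d / 2 * (1 + Real.exp (-d)) - 1 + Real.exp (-d) := by
  apply nonneg_of_deriv _ (fun d => (1 - Real.exp (-d) * (1 + d)) / 2)
  · intro x
    have h1 := hasDerivAt_exp_neg' x
    have h2 := ((hasDerivAt_id x).div_const 2).mul (h1.const_add 1)
    have h3 := (h2.sub_const 1).add h1
    refine h3.congr_deriv ?_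
    simp only [id]
    ring
  · simp
  · intro x hx
    have h1 : x + 1 ≤ Real.exp x := Real.add_one_le_exp x
    have h2 : 0 < Real.exp (-x) := Real.exp_pos _
    have h3 : Real.exp (-x) * (1 + x) ≤ Real.exp (-x) * Real.exp x :=
      mul_le_mul_of_nonneg_left (by linarith) h2.le
    have h4 : Real.exp (-x) * Real.exp x = 1 := by
      rw [← Real.exp_add]
      simp
    rw [h4] at h3
    linarith

private lemma trap_exp (u v : ℝ) (huv : u ≤ v) :
    Real.exp (-u) - Real.exp (-v) ≤ (v - u) * ((Real.exp (-u) + Real.exp (-v)) / 2) := by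
  have h1 := k_nonneg (v - u) (by linarith)
  have h2 : 0 < Real.exp (-u) := Real.exp_pos _
  have h3 : Real.exp (-v) = Real.exp (-u) * Real.exp (-(v - u)) := by
    rw [← Real.exp_add]
    congr 1
    ring
  rw [h3]
  have h4 := mul_nonneg h2.le h1
  nlinarith [h4]

theorem CBd_p {n : ℕ} {A B C D : ℕ → ℝ} (h : Path n A B C D) :
    C n ^ 2 / 2 ≤ I0 n C ∧ I0 n C ≤ C n - C n ^ 2 / 2 ∧
      I0 n (fun s => 1 - Real.exp (-C s)) ≤ Real.exp (-C n) * (I0 n C + C n ^ 2 / 2) := by
  have hn := h.npos
  refine ⟨?_, ?_, ?_⟩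
  · have h1 := gen_step h (fun u => u) (fun u => u ^ 2 / 2) (fun u hu _ => hu)
      (by
        intro u v _ _ _
        have e : v ^ 2 / 2 - u ^ 2 / 2 = (v - u) * ((u + v) / 2) := by ring
        exact e.le)
    have e : C n ^ 2 / 2 - 0 ^ 2 / 2 = C n ^ 2 / 2 := by ring
    rw [e] at h1
    exact h1
  · have h1 := gen_step h (fun u => C n - u) (fun u => C n * u - u ^ 2 / 2)
      (fun u _ hu => by linarith)
      (by
        intro u v _ _ _
        have e : C n * v - v ^ 2 / 2 - (C n * u - u ^ 2 / 2) =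
            (v - u) * ((C n - u + (C n - v)) / 2) := by ring
        exact e.le)
    have e : C n * C n - C n ^ 2 / 2 - (C n * 0 - 0 ^ 2 / 2) = C n ^ 2 / 2 := by ring
    rw [e] at h1
    have h2 : I0 n (fun s => C n - C s) = C n - I0 n C := by
      have h3 := I0_lin n 1 (-1) (fun _ => C n) C
      rw [I0_const n hn] at h3
      have e2 : (fun s => 1 * (fun _ : ℕ => C n) s + -1 * C s) = (fun s => C n - C s) := by
        funext s
        ring
      rw [e2] at h3
      rw [h3]
      ring
    rw [h2] at h1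
    linarith
  · have h1 := gen_step h
      (fun u => Real.exp (-C n) * (u - C n) + Real.exp (-u) - Real.exp (-C n))
      (fun u => Real.exp (-C n) * (u ^ 2 / 2 - C n * u) - Real.exp (-u) - Real.exp (-C n) * u)
      (by
        intro u _ _
        have h2 := Real.add_one_le_exp (C n - u)
        have h3 : Real.exp (-u) = Real.exp (-C n) * Real.exp (C n - u) := by
          rw [← Real.exp_add]
          congr 1
          ring
        have h4 : 0 < Real.exp (-C n) := Real.exp_pos _
        have h5 := mul_le_mul_of_nonneg_left h2 h4.le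
        rw [← h3] at h5
        linarith)
      (by
        intro u v _ huv _
        have h2 := trap_exp u v huv
        nlinarith [h2])
    have h2 : I0 n (fun s => Real.exp (-C n) * (C s - C n) + Real.exp (-C s) - Real.exp (-C n)) =
        Real.exp (-C n) * I0 n C - Real.exp (-C n) * C n + 1 -
          I0 n (fun s => 1 - Real.exp (-C s)) - Real.exp (-C n) := by
      have h3 := I0_lin n (Real.exp (-C n)) (-1) C (fun s => 1 - Real.exp (-C s))
      have h4 := I0_lin n 1 1
        (fun s => Real.exp (-C n) * C s + -1 * (fun s => 1 - Real.exp (-C s)) s)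
        (fun _ => 1 - Real.exp (-C n) * C n - Real.exp (-C n))
      rw [I0_const n hn, h3] at h4
      have e2 : (fun s => Real.exp (-C n) * (C s - C n) + Real.exp (-C s) - Real.exp (-C n)) =
          (fun s => 1 * (fun s => Real.exp (-C n) * C s + -1 * (fun s => 1 - Real.exp (-C s)) s) s +
            1 * (fun _ : ℕ => 1 - Real.exp (-C n) * C n - Real.exp (-C n)) s) := by
        funext s
        ring
      rw [e2, h4]
      ring
    rw [h2] at h1
    have e3 : Real.exp (-(0 : ℝ)) = 1 := by simp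
    rw [e3] at h1
    nlinarith [h1]

end Pool.Agent.Lib.RdvF
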