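import Mathlib
import Pool.Agent.Lib.RdvF.Defs

/-! # RdvF.Cheb: Chebyshev's sum inequality with weights (60 lines, ONLY MATHLIB)

`Σ_s Σ_t ν s ν t (f s - f t)(g s - g t) ≥ 0` because for `s ≤ t ≤ m` both differences are `≤ 0`
and for `t ≤ s` both are `≥ 0`; expand: it equals
`2 (Σ ν)(Σ ν f g) - 2 (Σ ν f)(Σ ν g)`. (`Finset.sum_mul_sum`, `Finset.sum_comm`.)
Second claim: the functional `J(f) = I0 n f + f n/2` together with an extra atom: apply the first
claim to the `n+3` points `0,...,n,n+1,n+2` with weights `1/(2n), 1/n,...,1/n, 1/(2n), 1/2, rho`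
(`I0 n f` is the sum with the first `n+1` weights), `f = (al 0,...,al n, al n, h)`,
`g = (g 0,...,g n, g n, g n)`; the total weight is `1 + 1/2 + rho = 1 + Rc`. `0 ≤ rho` is in `Num`
(here a hypothesis). -/

namespace Pool.Agent.Lib.RdvF

open MeasureTheory Finset Pool.Agent.Lib.MP92dd55
open scoped ENNReal

private theorem Cheb_sum2 (φ : ℕ → ℝ) (n : ℕ) :
    ∑ k ∈ range (2 * n), φ k = ∑ s ∈ range n, (φ (2 * s) + φ (2 * s + 1)) := by
  induction n with
  | zero => simp
  | succ n ih =>
    rw [show 2 * (n + 1) = 2 * n + 1 + 1 by ring, sum_range_succ, sum_range_succ, ih,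
      sum_range_succ (fun s => φ (2 * s) + φ (2 * s + 1)) n]
    ring

theorem Cheb_p (m : ℕ) (ν f g : ℕ → ℝ) (hν : ∀ s, 0 ≤ ν s)
    (hf : ∀ s t, s ≤ t → t < m → f s ≤ f t) (hg : ∀ s t, s ≤ t → t < m → g s ≤ g t) :
    (∑ s ∈ range m, ν s * f s) * (∑ s ∈ range m, ν s * g s) ≤
      (∑ s ∈ range m, ν s) * ∑ s ∈ range m, ν s * (f s * g s) := by
  have h0 : 0 ≤ ∑ s ∈ range m, ∑ t ∈ range m, ν s * ν t * ((f s - f t) * (g s - g t)) := by
    refine sum_nonneg fun s hs => sum_nonneg fun t ht => ?_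
    rw [mem_range] at hs ht
    refine mul_nonneg (mul_nonneg (hν s) (hν t)) ?_
    rcases le_total s t with h | h
    · exact mul_nonneg_of_nonpos_of_nonpos (sub_nonpos.2 (hf s t h ht))
        (sub_nonpos.2 (hg s t h ht))
    · exact mul_nonneg (sub_nonneg.2 (hf t s h hs)) (sub_nonneg.2 (hg t s h hs))
  have h1 : ∑ s ∈ range m, ∑ t ∈ range m, ν s * ν t * ((f s - f t) * (g s - g t)) =
      2 * ((∑ s ∈ range m, ν s) * ∑ s ∈ range m, ν s * (f s * g s)) -
        2 * ((∑ s ∈ range m, ν s * f s) * (∑ s ∈ range m, ν s * g s)) := by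
    have e1 : ∑ s ∈ range m, ∑ t ∈ range m, ν s * ν t * ((f s - f t) * (g s - g t)) =
        ∑ s ∈ range m, ∑ t ∈ range m, ((ν s * (f s * g s)) * ν t - (ν s * f s) * (ν t * g t) -
          (ν s * g s) * (ν t * f t) + ν s * (ν t * (f t * g t))) :=
      sum_congr rfl fun s _ => sum_congr rfl fun t _ => by ring
    rw [e1]
    simp only [sum_add_distrib, sum_sub_distrib, ← mul_sum, ← sum_mul]
    ring
  linarith

theorem Cheb2_p (n : ℕ) (hn : 0 < n) (hrho : 0 ≤ rho) (al g : ℕ → ℝ) (h : ℝ)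
    (hal : ∀ s t, s ≤ t → t ≤ n → al s ≤ al t) (hg : ∀ s t, s ≤ t → t ≤ n → g s ≤ g t)
    (hh : al n ≤ h) :
    (I0 n al + al n / 2 + rho * h) * I1 n g ≤
      (1 + Rc) * (I0 n (fun s => al s * g s) + al n * g n / 2 + rho * (h * g n)) := by
  have hn0 : (n : ℝ) ≠ 0 := by exact_mod_cast hn.ne'
  have hnp : (0 : ℝ) < n := by exact_mod_cast hn
  set F : ℕ → ℝ := fun k => if k ≤ 2 * n then al ((k + 1) / 2) else h with hF
  set G : ℕ → ℝ := fun k => g (min ((k + 1) / 2) n) with hG
  set ν : ℕ → ℝ := fun k => if k < 2 * n then 1 / (2 * n) else if k = 2 * n then 1 / 2 else rho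
    with hν
  have key := Cheb_p (2 * n + 2) ν F G
    (by
      intro s
      simp only [hν]
      split_ifs
      · positivity
      · norm_num
      · exact hrho)
    (by
      intro s t hst ht
      simp only [hF]
      by_cases h1 : t ≤ 2 * n
      · rw [if_pos h1, if_pos (hst.trans h1)]
        exact hal _ _ (by omega) (by omega)
      · rw [if_neg h1]
        by_cases h2 : s ≤ 2 * n
        · rw [if_pos h2]
          exact (hal _ n (by omega) le_rfl).trans hh
        · rw [if_neg h2])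
    (by
      intro s t hst ht
      simp only [hG]
      exact hg _ _ (by omega) (by omega))
  have ha : ∀ φ : ℕ → ℝ, ∑ s ∈ range (2 * n + 2), ν s * φ s =
      (∑ s ∈ range n, (φ (2 * s) + φ (2 * s + 1)) / 2) / n + φ (2 * n) / 2 +
        rho * φ (2 * n + 1) := by
    intro φ
    rw [show 2 * n + 2 = 2 * n + 1 + 1 by ring, sum_range_succ, sum_range_succ, Cheb_sum2]
    have e1 : ν (2 * n) = 1 / 2 := by simp [hν]
    have e2 : ν (2 * n + 1) = rho := by simp [hν]
    have e3 : ∑ s ∈ range n, (ν (2 * s) * φ (2 * s) + ν (2 * s + 1) * φ (2 * s + 1)) =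
        (∑ s ∈ range n, (φ (2 * s) + φ (2 * s + 1)) / 2) / n := by
      rw [sum_div]
      refine sum_congr rfl fun s hs => ?_
      rw [mem_range] at hs
      have e4 : ν (2 * s) = 1 / (2 * n) := by
        simp only [hν]; rw [if_pos (by omega)]
      have e5 : ν (2 * s + 1) = 1 / (2 * n) := by
        simp only [hν]; rw [if_pos (by omega)]
      rw [e4, e5]
      field_simp
    rw [e1, e2, e3]
    ring
  have hFe : ∀ s ≤ n, F (2 * s) = al s := by
    intro s hs
    simp only [hF]
    rw [if_pos (by omega), show (2 * s + 1) / 2 = s by omega]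
  have hFo : ∀ s < n, F (2 * s + 1) = al (s + 1) := by
    intro s hs
    simp only [hF]
    rw [if_pos (by omega), show (2 * s + 1 + 1) / 2 = s + 1 by omega]
  have hFl : F (2 * n + 1) = h := by
    simp only [hF]
    rw [if_neg (by omega)]
  have hGe : ∀ s ≤ n, G (2 * s) = g s := by
    intro s hs
    simp only [hG]
    rw [show min ((2 * s + 1) / 2) n = s by omega]
  have hGo : ∀ s < n, G (2 * s + 1) = g (s + 1) := by
    intro s hs
    simp only [hG]
    rw [show min ((2 * s + 1 + 1) / 2) n = s + 1 by omega]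
  have hGl : G (2 * n + 1) = g n := by
    simp only [hG]
    rw [show min ((2 * n + 1 + 1) / 2) n = n by omega]
  have s1 : ∑ s ∈ range (2 * n + 2), ν s * F s = I0 n al + al n / 2 + rho * h := by
    rw [ha F, hFe n le_rfl, hFl, I0]
    congr 3
    refine sum_congr rfl fun s hs => ?_
    rw [mem_range] at hs
    rw [hFe s hs.le, hFo s hs]
  have s2 : ∑ s ∈ range (2 * n + 2), ν s * G s = I1 n g := by
    rw [ha G, hGe n le_rfl, hGl, I1, I0]
    have : ∑ s ∈ range n, (G (2 * s) + G (2 * s + 1)) / 2 =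
        ∑ s ∈ range n, (g s + g (s + 1)) / 2 := by
      refine sum_congr rfl fun s hs => ?_
      rw [mem_range] at hs
      rw [hGe s hs.le, hGo s hs]
    rw [this, rho]
    ring
  have s3 : ∑ s ∈ range (2 * n + 2), ν s = 1 + Rc := by
    have := ha (fun _ => 1)
    simp only [mul_one] at this
    rw [this, rho]
    simp only [sum_const, card_range, nsmul_eq_mul]
    field_simp
    ring
  have s4 : ∑ s ∈ range (2 * n + 2), ν s * (F s * G s) =
      I0 n (fun s => al s * g s) + al n * g n / 2 + rho * (h * g n) := by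
    rw [ha (fun s => F s * G s), hFe n le_rfl, hFl, hGe n le_rfl, hGl, I0]
    have : ∑ s ∈ range n, (F (2 * s) * G (2 * s) + F (2 * s + 1) * G (2 * s + 1)) / 2 =
        ∑ s ∈ range n, (al s * g s + al (s + 1) * g (s + 1)) / 2 := by
      refine sum_congr rfl fun s hs => ?_
      rw [mem_range] at hs
      rw [hGe s hs.le, hGo s hs, hFe s hs.le, hFo s hs]
    rw [this]
  rw [s1, s2, s3, s4] at key
  exact key

end Pool.Agent.Lib.RdvF
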