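import Mathlib
import Pool.Agent.Lib.RdvF.Defs

/-! # The two explicit lower bounds -/

namespace Pool.Agent.Lib.RdvF

open MeasureTheory Finset Pool.Agent.Lib.MP92dd55
open scoped ENNReal

/-- the lower bound of form I -/
noncomputable def Ff (m h d : ℝ) : ℝ :=
  (2 - bc / Wc) * (m + Rc * h) -
    (Real.exp (-h) * (m + h ^ 2 / 2) + (1 - Real.exp (-h)) / 2 + rho * h) * (1 - d / (1 + Rc)) -
    rho * h * (1 - E1 - h) - Rc / Wc ^ 2 * (m + Rc * h) ^ 2 - Rc / Wc ^ 2 * (m + Rc * h) * d -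
    73 / 100 * h ^ 2 * d ^ 2 / 4

/-- the lower bound of form II -/
noncomputable def G2 (x X y Y : ℝ) : ℝ :=
  x * (E1 - (2 - bc / Wc - 2 * Rc / Wc)) + X * (rho - Y / 2) +
    y * (E1 / 2 - rho * E1 - (2 - bc / Wc - 2 * Rc / Wc) * Rc) + Y * (rho * Rc - rho * E1) +
    y ^ 2 * (rho + E1 / 4) + rho * y * Y - Y ^ 2 / 4 -
    Rc / Wc ^ 2 * (X / 2 + Rc * Y / 2 + x + Rc * y) ^ 2

end Pool.Agent.Lib.RdvF
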