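import Mathlib
import Pool.Agent.Lib.RdvF.FDef
import Pool.Agent.Lib.RdvF.Num

/-! # RdvF.FIIPos: a polynomial inequality (80 lines)

`G2 x X y Y` is a linear function of `(x, X)` minus `r (X/2 + x + ...)^2`, hence concave in `x` for
fixed `X` and concave in `X` for fixed `x`: it is at least the minimum over the four corners
`x ∈ {0, y}`, `X ∈ {0, Y}` (explicit formula as in `FIPos`). With the numerical values
`E1 - chi = 0.320509`, `E1/2 - rho E1 - chi Rc = 0.023685`, `rho Rc - rho E1 = 0.151618`,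
`rho + E1/4 = 0.420855`, `rho = 0.328885`, `r Rc^2 = 0.322487`, `r (1+Rc)^2 = 1.569973`,
`r Rc (1+Rc) = 0.711544` (bounds from `Num_p`), `chi = 0.047370`:
corner (0,0): `0.0237 y + 0.1516 Y + 0.0983 y^2 + 0.0063 y Y - 0.3307 Y^2`;
corner (y,Y): `0.3441 y + 0.4805 Y - 1.1492 y^2 - 1.2411 y Y - 1.1425 Y^2`, which is
`≥ (y+Y)(0.3441 - 1.1492 (y+Y))` and `0.3441 > 1.1492 * 0.29 = 0.33327`;
corner (y,0): `0.3441 y + 0.1516 Y - 1.1492 y^2 - 0.3827 y Y - 0.3307 Y^2`;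
corner (0,Y): `0.0237 y + 0.4805 Y + 0.0983 y^2 - 0.3827 y Y - 1.1425 Y^2`;
all are `≥ 0` for `y, Y ≥ 0`, `y + Y ≤ 0.29`. -/

namespace Pool.Agent.Lib.RdvF

open MeasureTheory Finset Pool.Agent.Lib.MP92dd55
open scoped ENNReal

private theorem FIIPos_conc {α β γ t x : ℝ} (hα : α ≤ 0) (h0 : 0 ≤ γ)
    (ht : 0 ≤ α * t ^ 2 + β * t + γ) (x0 : 0 ≤ x) (x1 : x ≤ t) :
    0 ≤ α * x ^ 2 + β * x + γ := by
  rcases x0.eq_or_lt with h | h
  · subst h
    simpa using h0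
  · have htp : 0 < t := h.trans_le x1
    have e : t * (α * x ^ 2 + β * x + γ) =
        (t - x) * γ + x * (α * t ^ 2 + β * t + γ) + (-α) * (x * t * (t - x)) := by ring
    have e1 : 0 ≤ (t - x) * γ := mul_nonneg (by linarith) h0
    have e2 : 0 ≤ x * (α * t ^ 2 + β * t + γ) := mul_nonneg x0 ht
    have e3 : 0 ≤ (-α) * (x * t * (t - x)) :=
      mul_nonneg (by linarith) (mul_nonneg (mul_nonneg x0 htp.le) (by linarith))
    have e4 : 0 ≤ t * (α * x ^ 2 + β * x + γ) := by rw [e]; linarith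
    exact nonneg_of_mul_nonneg_right e4 htp

private theorem FIIPos_corner {y Y a b c d e A B : ℝ} (y0 : 0 ≤ y) (Y0 : 0 ≤ Y)
    (hy : y + Y ≤ 29 / 100) (hc : c ≤ A) (hd : d ≤ A + B) (he : e ≤ B) (hA : 0 ≤ A) (hB : 0 ≤ B)
    (ha : A * (29 / 100) ≤ a) (hb : B * (29 / 100) ≤ b) :
    0 ≤ a * y + b * Y - c * y ^ 2 - d * (y * Y) - e * Y ^ 2 := by
  have h1 : c * y ^ 2 ≤ A * y ^ 2 := mul_le_mul_of_nonneg_right hc (sq_nonneg _)
  have h2 : d * (y * Y) ≤ (A + B) * (y * Y) :=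
    mul_le_mul_of_nonneg_right hd (mul_nonneg y0 Y0)
  have h3 : e * Y ^ 2 ≤ B * Y ^ 2 := mul_le_mul_of_nonneg_right he (sq_nonneg _)
  have h4 : A * y * (y + Y) ≤ A * y * (29 / 100) :=
    mul_le_mul_of_nonneg_left hy (mul_nonneg hA y0)
  have h5 : B * Y * (y + Y) ≤ B * Y * (29 / 100) :=
    mul_le_mul_of_nonneg_left hy (mul_nonneg hB Y0)
  have h6 : A * (29 / 100) * y ≤ a * y := mul_le_mul_of_nonneg_right ha y0
  have h7 : B * (29 / 100) * Y ≤ b * Y := mul_le_mul_of_nonneg_right hb Y0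
  nlinarith

theorem FIIPos_p (x X y Y : ℝ) (x0 : 0 ≤ x) (x1 : x ≤ y) (X0 : 0 ≤ X) (X1 : X ≤ Y)
    (hy : y + Y ≤ 29 / 100) : 0 ≤ G2 x X y Y := by
  obtain ⟨e1, e2, r1, r2, hR, hb⟩ := Num_p
  have y0 : 0 ≤ y := x0.trans x1
  have Y0 : 0 ≤ Y := X0.trans X1
  have hW : Wc = Rc + 1 / 2 := rfl
  have hrho : rho = Rc - 1 / 2 := rfl
  have hWp : 0 < Wc := by rw [hW]; linarith
  have hW2 : 0 < Wc ^ 2 := by positivity
  obtain ⟨r, hr⟩ : ∃ r, r = Rc / Wc ^ 2 := ⟨_, rfl⟩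
  obtain ⟨c, hc⟩ : ∃ c, c = 2 - bc / Wc - 2 * Rc / Wc := ⟨_, rfl⟩
  have hr1 : (0.46936 : ℝ) < r := by
    rw [hr, lt_div_iff₀ hW2, hW]
    nlinarith
  have hr2 : r < (0.46939 : ℝ) := by
    rw [hr, div_lt_iff₀ hW2, hW]
    nlinarith
  have hc' : c * Wc = 2 * Wc - (Wc ^ 2 + Rc) := by
    rw [hc]
    field_simp
    linarith
  have hc1 : (0.04736 : ℝ) < c := by
    by_contra h
    push Not at h
    have : c * Wc ≤ 0.04736 * Wc := mul_le_mul_of_nonneg_right h hWp.le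
    rw [hc', hW] at this
    nlinarith
  have hc2 : c < (0.04738 : ℝ) := by
    by_contra h
    push Not at h
    have : 0.04738 * Wc ≤ c * Wc := mul_le_mul_of_nonneg_right h hWp.le
    rw [hc', hW] at this
    nlinarith
  -- the coefficients
  have hRE : 0.82888 * 0.367879 < Rc * E1 := by nlinarith
  have hRE2 : Rc * E1 < 0.82889 * 0.367880 := by nlinarith
  have hR1 : 0.687041 < Rc ^ 2 := by nlinarith
  have hR2 : Rc ^ 2 < 0.687059 := by nlinarith
  have hcR : c * Rc < 0.04738 * 0.82889 := by nlinarith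
  have k1 : (0.0236 : ℝ) ≤ E1 / 2 - rho * E1 - c * Rc := by rw [hrho]; nlinarith
  have k2 : (0.1516 : ℝ) ≤ rho * Rc - rho * E1 := by rw [hrho]; nlinarith
  have k3 : (0.4208 : ℝ) ≤ rho + E1 / 4 := by rw [hrho]; linarith
  have hrh : (0.32888 : ℝ) ≤ rho := by rw [hrho]; linarith
  have q1 : r * Rc ^ 2 ≤ 0.3225 := by
    have h1 : r * Rc ^ 2 ≤ 0.46939 * Rc ^ 2 := mul_le_mul_of_nonneg_right hr2.le (sq_nonneg _)
    linarith
  have q2 : r * (1 + Rc) ^ 2 ≤ 1.5701 := by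
    have h1 : r * (1 + Rc) ^ 2 ≤ 0.46939 * (1 + Rc) ^ 2 :=
      mul_le_mul_of_nonneg_right hr2.le (sq_nonneg _)
    nlinarith
  have q3 : r * (Rc * (1 + Rc)) ≤ 0.7117 := by
    have h1 : r * (Rc * (1 + Rc)) ≤ 0.46939 * (Rc * (1 + Rc)) :=
      mul_le_mul_of_nonneg_right hr2.le (by nlinarith)
    nlinarith
  have key : ∀ x X : ℝ, G2 x X y Y = (-r) * x ^ 2 +
      (E1 - c - 2 * r * (X / 2 + Rc * Y / 2 + Rc * y)) * x +
      (X * (rho - Y / 2) + y * (E1 / 2 - rho * E1 - c * Rc) + Y * (rho * Rc - rho * E1) +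
      y ^ 2 * (rho + E1 / 4) + rho * y * Y - Y ^ 2 / 4 -
      r * (X / 2 + Rc * Y / 2 + Rc * y) ^ 2) := by
    intro x X
    unfold G2
    rw [← hc, ← hr]
    ring
  have key2 : ∀ x X : ℝ, G2 x X y Y = (-r / 4) * X ^ 2 +
      (rho - Y / 2 - r * (Rc * Y / 2 + x + Rc * y)) * X +
      (x * (E1 - c) + y * (E1 / 2 - rho * E1 - c * Rc) + Y * (rho * Rc - rho * E1) +
      y ^ 2 * (rho + E1 / 4) + rho * y * Y - Y ^ 2 / 4 -
      r * (Rc * Y / 2 + x + Rc * y) ^ 2) := by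
    intro x X
    unfold G2
    rw [← hc, ← hr]
    ring
  -- the corners
  have c00 : 0 ≤ G2 0 0 y Y := by
    have h := FIIPos_corner (y := y) (Y := Y) (a := E1 / 2 - rho * E1 - c * Rc)
      (b := rho * Rc - rho * E1) (c := r * Rc ^ 2 - (rho + E1 / 4)) (d := r * Rc ^ 2 - rho)
      (e := 1 / 4 + r * Rc ^ 2 / 4) (A := 0) (B := 0.34) y0 Y0 hy (by linarith) (by linarith)
      (by linarith) le_rfl (by norm_num) (by linarith) (by linarith)
    rw [key]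
    linarith [h]
  have c11 : 0 ≤ G2 y Y y Y := by
    have h := FIIPos_corner (y := y) (Y := Y) (a := E1 - c + (E1 / 2 - rho * E1 - c * Rc))
      (b := rho + (rho * Rc - rho * E1)) (c := r * (1 + Rc) ^ 2 - (rho + E1 / 4))
      (d := r * (1 + Rc) ^ 2 - rho)
      (e := 3 / 4 + r * (1 + Rc) ^ 2 / 4) (A := 1.1494) (B := 1.1494) y0 Y0 hy (by linarith)
      (by linarith)
      (by linarith) (by norm_num) (by norm_num) (by linarith) (by linarith)
    rw [key]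
    linarith [h]
  have c10 : 0 ≤ G2 y 0 y Y := by
    have h := FIIPos_corner (y := y) (Y := Y) (a := E1 - c + (E1 / 2 - rho * E1 - c * Rc))
      (b := rho * Rc - rho * E1) (c := r * (1 + Rc) ^ 2 - (rho + E1 / 4))
      (d := r * (Rc * (1 + Rc)) - rho)
      (e := 1 / 4 + r * Rc ^ 2 / 4) (A := 1.1494) (B := 0.34) y0 Y0 hy (by linarith)
      (by linarith)
      (by linarith) (by norm_num) (by norm_num) (by linarith) (by linarith)
    rw [key]
    linarith [h]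
  have c01 : 0 ≤ G2 0 Y y Y := by
    have h := FIIPos_corner (y := y) (Y := Y) (a := E1 / 2 - rho * E1 - c * Rc)
      (b := rho + (rho * Rc - rho * E1)) (c := r * Rc ^ 2 - (rho + E1 / 4))
      (d := r * (Rc * (1 + Rc)) - rho)
      (e := 3 / 4 + r * (1 + Rc) ^ 2 / 4) (A := 0) (B := 1.1494) y0 Y0 hy (by linarith)
      (by linarith)
      (by linarith) (by norm_num) (by norm_num) (by linarith) (by linarith)
    rw [key]
    linarith [h]
  have hr0 : 0 ≤ r := by linarith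
  have s0 : 0 ≤ G2 0 X y Y := by
    rw [key2] at c00 c01 ⊢
    refine FIIPos_conc (by linarith) ?_ c01 X0 X1
    linarith [c00]
  have s1 : 0 ≤ G2 y X y Y := by
    rw [key2] at c10 c11 ⊢
    refine FIIPos_conc (by linarith) ?_ c11 X0 X1
    linarith [c10]
  rw [key] at s0 s1 ⊢
  refine FIIPos_conc (by linarith) ?_ s1 x0 x1
  linarith [s0]

end Pool.Agent.Lib.RdvF
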