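import Mathlib
import Pool.Agent.Lib.RdvF.FDef
import Pool.Agent.Lib.RdvF.Num
import Pool.Agent.Lib.RdvF.CBd

/-! # RdvF.FIIRed: expansion at the all-tour pair

Expansion of the kernel inequality around the pair in which both players tour all the time. -/

namespace Pool.Agent.Lib.RdvF

open MeasureTheory Finset Pool.Agent.Lib.MP92dd55
open scoped ENNReal

private lemma fiired_mono {n : ℕ} {f g : ℕ → ℝ} (h : ∀ s ≤ n, f s ≤ g s) :
    I0 n f ≤ I0 n g := by
  unfold I0
  apply div_le_div_of_nonneg_right _ (Nat.cast_nonneg n)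
  apply Finset.sum_le_sum
  intro s hs
  rw [Finset.mem_range] at hs
  have h1 := h s hs.le
  have h2 := h (s + 1) hs
  linarith

private lemma fiired_add (n : ℕ) (f g : ℕ → ℝ) :
    I0 n (fun s => f s + g s) = I0 n f + I0 n g := by
  unfold I0
  rw [← add_div, ← Finset.sum_add_distrib]
  congr 1
  apply Finset.sum_congr rfl
  intro s _
  ring

private lemma fiired_mul (n : ℕ) (c : ℝ) (f : ℕ → ℝ) :
    I0 n (fun s => c * f s) = c * I0 n f := by
  unfold I0
  rw [← mul_div_assoc, Finset.mul_sum]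
  congr 1
  apply Finset.sum_congr rfl
  intro s _
  ring

private lemma fiired_const {n : ℕ} (hn : 0 < n) (c : ℝ) : I0 n (fun _ => c) = c := by
  unfold I0
  have : (n : ℝ) ≠ 0 := by positivity
  rw [Finset.sum_const, Finset.card_range]
  simp only [nsmul_eq_mul]
  field_simp
  ring

private lemma fiired_t {n : ℕ} (hn : 0 < n) : I0 n (fun s => (s : ℝ) / n) = 1 / 2 := by
  have hn' : (n : ℝ) ≠ 0 := by positivity
  have key : ∀ m : ℕ, ∑ s ∈ range m, ((s : ℝ) / n + ((s + 1 : ℕ) : ℝ) / n) / 2
      = (m : ℝ) ^ 2 / (2 * n) := by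
    intro m
    induction m with
    | zero => simp
    | succ k ih =>
      rw [Finset.sum_range_succ, ih]
      push_cast
      field_simp
      ring
  unfold I0
  rw [key n]
  field_simp

private lemma fiired_trap {d : ℝ} (hd : 0 ≤ d) :
    1 - Real.exp (-d) ≤ d / 2 * (1 + Real.exp (-d)) := by
  have h0 : (fun x : ℝ => x / 2 * (1 + Real.exp (-x)) - 1 + Real.exp (-x)) 0 = 0 := by
    simp
  have hmono : MonotoneOn (fun x : ℝ => x / 2 * (1 + Real.exp (-x)) - 1 + Real.exp (-x))
      (Set.Ici 0) := by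
    apply monotoneOn_of_deriv_nonneg (convex_Ici 0)
    · fun_prop
    · fun_prop
    · intro x hx
      rw [interior_Ici, Set.mem_Ioi] at hx
      have hd1 : HasDerivAt (fun x : ℝ => Real.exp (-x)) (-Real.exp (-x)) x := by
        have := (hasDerivAt_neg x).exp
        simpa using this
      have hd2 : HasDerivAt (fun x : ℝ => x / 2 * (1 + Real.exp (-x)) - 1 + Real.exp (-x))
          (1 / 2 * (1 + Real.exp (-x)) + x / 2 * (-Real.exp (-x)) + -Real.exp (-x)) x := by
        have h1 : HasDerivAt (fun x : ℝ => x / 2) (1 / 2) x := (hasDerivAt_id x).div_const 2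
        have h2 : HasDerivAt (fun x : ℝ => 1 + Real.exp (-x)) (-Real.exp (-x)) x :=
          hd1.const_add 1
        exact ((h1.mul h2).sub_const 1).add hd1
      rw [hd2.deriv]
      have h3 : (1 + x) * Real.exp (-x) ≤ 1 := by
        have h4 := Real.add_one_le_exp x
        have h5 : Real.exp x * Real.exp (-x) = 1 := by
          rw [← Real.exp_add]; simp
        have h6 := Real.exp_pos (-x)
        nlinarith
      nlinarith
  have h1 := hmono (Set.mem_Ici.2 le_rfl) (Set.mem_Ici.2 hd) hd
  simp only [neg_zero, Real.exp_zero, zero_div, zero_mul] at h1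
  linarith

private lemma fiired_exp {n : ℕ} (hn : 0 < n) :
    1 - E1 ≤ I0 n (fun s => Real.exp (-((s : ℝ) / n))) := by
  have hn' : (0 : ℝ) < n := by positivity
  have hterm : ∀ s : ℕ, Real.exp (-((s : ℝ) / n)) - Real.exp (-(((s + 1 : ℕ) : ℝ) / n)) ≤
      (Real.exp (-((s : ℝ) / n)) + Real.exp (-(((s + 1 : ℕ) : ℝ) / n))) / 2 / n := by
    intro s
    have h1 := fiired_trap (d := 1 / (n : ℝ)) (by positivity)
    have h2 : Real.exp (-(((s + 1 : ℕ) : ℝ) / n))
        = Real.exp (-((s : ℝ) / n)) * Real.exp (-(1 / (n : ℝ))) := by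
      rw [← Real.exp_add]
      congr 1
      push_cast
      field_simp
      ring
    rw [h2]
    have h3 := Real.exp_pos (-((s : ℝ) / n))
    have h4 := mul_le_mul_of_nonneg_left h1 h3.le
    have h5 : (Real.exp (-((s : ℝ) / n)) + Real.exp (-((s : ℝ) / n)) * Real.exp (-(1 / (n : ℝ)))) /
        2 / n = Real.exp (-((s : ℝ) / n)) * (1 / (n : ℝ) / 2 * (1 + Real.exp (-(1 / (n : ℝ))))) := by
      field_simp
    rw [h5]
    linarith
  have hsum : ∀ m : ℕ, 1 - Real.exp (-((m : ℝ) / n)) ≤
      ∑ s ∈ range m, (Real.exp (-((s : ℝ) / n)) + Real.exp (-(((s + 1 : ℕ) : ℝ) / n))) / 2 / n := by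
    intro m
    induction m with
    | zero => simp
    | succ k ih =>
      rw [Finset.sum_range_succ]
      have := hterm k
      linarith
  have h := hsum n
  rw [div_self hn'.ne'] at h
  unfold I0 E1
  rw [Finset.sum_div]
  exact h

private lemma fiired_expneg {g : ℝ} (hg : 0 ≤ g) : Real.exp (-g) ≤ 1 - g + g ^ 2 / 2 := by
  have h1 := Real.quadratic_le_exp_of_nonneg hg
  have h2 : Real.exp g * Real.exp (-g) = 1 := by
    rw [← Real.exp_add]; simp
  have h3 := Real.exp_pos (-g)
  have h4 : 0 < 1 - g + g ^ 2 / 2 := by nlinarith [sq_nonneg (g - 1)]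
  by_contra hcon
  push Not at hcon
  have h5 : (1 + g + g ^ 2 / 2) * (1 - g + g ^ 2 / 2) < Real.exp g * Real.exp (-g) := by
    calc (1 + g + g ^ 2 / 2) * (1 - g + g ^ 2 / 2)
        < (1 + g + g ^ 2 / 2) * Real.exp (-g) := by
          apply mul_lt_mul_of_pos_left hcon
          positivity
      _ ≤ Real.exp g * Real.exp (-g) := mul_le_mul_of_nonneg_right h1 h3.le
  nlinarith [sq_nonneg (g ^ 2)]

/-- monotone along the path -/
private lemma fiired_le {n : ℕ} {f : ℕ → ℝ} (h : ∀ s < n, f s ≤ f (s + 1)) :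
    ∀ s ≤ n, f s ≤ f n := by
  intro s hs
  induction hs using Nat.decreasingInduction with
  | self => exact le_rfl
  | of_succ k hk ih => exact (h k hk).trans ih

private lemma fiired_nonneg {n : ℕ} {f : ℕ → ℝ} (h0 : f 0 = 0) (h : ∀ s < n, f s ≤ f (s + 1)) :
    ∀ s ≤ n, 0 ≤ f s := by
  intro s
  induction s with
  | zero => intro _; rw [h0]
  | succ k ih => intro hk; exact (ih (by omega)).trans (h k (by omega))

/-- the lower bound of the survival probability -/
private lemma fiired_S {A B C D t : ℝ} (hA : 0 ≤ A) (hB : 0 ≤ B) (hC : 0 ≤ C)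
    (hs : A + B + C + D = t) :
    Real.exp (-t) * Real.exp D - (A + B) ^ 2 / 2 ≤ Real.exp (-C) * (1 - A) * (1 - B) := by
  set G := A + B with hG
  have hG0 : 0 ≤ G := by positivity
  have h1 : Real.exp (-C) = Real.exp (-t) * Real.exp D * Real.exp G := by
    rw [← Real.exp_add, ← Real.exp_add]
    congr 1
    linarith
  set q := Real.exp (-t) * Real.exp D with hq
  have hq0 : 0 < q := by positivity
  have hqG : q ≤ Real.exp (-G) := by
    rw [hq, ← Real.exp_add]
    apply Real.exp_le_exp.2
    linarith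
  have h2 : Real.exp G * Real.exp (-G) = 1 := by
    rw [← Real.exp_add]; simp
  have h3 : 0 ≤ 1 - Real.exp G * (1 - G) := by
    have := Real.add_one_le_exp (-G)
    have h4 := Real.exp_pos G
    nlinarith
  have h5 : q * (1 - Real.exp G * (1 - G)) ≤ Real.exp (-G) * (1 - Real.exp G * (1 - G)) :=
    mul_le_mul_of_nonneg_right hqG h3
  have h6 : Real.exp (-G) * (1 - Real.exp G * (1 - G)) = Real.exp (-G) - (1 - G) := by
    linear_combination (-(1 - G)) * h2
  have h7 := fiired_expneg hG0
  have h8 : q * Real.exp G * (1 - G) ≤ q * Real.exp G * ((1 - A) * (1 - B)) := by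
    apply mul_le_mul_of_nonneg_left
    · nlinarith [mul_nonneg hA hB]
    · positivity
  rw [h1]
  nlinarith

theorem FIIBd_p {n : ℕ} {A B C D : ℕ → ℝ} (h : Path n A B C D) :
    0 ≤ I0 n D ∧ I0 n D ≤ D n ∧ 0 ≤ I0 n (fun s => A s + B s) ∧
      I0 n (fun s => A s + B s) ≤ A n + B n ∧ 0 ≤ D n ∧ 0 ≤ A n + B n ∧
      D n + (A n + B n) = 1 - C n := by
  have hn := h.npos
  have hn' : (n : ℝ) ≠ 0 := by positivity
  have hA := fiired_nonneg h.A0 h.A1
  have hB := fiired_nonneg h.B0 h.B1
  have hD := fiired_nonneg h.D0 h.D1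
  have hA' := fiired_le h.A1
  have hB' := fiired_le h.B1
  have hD' := fiired_le h.D1
  have hz : I0 n (fun _ => (0 : ℝ)) = 0 := fiired_const hn 0
  refine ⟨?_, ?_, ?_, ?_, hD n le_rfl, add_nonneg (hA n le_rfl) (hB n le_rfl), ?_⟩
  · rw [← hz]
    exact fiired_mono hD
  · calc I0 n D ≤ I0 n (fun _ => D n) := fiired_mono hD'
      _ = D n := fiired_const hn _
  · rw [← hz]
    exact fiired_mono fun s hs => add_nonneg (hA s hs) (hB s hs)
  · calc I0 n (fun s => A s + B s) ≤ I0 n (fun _ => A n + B n) :=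
        fiired_mono fun s hs => add_le_add (hA' s hs) (hB' s hs)
      _ = A n + B n := fiired_const hn _
  · have := h.sum n le_rfl
    rw [div_self hn'] at this
    linarith

theorem FIIRed_p {n : ℕ} {A B C D : ℕ → ℝ} (h : Path n A B C D) :
    G2 (I0 n D) (I0 n (fun s => A s + B s)) (D n) (A n + B n) ≤
      I0 n (Sv A B C) + Sv A B C n / 2 + rho * Qv n A B C - Pv n A B C := by
  have hn := h.npos
  have hn' : (n : ℝ) ≠ 0 := by positivity
  have hnpos : (0 : ℝ) < n := by positivity
  have hA := fiired_nonneg h.A0 h.A1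
  have hB := fiired_nonneg h.B0 h.B1
  have hC := fiired_nonneg h.C0 h.C1
  have hD := fiired_nonneg h.D0 h.D1
  have hA' := fiired_le h.A1
  have hB' := fiired_le h.B1
  obtain ⟨hE1, hE2, hR1, hR2, hRq, hbW⟩ := Num_p
  have hW : Wc = Rc + 1 / 2 := rfl
  have hWpos : 0 < Wc := by rw [hW]; linarith
  have hrho : rho = Rc - 1 / 2 := rfl
  have hrho0 : 0 ≤ rho := by rw [hrho]; linarith
  have hbc : bc = 1 - E1 + Rc * E1 := rfl
  have hsumn : A n + B n + C n + D n = 1 := by
    have := h.sum n le_rfl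
    rwa [div_self hn'] at this
  -- names
  set x := I0 n D with hx
  set X := I0 n (fun s => A s + B s) with hX
  set y := D n with hy
  set Y := A n + B n with hY
  -- I0 of the four sequences
  have e1 : I0 n A + I0 n B = X := by rw [hX, fiired_add]
  have e2 : I0 n A + I0 n B + I0 n C + I0 n D = 1 / 2 := by
    have h1 : I0 n (fun s => A s + B s + C s + D s) = I0 n (fun s => (s : ℝ) / n) := by
      apply le_antisymm
      · exact fiired_mono fun s hs => (h.sum s hs).le
      · exact fiired_mono fun s hs => (h.sum s hs).ge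
    rw [fiired_t hn, fiired_add, fiired_add, fiired_add] at h1
    exact h1
  -- the polynomial part
  set a := I1 n A with ha
  set b := I1 n B with hb
  set c := I1 n C with hc
  set d := I1 n D with hd
  have ed : d = x + Rc * y := rfl
  have eg : a + b = X + Rc * Y := by
    have h1 : a = I0 n A + Rc * A n := rfl
    have h2 : b = I0 n B + Rc * B n := rfl
    rw [h1, h2, ← e1, hY]; ring
  have ec : c = Wc - (a + b) - d := by
    have h1 : a = I0 n A + Rc * A n := rfl
    have h2 : b = I0 n B + Rc * B n := rfl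
    have h3 : c = I0 n C + Rc * C n := rfl
    have h4 : d = I0 n D + Rc * D n := rfl
    have h5 : Rc * (A n + B n + C n + D n) = Rc := by rw [hsumn, mul_one]
    rw [h1, h2, h3, h4, hW]
    linarith
  have hP : Pv n A B C ≤ bc - rho * (X + Rc * Y) +
      (2 - bc / Wc - 2 * Rc / Wc) * (x + Rc * y) +
      Rc / Wc ^ 2 * (X / 2 + Rc * Y / 2 + x + Rc * y) ^ 2 := by
    have h1 : Pv n A B C = bc - rho * (a + b) + (2 - bc / Wc - 2 * Rc / Wc) * d +
        Rc / Wc ^ 2 * ((a + d) * (b + d)) := by
      show (1 + Rc) - a - b - 2 * c + Rc / Wc ^ 2 * (a + c) * (b + c) + bc / Wc * c = _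
      have hr : rho = Wc - 1 := by rw [hrho, hW]; ring
      have hb2 : bc = Wc ^ 2 - Rc := by linarith
      have hR : Rc = Wc - 1 / 2 := by rw [hW]; ring
      rw [ec, hr, hb2, hR]
      field_simp
      ring
    rw [h1, eg, ed]
    have h2 : (a + d) * (b + d) ≤ (X / 2 + Rc * Y / 2 + x + Rc * y) ^ 2 := by
      have h3 : X / 2 + Rc * Y / 2 + x + Rc * y = (a + d + (b + d)) / 2 := by
        rw [ed]; linarith
      rw [h3]
      nlinarith [sq_nonneg (a + d - (b + d))]
    have h4 : 0 ≤ Rc / Wc ^ 2 := by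
      have : 0 ≤ Rc := by linarith
      positivity
    have h5 := mul_le_mul_of_nonneg_left h2 h4
    rw [ed] at h5
    linarith
  -- the sum
  have hS : (1 - E1) + E1 * x - Y / 2 * X ≤ I0 n (Sv A B C) := by
    have h1 : I0 n (fun s => Real.exp (-((s : ℝ) / n)) + (E1 * D s + (-(Y / 2)) * (A s + B s))) ≤
        I0 n (Sv A B C) := by
      apply fiired_mono
      intro s hs
      have h2 := fiired_S (hA s hs) (hB s hs) (hC s hs) (h.sum s hs)
      have h3 : Real.exp (-((s : ℝ) / n)) * (1 + D s) ≤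
          Real.exp (-((s : ℝ) / n)) * Real.exp (D s) := by
        apply mul_le_mul_of_nonneg_left _ (Real.exp_pos _).le
        have := Real.add_one_le_exp (D s)
        linarith
      have h4 : E1 ≤ Real.exp (-((s : ℝ) / n)) := by
        unfold E1
        apply Real.exp_le_exp.2
        have : (s : ℝ) / n ≤ 1 := by
          rw [div_le_one hnpos]
          exact_mod_cast hs
        linarith
      have h5 := mul_le_mul_of_nonneg_right h4 (hD s hs)
      have h6 : (A s + B s) ^ 2 ≤ Y * (A s + B s) := by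
        rw [sq]
        apply mul_le_mul_of_nonneg_right
        · exact add_le_add (hA' s hs) (hB' s hs)
        · exact add_nonneg (hA s hs) (hB s hs)
      show _ ≤ Real.exp (-C s) * (1 - A s) * (1 - B s)
      nlinarith
    rw [fiired_add, fiired_add, fiired_mul, fiired_mul] at h1
    have h2 := fiired_exp hn
    have h3 : I0 n (fun s => A s + B s) = X := rfl
    rw [h3] at h1
    have h4 : I0 n (fun s => D s) = x := rfl
    rw [h4] at h1
    linarith
  -- the last value
  have hL : E1 * (1 + y + y ^ 2 / 2) - Y ^ 2 / 2 ≤ Sv A B C n := by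
    have h2 := fiired_S (hA n le_rfl) (hB n le_rfl) (hC n le_rfl) hsumn
    have h3 : E1 * (1 + y + y ^ 2 / 2) ≤ Real.exp (-1) * Real.exp (D n) := by
      unfold E1
      apply mul_le_mul_of_nonneg_left _ (Real.exp_pos _).le
      exact Real.quadratic_le_exp_of_nonneg (hD n le_rfl)
    show _ ≤ Real.exp (-C n) * (1 - A n) * (1 - B n)
    linarith
  have hQ : y ^ 2 + y * Y + E1 * (1 - Y - y) ≤ Qv n A B C := by
    show _ ≤ (1 - A n - C n) * (1 - B n - C n) + C n * E1
    have h1 : 1 - A n - C n = B n + y := by linarith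
    have h2 : 1 - B n - C n = A n + y := by linarith
    have h3 : C n = 1 - Y - y := by linarith
    rw [h1, h2, h3]
    nlinarith [mul_nonneg (hA n le_rfl) (hB n le_rfl)]
  have hQ' := mul_le_mul_of_nonneg_left hQ hrho0
  have hgoal : G2 x X y Y = (1 - E1) + E1 * x - Y / 2 * X +
      (E1 * (1 + y + y ^ 2 / 2) - Y ^ 2 / 2) / 2 + rho * (y ^ 2 + y * Y + E1 * (1 - Y - y)) -
      (bc - rho * (X + Rc * Y) + (2 - bc / Wc - 2 * Rc / Wc) * (x + Rc * y) +
      Rc / Wc ^ 2 * (X / 2 + Rc * Y / 2 + x + Rc * y) ^ 2) := by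
    have hconst : (1 - E1) + E1 / 2 + rho * E1 - bc = 0 := by
      rw [hrho, hbc]; ring
    unfold G2
    linear_combination (-1 : ℝ) * hconst
  rw [hgoal]
  linarith

end Pool.Agent.Lib.RdvF
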