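import Mathlib
import Pool.Agent.Lib.RdvF.FDef
import Pool.Agent.Lib.RdvF.Num

/-! # RdvF.V1: an inequality in one variable (60-120 lines)

minimum of Ff/h is 0.0315 (so the inequality is strict for `h > 0` and both sides vanish at `h = 0`). Use `Num_p`
(`E1 ∈ (0.367879, 0.367880)`, `Rc ∈ (0.82888, 0.82889)`, `Wc = Rc + 1/2`, `rho = Rc - 1/2`,
`bc = 1 - E1 + Rc E1`, `Rc/Wc^2 = 0.469374`, `bc/Wc = 0.705140`) and Taylor bounds of `exp(-h)`:
`1 - h + h^2/2 - h^3/6 ≤ exp(-h) ≤ 1 - h + h^2/2 - h^3/6 + h^4/24` (for the coefficient of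
`exp(-h)`, whose sign is known; `taylor7` of `MP92dd55.Poly` or `Real.exp_bound`), divide by `h`
and bound every coefficient numerically; then split `[0, 0.71]` into a few intervals or use
nlinarith. All constants may first be bounded to 5 digits: the slack is large except near `h=0`
where the linear coefficient (exact value > 0.03) decides. -/

namespace Pool.Agent.Lib.RdvF

open MeasureTheory Finset Pool.Agent.Lib.MP92dd55
open scoped ENNReal

private lemma v1_exp_lower (h : ℝ) (h0 : 0 ≤ h) (h1 : h ≤ 1) :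
    1 - h + h ^ 2 / 2 - h ^ 3 / 6 ≤ Real.exp (-h) := by
  have hb := Real.exp_bound (x := -h) (by rw [abs_neg, abs_of_nonneg h0]; exact h1)
    (n := 5) (by norm_num)
  rw [abs_neg, abs_of_nonneg h0] at hb
  have h2 := (abs_le.mp hb).1
  norm_num [Finset.sum_range_succ, Nat.factorial] at h2
  have h4 : 0 ≤ h ^ 4 := by positivity
  have h5 : h ^ 5 ≤ h ^ 4 := by
    have : h ^ 5 = h ^ 4 * h := by ring
    rw [this]
    nlinarith
  nlinarith

private lemma v1_exp_upper (h : ℝ) (h0 : 0 ≤ h) :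
    Real.exp (-h) ≤ 1 - h + h ^ 2 / 2 := by
  have hq := Real.quadratic_le_exp_of_nonneg h0
  have hm : Real.exp (-h) * Real.exp h = 1 := by
    rw [← Real.exp_add]; simp
  have hp : 0 < Real.exp (-h) := Real.exp_pos _
  have h4 : 0 ≤ h ^ 4 := by positivity
  have hu : Real.exp (-h) * (1 + h + h ^ 2 / 2) ≤ 1 :=
    (mul_le_mul_of_nonneg_left hq hp.le).trans hm.le
  have hP : 0 < 1 + h + h ^ 2 / 2 := by positivity
  have h6 : 1 ≤ (1 - h + h ^ 2 / 2) * (1 + h + h ^ 2 / 2) := by nlinarith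
  exact le_of_mul_le_mul_right (hu.trans h6) hP

theorem V1_p (h : ℝ) (h0 : 0 ≤ h) (h1 : h ≤ 71 / 100) : 0 ≤ Ff (h ^ 2 / 2) h 0 := by
  obtain ⟨e1, e2, r1, r2, -, -⟩ := Num_p
  have hW : Wc = Rc + 1 / 2 := rfl
  have hW0 : 0 < Wc := by rw [hW]; linarith
  have hb : bc / Wc ≤ 0.705145 := by
    rw [div_le_iff₀ hW0, hW]
    unfold bc
    nlinarith
  have hq : Rc / Wc ^ 2 ≤ 0.469381 := by
    rw [div_le_iff₀ (by positivity), hW]
    nlinarith
  have hq0 : 0 ≤ Rc / Wc ^ 2 := by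
    apply div_nonneg (by linarith) (by positivity)
  have hl := v1_exp_lower h h0 (by linarith)
  have hu := v1_exp_upper h h0
  have hRh : 0.82888 * h ≤ Rc * h := mul_le_mul_of_nonneg_right r1.le h0
  have hRh2 : Rc * h ≤ 0.82889 * h := mul_le_mul_of_nonneg_right r2.le h0
  have hRh0 : 0 ≤ Rc * h := by linarith [mul_nonneg (by norm_num : (0 : ℝ) ≤ 0.82888) h0]
  have hs : 0 ≤ h ^ 2 := by positivity
  have t1 : 1.294855 * (h ^ 2 / 2 + 0.82888 * h) ≤ (2 - bc / Wc) * (h ^ 2 / 2 + Rc * h) := by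
    apply mul_le_mul
    · linarith
    · linarith
    · linarith [mul_nonneg (by norm_num : (0 : ℝ) ≤ 0.82888) h0]
    · linarith
  have t2 : Real.exp (-h) * h ^ 2 ≤ (1 - h + h ^ 2 / 2) * h ^ 2 :=
    mul_le_mul_of_nonneg_right hu hs
  have t4 : rho * (h * (2 - E1 - h)) ≤ 0.32889 * (h * (1.632121 - h)) := by
    have hr : rho = Rc - 1 / 2 := rfl
    rw [hr]
    apply mul_le_mul
    · linarith
    · apply mul_le_mul_of_nonneg_left _ h0
      linarith
    · apply mul_nonneg h0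
      linarith
    · norm_num
  have t5 : Rc / Wc ^ 2 * (h ^ 2 / 2 + Rc * h) ^ 2 ≤
      0.469381 * (h ^ 2 / 2 + 0.82889 * h) ^ 2 := by
    apply mul_le_mul hq _ (by positivity) (by norm_num)
    apply pow_le_pow_left₀ (by linarith)
    linarith
  have t6 : 0 ≤ h * (0.03649 - 0.09618 * h + 0.5276 * h ^ 2 - 0.61735 * h ^ 3) := by
    apply mul_nonneg h0
    nlinarith [mul_nonneg hs (sub_nonneg.mpr h1), sq_nonneg (h - 0.5)]
  have key : Ff (h ^ 2 / 2) h 0 = (2 - bc / Wc) * (h ^ 2 / 2 + Rc * h) -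
      Real.exp (-h) * h ^ 2 - 1 / 2 + Real.exp (-h) / 2 - rho * (h * (2 - E1 - h)) -
      Rc / Wc ^ 2 * (h ^ 2 / 2 + Rc * h) ^ 2 := by
    unfold Ff
    ring
  rw [key]
  nlinarith

end Pool.Agent.Lib.RdvF
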