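import Mathlib
import Pool.Agent.Lib.RdvF.FDef
import Pool.Agent.Lib.RdvF.Num

/-! # RdvF.V2: an inequality in one variable (60-120 lines)

minimum of Ff/h is 0.0298 (so the inequality is strict for `h > 0` and both sides vanish at `h = 0`). Use `Num_p`
(`E1 ∈ (0.367879, 0.367880)`, `Rc ∈ (0.82888, 0.82889)`, `Wc = Rc + 1/2`, `rho = Rc - 1/2`,
`bc = 1 - E1 + Rc E1`, `Rc/Wc^2 = 0.469374`, `bc/Wc = 0.705140`) and Taylor bounds of `exp(-h)`: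
`1 - h + h^2/2 - h^3/6 ≤ exp(-h) ≤ 1 - h + h^2/2 - h^3/6 + h^4/24` (for the coefficient of
`exp(-h)`, whose sign is known; `taylor7` of `MP92dd55.Poly` or `Real.exp_bound`), divide by `h`
and bound every coefficient numerically; then split `[0, 0.71]` into a few intervals or use
nlinarith. All constants may first be bounded to 5 digits: the slack is large except near `h=0`
where the linear coefficient (exact value > 0.03) decides. -/

namespace Pool.Agent.Lib.RdvF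

open MeasureTheory Finset Pool.Agent.Lib.MP92dd55
open scoped ENNReal

private lemma V2_low (h : ℝ) (h0 : 0 ≤ h) (h1 : h ≤ 71 / 100) :
    1 - h + h ^ 2 / 2 - h ^ 3 / 6 ≤ Real.exp (-h) := by
  have h2 := taylor7 h h0
  have e1 : 0 ≤ h ^ 4 * (1 / 24 - h / 120) := mul_nonneg (by positivity) (by linarith)
  have e2 : 0 ≤ h ^ 6 * (1 / 720 - h / 5040) := mul_nonneg (by positivity) (by linarith)
  nlinarith [h2, e1, e2]

private lemma V2_up (h : ℝ) (h0 : 0 ≤ h) :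
    Real.exp (-h) ≤ 1 - h + h ^ 2 / 2 - h ^ 3 / 6 + h ^ 4 / 24 := by
  have h2 := Real.sum_le_exp_of_nonneg h0 5
  simp only [sum_range_succ, sum_range_zero, Nat.factorial] at h2
  norm_num at h2
  rw [Real.exp_neg]
  have h3 : 0 < 1 + h + h ^ 2 / 2 + h ^ 3 / 6 + h ^ 4 / 24 := by positivity
  have h4 : (Real.exp h)⁻¹ ≤ (1 + h + h ^ 2 / 2 + h ^ 3 / 6 + h ^ 4 / 24)⁻¹ :=
    inv_anti₀ h3 (by linarith)
  refine h4.trans ?_
  rw [inv_le_iff_one_le_mul₀ h3]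
  have e : (1 - h + h ^ 2 / 2 - h ^ 3 / 6 + h ^ 4 / 24) *
      (1 + h + h ^ 2 / 2 + h ^ 3 / 6 + h ^ 4 / 24) = 1 + h ^ 6 / 72 + h ^ 8 / 576 := by ring
  rw [e]
  have : 0 ≤ h ^ 6 / 72 + h ^ 8 / 576 := by positivity
  linarith

private lemma V2_form (h : ℝ) : Ff (h ^ 2 / 2) h (Wc - h ^ 2 / 2 - Rc * h) =
    (3 / 2 - Rc) * (h ^ 2 / 2 + Rc * h) -
      (Real.exp (-h) * (h ^ 2 - 1 / 2) + 1 / 2 + (Rc - 1 / 2) * h) *
        (1 / 2 + (h ^ 2 / 2 + Rc * h)) * (1 + Rc)⁻¹ -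
      (Rc - 1 / 2) * h * (1 - E1 - h) -
      73 / 400 * h ^ 2 * (Rc * (1 - h) + 1 / 2 - h ^ 2 / 2) ^ 2 := by
  obtain ⟨-, -, c1, c2, -, c3⟩ := Num_p
  have hb : bc = Wc ^ 2 - Rc := by linarith
  have hW : Wc = Rc + 1 / 2 := rfl
  have hr : rho = Rc - 1 / 2 := rfl
  have hW0 : Wc ≠ 0 := by rw [hW]; linarith
  have hR0 : 1 + Rc ≠ 0 := by linarith
  have e1 : bc / Wc = Wc - Rc / Wc := by
    rw [hb]; field_simp
  have e2 : Rc / Wc ^ 2 * (h ^ 2 / 2 + Rc * h) ^ 2 +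
      Rc / Wc ^ 2 * (h ^ 2 / 2 + Rc * h) * (Wc - h ^ 2 / 2 - Rc * h) =
      Rc / Wc * (h ^ 2 / 2 + Rc * h) := by
    field_simp; ring
  have e3 : 1 - (Wc - h ^ 2 / 2 - Rc * h) / (1 + Rc) =
      (1 / 2 + (h ^ 2 / 2 + Rc * h)) * (1 + Rc)⁻¹ := by
    rw [hW]; field_simp; ring
  have e4 : Ff (h ^ 2 / 2) h (Wc - h ^ 2 / 2 - Rc * h) =
      (2 - bc / Wc) * (h ^ 2 / 2 + Rc * h) -
      (Real.exp (-h) * (h ^ 2 / 2 + h ^ 2 / 2) + (1 - Real.exp (-h)) / 2 + rho * h) *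
        (1 - (Wc - h ^ 2 / 2 - Rc * h) / (1 + Rc)) -
      rho * h * (1 - E1 - h) -
      (Rc / Wc ^ 2 * (h ^ 2 / 2 + Rc * h) ^ 2 +
      Rc / Wc ^ 2 * (h ^ 2 / 2 + Rc * h) * (Wc - h ^ 2 / 2 - Rc * h)) -
      73 / 100 * h ^ 2 * (Wc - h ^ 2 / 2 - Rc * h) ^ 2 / 4 := by
    unfold Ff; ring
  rw [e4, e2, e3, e1, hr]
  generalize Real.exp (-h) = e
  generalize (1 + Rc)⁻¹ = k
  have e5 : Rc / Wc * (h ^ 2 / 2 + Rc * h) = Rc / Wc * (h ^ 2 / 2 + Rc * h) := rfl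
  generalize Rc / Wc = q
  rw [hW]
  ring

private lemma V2_poly (h : ℝ) (h0 : 0 ≤ h) (h1 : h ≤ 71 / 100) :
    0 ≤ (3 / 2 - 82889 / 100000) * (h ^ 2 / 2 + 82888 / 100000 * h) -
      ((1 - h + h ^ 2 / 2 - h ^ 3 / 6 + h ^ 4 / 24) * h ^ 2 -
        (1 - h + h ^ 2 / 2 - h ^ 3 / 6) / 2 + 1 / 2 + 32889 / 100000 * h) *
        (1 / 2 + (h ^ 2 / 2 + 82889 / 100000 * h)) * (54679 / 100000) -
      32889 / 100000 * h * (1 - 367879 / 1000000) + 32888 / 100000 * h ^ 2 -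
      73 / 400 * h ^ 2 * (82889 / 100000 * (1 - h) + 1 / 2 - h ^ 2 / 2) ^ 2 := by
  have ha : 0 ≤ 71 / 100 - h := by linarith
  have key : 0 ≤ ((3043924989/25000000000) + (-238573664804209/1000000000000000) * h ^ 1 + (516749731049/6000000000000) * h ^ 2 + (2290202089801/12000000000000) * h ^ 3 + (-4902533393/60000000000) * h ^ 4 + (-2363516623/20000000000) * h ^ 5 + (2134504123/80000000000) * h ^ 6 + (-54679/4800000) * h ^ 7 : ℝ) := by
    nlinarith [mul_nonneg (pow_nonneg h0 0) (pow_nonneg ha 7),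
      mul_nonneg (pow_nonneg h0 1) (pow_nonneg ha 6),
      mul_nonneg (pow_nonneg h0 2) (pow_nonneg ha 5),
      mul_nonneg (pow_nonneg h0 3) (pow_nonneg ha 4),
      mul_nonneg (pow_nonneg h0 4) (pow_nonneg ha 3),
      mul_nonneg (pow_nonneg h0 5) (pow_nonneg ha 2),
      mul_nonneg (pow_nonneg h0 6) (pow_nonneg ha 1),
      mul_nonneg (pow_nonneg h0 7) (pow_nonneg ha 0)]
  have := mul_nonneg h0 key
  nlinarith [this]

theorem V2_p (h : ℝ) (h0 : 0 ≤ h) (h1 : h ≤ 71 / 100) : 0 ≤ Ff (h ^ 2 / 2) h (Wc - h ^ 2 / 2 - Rc * h) := by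
  obtain ⟨a1, a2, a3, a4, -, -⟩ := Num_p
  rw [V2_form]
  refine (V2_poly h h0 h1).trans ?_
  have l := V2_low h h0 h1
  have u := V2_up h h0
  have hk : (1 + Rc)⁻¹ ≤ 54679 / 100000 := by
    rw [inv_le_comm₀ (by linarith) (by norm_num)]
    norm_num
    linarith
  have hk0 : 0 ≤ (1 + Rc)⁻¹ := inv_nonneg.mpr (by linarith)
  set e := Real.exp (-h) with he
  set k := (1 + Rc)⁻¹ with hk'
  -- first term
  have t1 : (3 / 2 - 82889 / 100000) * (h ^ 2 / 2 + 82888 / 100000 * h) ≤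
      (3 / 2 - Rc) * (h ^ 2 / 2 + Rc * h) := by
    refine mul_le_mul (by linarith) ?_ (by positivity) (by linarith)
    have := mul_le_mul_of_nonneg_right a3.le h0
    linarith
  -- second term
  have t2a : e * (h ^ 2 - 1 / 2) + 1 / 2 + (Rc - 1 / 2) * h ≤
      (1 - h + h ^ 2 / 2 - h ^ 3 / 6 + h ^ 4 / 24) * h ^ 2 -
        (1 - h + h ^ 2 / 2 - h ^ 3 / 6) / 2 + 1 / 2 + 32889 / 100000 * h := by
    have e1 := mul_le_mul_of_nonneg_right u (sq_nonneg h)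
    have e2 := mul_le_mul_of_nonneg_right a4.le h0
    nlinarith
  have t2b : 0 ≤ 1 / 2 + (h ^ 2 / 2 + Rc * h) := by
    have : 0 ≤ Rc * h := mul_nonneg (by linarith) h0
    positivity
  have t2c : 1 / 2 + (h ^ 2 / 2 + Rc * h) ≤ 1 / 2 + (h ^ 2 / 2 + 82889 / 100000 * h) := by
    have e2 := mul_le_mul_of_nonneg_right a4.le h0
    linarith
  have t2d : 0 ≤ (1 - h + h ^ 2 / 2 - h ^ 3 / 6 + h ^ 4 / 24) * h ^ 2 -
        (1 - h + h ^ 2 / 2 - h ^ 3 / 6) / 2 + 1 / 2 + 32889 / 100000 * h := by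
    have e1 : 0 ≤ (1 - h + h ^ 2 / 2 - h ^ 3 / 6 + h ^ 4 / 24) * h ^ 2 :=
      mul_nonneg ((Real.exp_pos _).le.trans u) (sq_nonneg h)
    have e2 : 0 ≤ h ^ 3 := pow_nonneg h0 3
    nlinarith
  have t2 : (e * (h ^ 2 - 1 / 2) + 1 / 2 + (Rc - 1 / 2) * h) *
        (1 / 2 + (h ^ 2 / 2 + Rc * h)) * k ≤
      ((1 - h + h ^ 2 / 2 - h ^ 3 / 6 + h ^ 4 / 24) * h ^ 2 -
        (1 - h + h ^ 2 / 2 - h ^ 3 / 6) / 2 + 1 / 2 + 32889 / 100000 * h) *
        (1 / 2 + (h ^ 2 / 2 + 82889 / 100000 * h)) * (54679 / 100000) := by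
    refine mul_le_mul ?_ hk hk0 (mul_nonneg t2d (t2b.trans t2c))
    exact mul_le_mul t2a t2c t2b t2d
  -- third term
  have t3 : (Rc - 1 / 2) * h * (1 - E1 - h) ≤
      32889 / 100000 * h * (1 - 367879 / 1000000) - 32888 / 100000 * h ^ 2 := by
    have e1 : (Rc - 1 / 2) * (1 - E1) ≤ 32889 / 100000 * (1 - 367879 / 1000000) :=
      mul_le_mul (by linarith) (by linarith) (by linarith) (by norm_num)
    have e2 := mul_le_mul_of_nonneg_right e1 h0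
    have e3 : 32888 / 100000 * h ^ 2 ≤ (Rc - 1 / 2) * h ^ 2 :=
      mul_le_mul_of_nonneg_right (by linarith) (sq_nonneg h)
    nlinarith
  -- fourth term
  have t4 : 73 / 400 * h ^ 2 * (Rc * (1 - h) + 1 / 2 - h ^ 2 / 2) ^ 2 ≤
      73 / 400 * h ^ 2 * (82889 / 100000 * (1 - h) + 1 / 2 - h ^ 2 / 2) ^ 2 := by
    refine mul_le_mul_of_nonneg_left ?_ (by positivity)
    refine pow_le_pow_left₀ ?_ ?_ 2
    · have : 0 ≤ Rc * (1 - h) := mul_nonneg (by linarith) (by linarith)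
      nlinarith
    · have := mul_le_mul_of_nonneg_right a4.le (by linarith : (0 : ℝ) ≤ 1 - h)
      linarith
  linarith

end Pool.Agent.Lib.RdvF
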