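import Mathlib
import Pool.Agent.Lib.RdvF.FDef
import Pool.Agent.Lib.RdvF.Num

/-! # RdvF.V3: an inequality in one variable

The coefficient of `exp (-h)` is `1/2 - h`; `exp (-h)` is replaced by its Taylor polynomial of
degree three (error at most `h^4/24 + h^5/100`), the constants by five digit bounds, and the
remaining polynomial inequality on `[0, 0.71]` is checked with `nlinarith`. -/

namespace Pool.Agent.Lib.RdvF

open MeasureTheory Finset Pool.Agent.Lib.MP92dd55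
open scoped ENNReal

private theorem v3_exp (h : ℝ) (h0 : 0 ≤ h) (h1 : h ≤ 71 / 100) :
    1 - h + h ^ 2 / 2 - h ^ 3 / 6 ≤ Real.exp (-h) ∧
      Real.exp (-h) ≤ 1 - h + h ^ 2 / 2 - h ^ 3 / 6 + h ^ 4 / 24 + h ^ 5 / 100 := by
  have hb := Real.exp_bound (x := -h) (by rw [abs_neg, abs_of_nonneg h0]; linarith)
    (n := 5) (by norm_num)
  simp only [Finset.sum_range_succ, Finset.sum_range_zero, Nat.factorial, abs_neg,
    abs_of_nonneg h0] at hb
  norm_num at hb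
  rw [abs_le] at hb
  obtain ⟨hl, hu⟩ := hb
  have h5 : h ^ 5 / 100 ≤ h ^ 4 / 24 := by
    have : h ^ 5 = h ^ 4 * h := by ring
    rw [this]
    have h4 : 0 ≤ h ^ 4 := by positivity
    nlinarith
  constructor
  · nlinarith
  · nlinarith

private theorem v3_mul (h : ℝ) (h0 : 0 ≤ h) (h1 : h ≤ 71 / 100) :
    Real.exp (-h) * (h - 1 / 2) ≤
      (1 - h + h ^ 2 / 2 - h ^ 3 / 6) * (h - 1 / 2) + 103 / 10000 * h ^ 4 := by
  obtain ⟨hl, hu⟩ := v3_exp h h0 h1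
  have h4 : 0 ≤ h ^ 4 := by positivity
  rcases le_total h (1 / 2) with hh | hh
  · nlinarith
  · have e1 : Real.exp (-h) * (h - 1 / 2) ≤
        (1 - h + h ^ 2 / 2 - h ^ 3 / 6 + h ^ 4 / 24 + h ^ 5 / 100) * (h - 1 / 2) :=
      mul_le_mul_of_nonneg_right hu (by linarith)
    have e2 : (h ^ 4 / 24 + h ^ 5 / 100) * (h - 1 / 2) ≤ 103 / 10000 * h ^ 4 := by
      have e3 : h ^ 4 / 24 + h ^ 5 / 100 ≤ h ^ 4 * (4877 / 100000) := by
        have : h ^ 5 = h ^ 4 * h := by ring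
        rw [this]
        nlinarith
      have e4 : (h ^ 4 / 24 + h ^ 5 / 100) * (h - 1 / 2) ≤
          (h ^ 4 * (4877 / 100000)) * (h - 1 / 2) :=
        mul_le_mul_of_nonneg_right e3 (by linarith)
      nlinarith
    nlinarith

private theorem v3_consts : bc / Wc < 0.70515 ∧ Rc / Wc ^ 2 < 0.46939 := by
  obtain ⟨a1, a2, b1, b2, -, -⟩ := Num_p
  have hW1 : (1.32888 : ℝ) < Wc := by unfold Wc; linarith
  have hW0 : 0 < Wc := by linarith
  have hbc : bc < 0.937054 := by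
    unfold bc
    nlinarith
  constructor
  · rw [div_lt_iff₀ hW0]
    linarith
  · rw [div_lt_iff₀ (by positivity)]
    nlinarith

private theorem v3_poly (h : ℝ) (h0 : 0 ≤ h) (h1 : h ≤ 71 / 100) :
    0 ≤ 1.29485 * (1.82888 * h - h ^ 2 / 2) -
      ((1 - h + h ^ 2 / 2 - h ^ 3 / 6) * (h - 1 / 2) + 103 / 10000 * h ^ 4 + 1 / 2 +
        0.32889 * h) - (0.2079 * h - 0.32888 * h ^ 2) -
      0.46939 * (h * (1.82889 - h / 2)) ^ 2 := by
  have key : 0 ≤ 0.331 - 0.639 * h + 0.2745 * h ^ 2 := by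
    nlinarith [sq_nonneg (h - 71 / 100)]
  have h2 : 0 ≤ h ^ 2 := by positivity
  have h3 : 0 ≤ h ^ 3 := by positivity
  have h4 : 0 ≤ h ^ 4 := by positivity
  nlinarith [mul_nonneg h0 key]

theorem V3_p (h : ℝ) (h0 : 0 ≤ h) (h1 : h ≤ 71 / 100) : 0 ≤ Ff (h - h ^ 2 / 2) h 0 := by
  obtain ⟨a1, a2, b1, b2, -, -⟩ := Num_p
  obtain ⟨c1, c2⟩ := v3_consts
  have hm := v3_mul h h0 h1
  have hp := v3_poly h h0 h1
  unfold Ff
  have hrho : rho = Rc - 1 / 2 := rfl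
  generalize bc / Wc = K at *
  generalize Rc / Wc ^ 2 = L at *
  have t1 : 1.29485 * (1.82888 * h - h ^ 2 / 2) ≤ (2 - K) * (h - h ^ 2 / 2 + Rc * h) := by
    have e1 : 1.82888 * h - h ^ 2 / 2 ≤ h - h ^ 2 / 2 + Rc * h := by nlinarith
    have e0 : 0 ≤ 1.82888 * h - h ^ 2 / 2 := by nlinarith
    have e2 : (1.29485 : ℝ) ≤ 2 - K := by linarith
    exact mul_le_mul e2 e1 e0 (by linarith)
  have t2 : rho * h ≤ 0.32889 * h := by
    rw [hrho]
    nlinarith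
  have t3 : rho * h * (1 - E1 - h) ≤ 0.2079 * h - 0.32888 * h ^ 2 := by
    have e1 : rho * (1 - E1) ≤ 0.2079 := by
      rw [hrho]
      nlinarith
    have e2 : 0.32888 * h ^ 2 ≤ rho * h ^ 2 := by
      rw [hrho]
      have : 0 ≤ h ^ 2 := by positivity
      nlinarith
    nlinarith
  have t4 : L * (h - h ^ 2 / 2 + Rc * h) ^ 2 ≤ 0.46939 * (h * (1.82889 - h / 2)) ^ 2 := by
    have e0 : 0 ≤ h - h ^ 2 / 2 + Rc * h := by nlinarith
    have e1 : h - h ^ 2 / 2 + Rc * h ≤ h * (1.82889 - h / 2) := by nlinarith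
    have e2 : (h - h ^ 2 / 2 + Rc * h) ^ 2 ≤ (h * (1.82889 - h / 2)) ^ 2 := by
      apply pow_le_pow_left₀ e0 e1
    have e3 : L * (h - h ^ 2 / 2 + Rc * h) ^ 2 ≤ 0.46939 * (h - h ^ 2 / 2 + Rc * h) ^ 2 :=
      mul_le_mul_of_nonneg_right c2.le (sq_nonneg _)
    linarith [mul_le_mul_of_nonneg_left e2 (by norm_num : (0 : ℝ) ≤ 0.46939)]
  have t5 : Real.exp (-h) * (h - h ^ 2 / 2 + h ^ 2 / 2) + (1 - Real.exp (-h)) / 2 =
      Real.exp (-h) * (h - 1 / 2) + 1 / 2 := by ring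
  have t6 : (Real.exp (-h) * (h - h ^ 2 / 2 + h ^ 2 / 2) + (1 - Real.exp (-h)) / 2 + rho * h) *
      (1 - 0 / (1 + Rc)) = Real.exp (-h) * (h - 1 / 2) + 1 / 2 + rho * h := by
    rw [zero_div, sub_zero, mul_one, t5]
  rw [t6]
  linarith

end Pool.Agent.Lib.RdvF
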