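import Mathlib
import Pool.Agent.Lib.RdvF.FDef
import Pool.Agent.Lib.RdvF.Num

/-! # RdvF.V4: an inequality in one variable (60-120 lines)

minimum of Ff/h is 0.00789, at h = 0.71; the value at h = 0.71 is 0.0056 (so the inequality is strict for `h > 0` and both sides vanish at `h = 0`). Use `Num_p`
(`E1 ∈ (0.367879, 0.367880)`, `Rc ∈ (0.82888, 0.82889)`, `Wc = Rc + 1/2`, `rho = Rc - 1/2`,
`bc = 1 - E1 + Rc E1`, `Rc/Wc^2 = 0.469374`, `bc/Wc = 0.705140`) and Taylor bounds of `exp(-h)`: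
`1 - h + h^2/2 - h^3/6 ≤ exp(-h) ≤ 1 - h + h^2/2 - h^3/6 + h^4/24` (for the coefficient of
`exp(-h)`, whose sign is known; `taylor7` of `MP92dd55.Poly` or `Real.exp_bound`), divide by `h`
and bound every coefficient numerically; then split `[0, 0.71]` into a few intervals or use
nlinarith. All constants may first be bounded to 5 digits: the slack is large except near `h=0`
where the linear coefficient (exact value > 0.03) decides. -/

namespace Pool.Agent.Lib.RdvF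

open MeasureTheory Finset Pool.Agent.Lib.MP92dd55
open scoped ENNReal

/-- Taylor bounds for `exp (-h)` -/
private theorem V4_exp (h : ℝ) (h0 : 0 ≤ h) (h1 : h ≤ 1) :
    1 - h + h ^ 2 / 2 - h ^ 3 / 6 ≤ Real.exp (-h) ∧
      Real.exp (-h) ≤ 1 - h + h ^ 2 / 2 - h ^ 3 / 6 + h ^ 4 / 24 := by
  have hb := Real.exp_bound (x := -h) (by rw [abs_neg, abs_of_nonneg h0]; exact h1)
    (n := 6) (by norm_num)
  rw [abs_le] at hb
  simp only [Finset.sum_range_succ, Finset.sum_range_zero, Nat.factorial, Nat.cast_one, abs_neg,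
    abs_of_nonneg h0, Nat.succ_eq_add_one] at hb
  norm_num at hb
  obtain ⟨hb1, hb2⟩ := hb
  have h4 : 0 ≤ h ^ 4 := by positivity
  have h5 : 0 ≤ h ^ 5 := by positivity
  have e5 : h ^ 5 ≤ h ^ 4 := by nlinarith
  have e6 : h ^ 6 ≤ h ^ 5 := by nlinarith
  have e6' : 0 ≤ h ^ 6 := by positivity
  constructor
  · nlinarith
  · nlinarith

/-- the main estimate: `Au` is an upper bound of `E (h - 1/2) + 1/2`, divided by `h` -/
private theorem V4_main (h R E1 E Au : ℝ) (h0 : 0 ≤ h) (h1 : h ≤ 71 / 100)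
    (hR1 : 0.82888 < R) (hR2 : R < 0.82889) (hE1 : 0.367879 < E1) (hE2 : E1 < 0.367880)
    (hA : E * (h - 1 / 2) + 1 / 2 ≤ h * Au) (hAu : 0 ≤ Au)
    (hP : 0 ≤ (2 - 1.32889) * 1.82888 * (1.82888 - h / 2) -
      (Au + 0.32889) * (1 / 2 + (1.82889 * h - h ^ 2 / 2)) -
      (1.82889 * 0.32889 * (1 - 0.367879 - h) + (1.82889 * 0.32889 - 1.82888 * 0.32888)) -
      1.82889 * (73 / 400) * h * (1.32889 - (1.82888 * h - h ^ 2 / 2)) ^ 2) :
    0 ≤ (2 - (R + 1 / 2)) * (1 + R) * ((1 + R) * h - h ^ 2 / 2) -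
      (E * (h - 1 / 2) + 1 / 2 + (R - 1 / 2) * h) * (1 / 2 + ((1 + R) * h - h ^ 2 / 2)) -
      (1 + R) * (R - 1 / 2) * h * (1 - E1 - h) -
      (1 + R) * (73 / 400) * h ^ 2 * (R + 1 / 2 - ((1 + R) * h - h ^ 2 / 2)) ^ 2 := by
  have hh : 0 ≤ h * (1.82888 - h / 2) := by nlinarith
  have g1 : h * (1.82888 - h / 2) ≤ (1 + R) * h - h ^ 2 / 2 := by nlinarith
  have g2 : (1 + R) * h - h ^ 2 / 2 ≤ 1.82889 * h - h ^ 2 / 2 := by nlinarith
  have gw : 0 ≤ R + 1 / 2 - ((1 + R) * h - h ^ 2 / 2) := by nlinarith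
  have t1 : h * ((2 - 1.32889) * 1.82888 * (1.82888 - h / 2)) ≤
      (2 - (R + 1 / 2)) * (1 + R) * ((1 + R) * h - h ^ 2 / 2) := by
    have a1 : (2 - 1.32889) * 1.82888 ≤ (2 - (R + 1 / 2)) * (1 + R) :=
      mul_le_mul (by linarith) (by linarith) (by norm_num) (by linarith)
    calc h * ((2 - 1.32889) * 1.82888 * (1.82888 - h / 2)) =
        ((2 - 1.32889) * 1.82888) * (h * (1.82888 - h / 2)) := by ring
      _ ≤ _ := mul_le_mul a1 g1 hh (by nlinarith)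
  have t2 : (E * (h - 1 / 2) + 1 / 2 + (R - 1 / 2) * h) *
      (1 / 2 + ((1 + R) * h - h ^ 2 / 2)) ≤
      h * ((Au + 0.32889) * (1 / 2 + (1.82889 * h - h ^ 2 / 2))) := by
    have a1 : E * (h - 1 / 2) + 1 / 2 + (R - 1 / 2) * h ≤ h * (Au + 0.32889) := by nlinarith
    calc (E * (h - 1 / 2) + 1 / 2 + (R - 1 / 2) * h) * (1 / 2 + ((1 + R) * h - h ^ 2 / 2)) ≤
        (h * (Au + 0.32889)) * (1 / 2 + (1.82889 * h - h ^ 2 / 2)) :=
          mul_le_mul a1 (by linarith) (by linarith) (mul_nonneg h0 (by linarith))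
      _ = _ := by ring
  have t3 : (1 + R) * (R - 1 / 2) * h * (1 - E1 - h) ≤
      h * (1.82889 * 0.32889 * (1 - 0.367879 - h) +
        (1.82889 * 0.32889 - 1.82888 * 0.32888)) := by
    have c1 : 1.82888 * 0.32888 ≤ (1 + R) * (R - 1 / 2) :=
      mul_le_mul (by linarith) (by linarith) (by norm_num) (by linarith)
    have c2 : (1 + R) * (R - 1 / 2) ≤ 1.82889 * 0.32889 :=
      mul_le_mul (by linarith) (by linarith) (by linarith) (by norm_num)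
    have x1 : 1 - E1 - h ≤ 1 - 0.367879 - h := by linarith
    have x2 : -1 ≤ 1 - E1 - h := by linarith
    have x3 : 1 - E1 - h ≤ 1 := by linarith
    have a1 : (1 + R) * (R - 1 / 2) * (1 - E1 - h) ≤
        1.82889 * 0.32889 * (1 - 0.367879 - h) + (1.82889 * 0.32889 - 1.82888 * 0.32888) := by
      nlinarith [mul_nonneg (sub_nonneg.2 c2) (by linarith : (0:ℝ) ≤ 1 - E1 - h + 1)]
    calc (1 + R) * (R - 1 / 2) * h * (1 - E1 - h) =
        h * ((1 + R) * (R - 1 / 2) * (1 - E1 - h)) := by ring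
      _ ≤ _ := mul_le_mul_of_nonneg_left a1 h0
  have t4 : (1 + R) * (73 / 400) * h ^ 2 * (R + 1 / 2 - ((1 + R) * h - h ^ 2 / 2)) ^ 2 ≤
      h * (1.82889 * (73 / 400) * h * (1.32889 - (1.82888 * h - h ^ 2 / 2)) ^ 2) := by
    have a1 : (R + 1 / 2 - ((1 + R) * h - h ^ 2 / 2)) ^ 2 ≤
        (1.32889 - (1.82888 * h - h ^ 2 / 2)) ^ 2 :=
      pow_le_pow_left₀ gw (by nlinarith) 2
    have a2 : (1 + R) * (73 / 400) * h ^ 2 ≤ 1.82889 * (73 / 400) * h ^ 2 := by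
      have : 0 ≤ h ^ 2 := by positivity
      nlinarith
    calc (1 + R) * (73 / 400) * h ^ 2 * (R + 1 / 2 - ((1 + R) * h - h ^ 2 / 2)) ^ 2 ≤
        (1.82889 * (73 / 400) * h ^ 2) * (1.32889 - (1.82888 * h - h ^ 2 / 2)) ^ 2 :=
          mul_le_mul a2 a1 (by positivity) (by positivity)
      _ = _ := by ring
  have hfin := mul_nonneg h0 hP
  linarith

private theorem V4_poly1 (h : ℝ) (h0 : 0 ≤ h) (h1 : h ≤ 1 / 2) :
    0 ≤ (2 - 1.32889) * 1.82888 * (1.82888 - h / 2) -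
      ((1 - h + h ^ 2 / 2 - h ^ 3 / 6 + 1 / 2 - h / 4 + h ^ 2 / 12) + 0.32889) *
        (1 / 2 + (1.82889 * h - h ^ 2 / 2)) -
      (1.82889 * 0.32889 * (1 - 0.367879 - h) + (1.82889 * 0.32889 - 1.82888 * 0.32888)) -
      1.82889 * (73 / 400) * h * (1.32889 - (1.82888 * h - h ^ 2 / 2)) ^ 2 := by
  have k1 : 0 ≤ 1 / 2 - h := by linarith
  have k2 : 0 ≤ h * (1 / 2 - h) := mul_nonneg h0 k1
  have k3 : 0 ≤ h ^ 2 * (1 / 2 - h) := mul_nonneg (by positivity) k1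
  have k4 : 0 ≤ h ^ 3 * (1 / 2 - h) := mul_nonneg (by positivity) k1
  have k5 : 0 ≤ h ^ 4 * (1 / 2 - h) := mul_nonneg (by positivity) k1
  have k6 : 0 ≤ h ^ 5 := by positivity
  have k7 : 0 ≤ (1 / 2 - h) ^ 2 := by positivity
  have k8 : 0 ≤ (1 / 2 - h) ^ 3 := by positivity
  have k9 : 0 ≤ h ^ 2 * (1 / 2 - h) ^ 2 := by positivity
  have k10 : 0 ≤ h * (1 / 2 - h) ^ 2 := by positivity
  nlinarith

private theorem V4_poly2 (h : ℝ) (h0 : 1 / 2 ≤ h) (h1 : h ≤ 71 / 100) :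
    0 ≤ (2 - 1.32889) * 1.82888 * (1.82888 - h / 2) -
      ((1 - h + h ^ 2 / 2 - h ^ 3 / 6 + h ^ 4 / 24 + 1 / 2 - h / 4 + h ^ 2 / 12 - h ^ 3 / 48) +
        0.32889) * (1 / 2 + (1.82889 * h - h ^ 2 / 2)) -
      (1.82889 * 0.32889 * (1 - 0.367879 - h) + (1.82889 * 0.32889 - 1.82888 * 0.32888)) -
      1.82889 * (73 / 400) * h * (1.32889 - (1.82888 * h - h ^ 2 / 2)) ^ 2 := by
  obtain ⟨x, rfl⟩ : ∃ x, h = 71 / 100 - x := ⟨71 / 100 - h, by ring⟩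
  have x0 : 0 ≤ x := by linarith
  have x1 : x ≤ 21 / 100 := by linarith
  have k2 : 0 ≤ x * (21 / 100 - x) := mul_nonneg x0 (by linarith)
  have k3 : 0 ≤ x ^ 2 * (21 / 100 - x) := mul_nonneg (by positivity) (by linarith)
  have k4 : 0 ≤ x ^ 3 * (21 / 100 - x) := mul_nonneg (by positivity) (by linarith)
  have k5 : 0 ≤ x ^ 4 * (21 / 100 - x) := mul_nonneg (by positivity) (by linarith)
  have k6 : 0 ≤ x ^ 5 * (21 / 100 - x) := mul_nonneg (by positivity) (by linarith)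
  have p2 : 0 ≤ x ^ 2 := by positivity
  have p3 : 0 ≤ x ^ 3 := by positivity
  have p4 : 0 ≤ x ^ 4 := by positivity
  have p5 : 0 ≤ x ^ 5 := by positivity
  have p6 : 0 ≤ x ^ 6 := by positivity
  nlinarith

theorem V4_p (h : ℝ) (h0 : 0 ≤ h) (h1 : h ≤ 71 / 100) : 0 ≤ Ff (h - h ^ 2 / 2) h (Wc - (h - h ^ 2 / 2) - Rc * h) := by
  obtain ⟨n1, n2, n3, n4, -, n6⟩ := Num_p
  obtain ⟨e1, e2⟩ := V4_exp h h0 (by linarith)
  have hmain : 0 ≤ (2 - (Rc + 1 / 2)) * (1 + Rc) * ((1 + Rc) * h - h ^ 2 / 2) -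
      (Real.exp (-h) * (h - 1 / 2) + 1 / 2 + (Rc - 1 / 2) * h) *
        (1 / 2 + ((1 + Rc) * h - h ^ 2 / 2)) -
      (1 + Rc) * (Rc - 1 / 2) * h * (1 - E1 - h) -
      (1 + Rc) * (73 / 400) * h ^ 2 * (Rc + 1 / 2 - ((1 + Rc) * h - h ^ 2 / 2)) ^ 2 := by
    rcases le_total h (1 / 2) with hc | hc
    · refine V4_main h Rc E1 _ (1 - h + h ^ 2 / 2 - h ^ 3 / 6 + 1 / 2 - h / 4 + h ^ 2 / 12) h0 h1
        n3 n4 n1 n2 ?_ ?_ (V4_poly1 h h0 hc)
      · have := mul_nonneg (sub_nonneg.2 e1) (by linarith : 0 ≤ 1 / 2 - h)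
        nlinarith
      · have : 0 ≤ h ^ 2 := by positivity
        nlinarith
    · refine V4_main h Rc E1 _ (1 - h + h ^ 2 / 2 - h ^ 3 / 6 + h ^ 4 / 24 + 1 / 2 - h / 4 +
        h ^ 2 / 12 - h ^ 3 / 48) h0 h1 n3 n4 n1 n2 ?_ ?_ (V4_poly2 h hc h1)
      · have := mul_nonneg (sub_nonneg.2 e2) (by linarith : 0 ≤ h - 1 / 2)
        nlinarith
      · have a2 : 0 ≤ h ^ 2 := by positivity
        have a4 : 0 ≤ h ^ 4 := by positivity
        nlinarith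
  have hR : (0:ℝ) < 1 + Rc := by linarith
  have hW : (0:ℝ) < Rc + 1 / 2 := by linarith
  have hbc : bc = (Rc + 1 / 2) ^ 2 - Rc := by
    have : Wc = Rc + 1 / 2 := rfl
    rw [← this]; linarith
  have key : Ff (h - h ^ 2 / 2) h (Wc - (h - h ^ 2 / 2) - Rc * h) =
      ((2 - (Rc + 1 / 2)) * (1 + Rc) * ((1 + Rc) * h - h ^ 2 / 2) -
      (Real.exp (-h) * (h - 1 / 2) + 1 / 2 + (Rc - 1 / 2) * h) *
        (1 / 2 + ((1 + Rc) * h - h ^ 2 / 2)) -
      (1 + Rc) * (Rc - 1 / 2) * h * (1 - E1 - h) -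
      (1 + Rc) * (73 / 400) * h ^ 2 * (Rc + 1 / 2 - ((1 + Rc) * h - h ^ 2 / 2)) ^ 2) /
        (1 + Rc) := by
    unfold Ff
    rw [hbc]
    unfold rho Wc
    field_simp
    ring
  rw [key]
  positivity

end Pool.Agent.Lib.RdvF
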