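import Mathlib
import Pool.Agent.Lib.RdvF.FDef
import Pool.Agent.Lib.RdvF.Num
import Pool.Agent.Lib.RdvF.V1
import Pool.Agent.Lib.RdvF.V2
import Pool.Agent.Lib.RdvF.V3
import Pool.Agent.Lib.RdvF.V4

/-! # RdvF.FIPos: positivity of Ff from the four vertices (80 lines)

For fixed `h` and `m` the function `d ↦ Ff m h d` is a quadratic polynomial with leading
coefficient `-73/400 h^2 ≤ 0`, so it is at least the minimum of its values at `d = 0` and
`d = Wc - m - Rc h` (a concave function; explicitly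
`(v-u) f(x) = (v-x) f(u) + (x-u) f(v) - α (x-u)(v-x)(v-u)` for `f = α x^2 + ..`).
`m ↦ Ff m h 0` is quadratic with leading coefficient `-Rc/Wc^2 ≤ 0`;
`m ↦ Ff m h (Wc - m - Rc h)` is quadratic with leading coefficient
`-exp(-h)/(1+Rc) - 73/400 h^2 ≤ 0` (the terms `- r m^2` and `+ r m^2` cancel). So both are at least
the minimum of their values at `m = h^2/2` and `m = h - h^2/2`: `V1 V3`, `V2 V4`. -/

namespace Pool.Agent.Lib.RdvF

open MeasureTheory Finset Pool.Agent.Lib.MP92dd55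
open scoped ENNReal

private lemma quad_interp {f : ℝ → ℝ} {α β γ u v x : ℝ}
    (hf : ∀ t, f t = α * t ^ 2 + β * t + γ) (hα : α ≤ 0) (hux : u ≤ x) (hxv : x ≤ v)
    (hu : 0 ≤ f u) (hv : 0 ≤ f v) : 0 ≤ f x := by
  rcases eq_or_lt_of_le (hux.trans hxv) with h | h
  · have : x = u := le_antisymm (h ▸ hxv) hux
    rw [this]
    exact hu
  · have h1 : (v - u) * f x =
        (v - x) * f u + (x - u) * f v + (-α) * ((x - u) * (v - x) * (v - u)) := by
      rw [hf x, hf u, hf v]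
      ring
    have h2 : 0 ≤ (v - u) * f x := by
      rw [h1]
      have a1 : 0 ≤ (v - x) * f u := mul_nonneg (by linarith) hu
      have a2 : 0 ≤ (x - u) * f v := mul_nonneg (by linarith) hv
      have a3 : 0 ≤ (-α) * ((x - u) * (v - x) * (v - u)) :=
        mul_nonneg (by linarith)
          (mul_nonneg (mul_nonneg (by linarith) (by linarith)) (by linarith))
      linarith
    exact nonneg_of_mul_nonneg_right h2 (by linarith)

theorem FIPos_p (m h d : ℝ) (h0 : 0 ≤ h) (h1 : h ≤ 71 / 100) (m0 : h ^ 2 / 2 ≤ m)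
    (m1 : m ≤ h - h ^ 2 / 2) (d0 : 0 ≤ d) (d1 : d ≤ Wc - m - Rc * h) : 0 ≤ Ff m h d := by
  obtain ⟨-, -, hR0, -, -, -⟩ := Num_p
  have hR : 0 < Rc := by linarith
  have hW : 0 < Wc := by
    unfold Wc
    linarith
  have hRW : 0 ≤ Rc / Wc ^ 2 := by positivity
  have hz : 0 ≤ Ff m h 0 := by
    refine quad_interp (f := fun t => Ff t h 0) (α := -(Rc / Wc ^ 2))
      (β := (2 - bc / Wc) - Real.exp (-h) - 2 * (Rc / Wc ^ 2) * (Rc * h))
      (γ := Ff 0 h 0) ?_ (by linarith) m0 m1 (V1_p h h0 h1) (V3_p h h0 h1)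
    intro t
    simp only [Ff]
    ring
  have he : 0 ≤ Real.exp (-h) / (1 + Rc) := by positivity
  have hv : 0 ≤ Ff m h (Wc - m - Rc * h) := by
    have hh : 0 ≤ h ^ 2 := sq_nonneg h
    refine quad_interp (f := fun t => Ff t h (Wc - t - Rc * h))
      (α := -(Real.exp (-h) / (1 + Rc)) - 73 / 400 * h ^ 2)
      (β := (2 - bc / Wc) - Real.exp (-h) * (1 - (Wc - Rc * h) / (1 + Rc)) -
        (Real.exp (-h) * (h ^ 2 / 2) + (1 - Real.exp (-h)) / 2 + rho * h) / (1 + Rc) -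
        Rc / Wc ^ 2 * Wc + 73 / 200 * h ^ 2 * (Wc - Rc * h))
      (γ := Ff 0 h (Wc - Rc * h)) ?_ (by nlinarith) m0 m1 (V2_p h h0 h1) (V4_p h h0 h1)
    intro t
    simp only [Ff]
    ring
  refine quad_interp (f := fun t => Ff m h t) (α := -(73 / 400 * h ^ 2))
    (β := (Real.exp (-h) * (m + h ^ 2 / 2) + (1 - Real.exp (-h)) / 2 + rho * h) / (1 + Rc) -
      Rc / Wc ^ 2 * (m + Rc * h))
    (γ := Ff m h 0) ?_ (by nlinarith [sq_nonneg h]) d0 d1 hz hv
  intro t
  simp only [Ff]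
  ring

end Pool.Agent.Lib.RdvF
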