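import Mathlib
import Pool.Agent.Lib.RdvF.FDef
import Pool.Agent.Lib.RdvF.Num
import Pool.Agent.Lib.RdvF.CBd
import Pool.Agent.Lib.RdvF.Cheb

/-! # RdvF.FIRed: reduction of the kernel inequality to Ff

Write `h = C n`, `m = I0 n C`, `c = I1 n C = m + R h`, `a = I1 n A`, `b = I1 n B`, `d = a + b`,
`al s = 1 - exp (-C s)`, `J f = I0 n f + f n / 2`, so `I1 f = J f + rho f n`.
(1) `Sv = 1 - A - B - al + al (A + B) + exp (-C) A B` and `3/2 + rho = 1 + R` give
`J Sv + rho Qv - Pv = kap c - J al - 2 rho h + rho h^2 + rho h E1 + [J (al (A+B)) + rho h (A+B) n]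
+ [J (exp(-C) A B) + rho A n B n] - r (a + c) (b + c)`.
(2) Chebyshev's inequality for the two brackets, (3) `CBd_p` for `J al`,
(4) `r - exp(-h)/(1+R) ≤ 73/100 h^2`. -/

namespace Pool.Agent.Lib.RdvF

open MeasureTheory Finset Pool.Agent.Lib.MP92dd55
open scoped ENNReal

private lemma I0_add' (n : ℕ) (f g : ℕ → ℝ) :
    I0 n (fun s => f s + g s) = I0 n f + I0 n g := by
  unfold I0
  rw [← add_div, ← Finset.sum_add_distrib]
  congr 1
  refine Finset.sum_congr rfl fun s _ => ?_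
  ring

private lemma I0_sub' (n : ℕ) (f g : ℕ → ℝ) :
    I0 n (fun s => f s - g s) = I0 n f - I0 n g := by
  unfold I0
  rw [← sub_div, ← Finset.sum_sub_distrib]
  congr 1
  refine Finset.sum_congr rfl fun s _ => ?_
  ring

private lemma I0_smul' (n : ℕ) (c : ℝ) (f : ℕ → ℝ) :
    I0 n (fun s => c * f s) = c * I0 n f := by
  unfold I0
  rw [← mul_div_assoc, Finset.mul_sum]
  congr 1
  refine Finset.sum_congr rfl fun s _ => ?_
  ring

private lemma I0_const' {n : ℕ} (hn : 0 < n) (c : ℝ) : I0 n (fun _ => c) = c := by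
  unfold I0
  have hn' : (n : ℝ) ≠ 0 := by exact_mod_cast hn.ne'
  rw [Finset.sum_const, Finset.card_range, nsmul_eq_mul]
  field_simp
  ring

private lemma I0_mono' (n : ℕ) (f g : ℕ → ℝ) (h : ∀ s ≤ n, f s ≤ g s) :
    I0 n f ≤ I0 n g := by
  unfold I0
  apply div_le_div_of_nonneg_right _ (Nat.cast_nonneg n)
  apply Finset.sum_le_sum
  intro s hs
  have hs' := Finset.mem_range.1 hs
  have h1 := h s hs'.le
  have h2 := h (s + 1) hs'
  linarith

private lemma I0_id' {n : ℕ} (hn : 0 < n) : I0 n (fun s => (s : ℝ) / n) = 1 / 2 := by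
  have hn' : (n : ℝ) ≠ 0 := by exact_mod_cast hn.ne'
  have key : ∀ m : ℕ, ∑ s ∈ range m, ((s : ℝ) / n + ((s + 1 : ℕ) : ℝ) / n) / 2 =
      (m : ℝ) ^ 2 / (2 * n) := by
    intro m
    induction m with
    | zero => simp
    | succ m ih =>
      rw [Finset.sum_range_succ, ih]
      push_cast
      field_simp
      ring
  unfold I0
  rw [key n]
  field_simp

private lemma mono' {n : ℕ} {f : ℕ → ℝ} (h : ∀ s < n, f s ≤ f (s + 1)) :
    ∀ s t, s ≤ t → t ≤ n → f s ≤ f t := by
  intro s t hst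
  induction t, hst using Nat.le_induction with
  | base => intro _; exact le_rfl
  | succ t hst ih =>
    intro ht
    exact (ih (by omega)).trans (h t (by omega))

private lemma nonneg' {n : ℕ} {f : ℕ → ℝ} (h0 : f 0 = 0) (h : ∀ s < n, f s ≤ f (s + 1))
    (s : ℕ) (hs : s ≤ n) : 0 ≤ f s := by
  rw [← h0]
  exact mono' h 0 s (Nat.zero_le _) hs

private lemma I1_nonneg' {n : ℕ} {f : ℕ → ℝ} (hn : 0 < n) (hR : 0 ≤ Rc)
    (h : ∀ s ≤ n, 0 ≤ f s) : 0 ≤ I1 n f := by
  unfold I1
  have h1 := I0_mono' n (fun _ => (0 : ℝ)) f h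
  rw [I0_const' hn] at h1
  have h2 := mul_nonneg hR (h n le_rfl)
  linarith

theorem FISum_p {n : ℕ} {A B C D : ℕ → ℝ} (h : Path n A B C D) :
    0 ≤ I1 n A + I1 n B ∧ I1 n A + I1 n B ≤ Wc - I0 n C - Rc * C n := by
  obtain ⟨_, _, hR1, _, _, _⟩ := Num_p
  have hR : 0 ≤ Rc := by linarith
  have hn := h.npos
  have hA := I1_nonneg' hn hR (nonneg' h.A0 h.A1)
  have hB := I1_nonneg' hn hR (nonneg' h.B0 h.B1)
  have hD := I1_nonneg' hn hR (nonneg' h.D0 h.D1)
  refine ⟨by linarith, ?_⟩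
  have e1 : I0 n (fun s => ((A s + B s) + C s) + D s) = 1 / 2 := by
    rw [← I0_id' hn]
    unfold I0
    congr 1
    refine Finset.sum_congr rfl fun s hs => ?_
    have hs' := Finset.mem_range.1 hs
    have h1 := h.sum s hs'.le
    have h2 := h.sum (s + 1) hs'
    simp only [h1, h2]
  rw [I0_add' n (fun s => (A s + B s) + C s) D, I0_add' n (fun s => A s + B s) C,
    I0_add' n A B] at e1
  have e2 := h.sum n le_rfl
  have hn' : (n : ℝ) ≠ 0 := by exact_mod_cast hn.ne'
  rw [div_self hn'] at e2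
  unfold I1 at hA hB hD ⊢
  have hW : Wc = Rc + 1 / 2 := rfl
  have e3 : Rc * A n + Rc * B n + Rc * C n + Rc * D n = Rc := by
    rw [← mul_add, ← mul_add, ← mul_add, e2, mul_one]
  linarith

private lemma exp_lb (h : ℝ) (h0 : 0 ≤ h) : 1 - h + h ^ 2 / 2 - h ^ 3 / 6 ≤ Real.exp (-h) := by
  have key : ∀ x : ℝ, 0 ≤ x → 0 ≤ Real.exp (-x) - (1 - x + x ^ 2 / 2 - x ^ 3 / 6) := by
    have h1 : ∀ x : ℝ, 0 ≤ x → 0 ≤ (x - 1) + Real.exp (-x) := by
      intro x _
      have := Real.add_one_le_exp (-x)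
      linarith
    have h2 : ∀ x : ℝ, 0 ≤ x → 0 ≤ (1 - x + x ^ 2 / 2) - Real.exp (-x) := by
      have hm : MonotoneOn (fun x : ℝ => (1 - x + x ^ 2 / 2) - Real.exp (-x)) (Set.Ici 0) := by
        apply monotoneOn_of_deriv_nonneg (convex_Ici 0)
        · fun_prop
        · fun_prop
        · intro x hx
          rw [interior_Ici] at hx
          have hd : HasDerivAt (fun x : ℝ => (1 - x + x ^ 2 / 2) - Real.exp (-x))
              ((0 - 1 + (2 * x) / 2) - Real.exp (-x) * (-1)) x := by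
            have a1 : HasDerivAt (fun x : ℝ => x ^ 2) (2 * x) x := by
              simpa using hasDerivAt_pow 2 x
            have a2 : HasDerivAt (fun x : ℝ => Real.exp (-x)) (Real.exp (-x) * (-1)) x :=
              (hasDerivAt_neg x).exp
            exact (((hasDerivAt_const x (1 : ℝ)).sub (hasDerivAt_id x)).add
              (a1.div_const 2)).sub a2
          rw [hd.deriv]
          have := h1 x (le_of_lt hx)
          linarith
      intro x hx
      have := hm (Set.mem_Ici.2 le_rfl) (Set.mem_Ici.2 hx) hx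
      simpa using this
    have hm : MonotoneOn (fun x : ℝ => Real.exp (-x) - (1 - x + x ^ 2 / 2 - x ^ 3 / 6))
        (Set.Ici 0) := by
      apply monotoneOn_of_deriv_nonneg (convex_Ici 0)
      · fun_prop
      · fun_prop
      · intro x hx
        rw [interior_Ici] at hx
        have hd : HasDerivAt (fun x : ℝ => Real.exp (-x) - (1 - x + x ^ 2 / 2 - x ^ 3 / 6))
            (Real.exp (-x) * (-1) - ((0 - 1 + (2 * x) / 2) - (3 * x ^ 2) / 6)) x := by
          have a1 : HasDerivAt (fun x : ℝ => x ^ 2) (2 * x) x := by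
            simpa using hasDerivAt_pow 2 x
          have a3 : HasDerivAt (fun x : ℝ => x ^ 3) (3 * x ^ 2) x := by
            simpa using hasDerivAt_pow 3 x
          have a2 : HasDerivAt (fun x : ℝ => Real.exp (-x)) (Real.exp (-x) * (-1)) x :=
            (hasDerivAt_neg x).exp
          exact a2.sub ((((hasDerivAt_const x (1 : ℝ)).sub (hasDerivAt_id x)).add
            (a1.div_const 2)).sub (a3.div_const 6))
        rw [hd.deriv]
        have := h2 x (le_of_lt hx)
        linarith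
    intro x hx
    have := hm (Set.mem_Ici.2 le_rfl) (Set.mem_Ici.2 hx) hx
    simpa using this
  have := key h h0
  linarith

private lemma coef (h : ℝ) (h0 : 0 ≤ h) (h1 : h ≤ 71 / 100) :
    Rc / Wc ^ 2 - Real.exp (-h) / (1 + Rc) ≤ 73 / 100 * h ^ 2 := by
  obtain ⟨_, _, hR1, hR2, _, _⟩ := Num_p
  have hW : Wc = Rc + 1 / 2 := rfl
  have hWpos : (0 : ℝ) < Wc ^ 2 := by rw [hW]; positivity
  have hr : Rc / Wc ^ 2 ≤ 0.46938 := by
    rw [div_le_iff₀ hWpos, hW]
    nlinarith
  have hq : 0.54677 ≤ 1 / (1 + Rc) := by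
    rw [le_div_iff₀ (by linarith)]
    linarith
  have he := exp_lb h h0
  have hpos : 0 ≤ 1 - h + h ^ 2 / 2 - h ^ 3 / 6 := by
    nlinarith [mul_nonneg h0 h0, mul_nonneg (mul_nonneg h0 h0) (sub_nonneg.2 h1)]
  have h3 : 0.54677 * (1 - h + h ^ 2 / 2 - h ^ 3 / 6) ≤ Real.exp (-h) / (1 + Rc) := by
    calc 0.54677 * (1 - h + h ^ 2 / 2 - h ^ 3 / 6)
        ≤ 1 / (1 + Rc) * (1 - h + h ^ 2 / 2 - h ^ 3 / 6) :=
          mul_le_mul_of_nonneg_right hq hpos
      _ ≤ 1 / (1 + Rc) * Real.exp (-h) :=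
          mul_le_mul_of_nonneg_left he (by linarith)
      _ = Real.exp (-h) / (1 + Rc) := by ring
  have h4 : 0 ≤ 73 / 100 * h ^ 2 - 0.46938 + 0.54677 * (1 - h + h ^ 2 / 2 - h ^ 3 / 6) := by
    have h5 : 0 ≤ (h - 0.2826) ^ 2 * (1.003385 - 0.0911284 * (h + 2 * 0.2826)) := by
      apply mul_nonneg (sq_nonneg _)
      linarith
    nlinarith [h5]
  linarith

theorem FIRed_p {n : ℕ} {A B C D : ℕ → ℝ} (h : Path n A B C D) (hC : C n ≤ 71 / 100) :
    Ff (I0 n C) (C n) (I1 n A + I1 n B) ≤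
      I0 n (Sv A B C) + Sv A B C n / 2 + rho * Qv n A B C - Pv n A B C := by
  obtain ⟨_, _, hR1, hR2, _, _⟩ := Num_p
  have hn := h.npos
  have hR : 0 ≤ Rc := by linarith
  have hrho : rho = Rc - 1 / 2 := rfl
  have hrho0 : 0 ≤ rho := by rw [hrho]; linarith
  have hW : Wc = Rc + 1 / 2 := rfl
  have hA := nonneg' h.A0 h.A1
  have hB := nonneg' h.B0 h.B1
  have hCn := nonneg' h.C0 h.C1
  have mA := mono' h.A1
  have mB := mono' h.B1
  have mC := mono' h.C1
  obtain ⟨hd0, hd1⟩ := FISum_p h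
  obtain ⟨c1, c2, c3⟩ := CBd_p h
  have hm0 : 0 ≤ I0 n C := by
    have := I0_mono' n (fun _ => (0 : ℝ)) C hCn
    rwa [I0_const' hn] at this
  have hh0 : 0 ≤ C n := hCn n le_rfl
  have ha0 : 0 ≤ I1 n A := I1_nonneg' hn hR hA
  have hb0 : 0 ≤ I1 n B := I1_nonneg' hn hR hB
  -- Chebyshev, first bracket
  have cheb1 := Cheb2_p n hn hrho0 (fun s => 1 - Real.exp (-C s)) (fun s => A s + B s) (C n)
    (by
      intro s t hst ht
      have := mC s t hst ht
      have h2 : Real.exp (-C t) ≤ Real.exp (-C s) := Real.exp_le_exp.2 (by linarith)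
      show 1 - Real.exp (-C s) ≤ 1 - Real.exp (-C t)
      linarith)
    (by
      intro s t hst ht
      exact add_le_add (mA s t hst ht) (mB s t hst ht))
    (by
      have := Real.add_one_le_exp (-C n)
      show 1 - Real.exp (-C n) ≤ C n
      linarith)
  -- Chebyshev, second bracket
  have cheb2 := Cheb2_p n hn hrho0 A B (A n) mA mB le_rfl
  have hI1AB : I1 n (fun s => A s + B s) = I1 n A + I1 n B := by
    unfold I1
    rw [I0_add' n A B]
    ring
  rw [hI1AB] at cheb1
  -- lower bound of the second bracket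
  have h4 : Real.exp (-C n) * I0 n (fun s => A s * B s) ≤
      I0 n (fun s => Real.exp (-C s) * (A s * B s)) := by
    rw [← I0_smul' n (Real.exp (-C n)) (fun s => A s * B s)]
    apply I0_mono'
    intro s hs
    have e1 : Real.exp (-C n) ≤ Real.exp (-C s) := Real.exp_le_exp.2 (by
      have := mC s n hs le_rfl
      linarith)
    exact mul_le_mul_of_nonneg_right e1 (mul_nonneg (hA s hs) (hB s hs))
  -- expansion
  have eS : I0 n (Sv A B C) = 1 - I0 n A - I0 n B - I0 n (fun s => 1 - Real.exp (-C s)) +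
      I0 n (fun s => (1 - Real.exp (-C s)) * (A s + B s)) +
      I0 n (fun s => Real.exp (-C s) * (A s * B s)) := by
    have e0 : (Sv A B C) = fun s => ((((fun _ => (1 : ℝ)) s - A s) - B s) -
        (fun s => 1 - Real.exp (-C s)) s + (fun s => (1 - Real.exp (-C s)) * (A s + B s)) s) +
        (fun s => Real.exp (-C s) * (A s * B s)) s := by
      funext s
      unfold Sv
      ring
    rw [e0, I0_add', I0_add', I0_sub', I0_sub', I0_sub', I0_const' hn]
  have hE : 0 < Real.exp (-C n) := Real.exp_pos _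
  have hE1 : Real.exp (-C n) ≤ 1 := Real.exp_le_one_iff.2 (by linarith)
  have hcoef := coef (C n) hh0 hC
  have hRp : 0 < 1 + Rc := by linarith
  -- abbreviations
  set m := I0 n C with hm
  set hh := C n with hhh
  set E := Real.exp (-hh) with hEdef
  set al := I0 n (fun s => 1 - Real.exp (-C s)) with hal
  set K1 := I0 n (fun s => (1 - Real.exp (-C s)) * (A s + B s)) with hK1
  set K2 := I0 n (fun s => Real.exp (-C s) * (A s * B s)) with hK2
  set K3 := I0 n (fun s => A s * B s) with hK3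
  have hIA : I1 n A = I0 n A + Rc * A n := rfl
  have hIB : I1 n B = I0 n B + Rc * B n := rfl
  have hIC : I1 n C = m + Rc * hh := rfl
  set a := I1 n A with ha
  set b := I1 n B with hb
  set r := Rc / Wc ^ 2 with hr
  set kap := bc / Wc with hkap
  -- first bracket
  have t1 : (al + (1 - E) / 2 + rho * hh) * ((a + b) / (1 + Rc)) ≤
      K1 + (1 - E) * (A n + B n) / 2 + rho * (hh * (A n + B n)) := by
    rw [← mul_div_assoc, div_le_iff₀ hRp]
    calc (al + (1 - E) / 2 + rho * hh) * (a + b) ≤ _ := cheb1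
      _ = _ := by ring
  -- second bracket
  have t2 : E * (a * b / (1 + Rc)) ≤ K2 + E * (A n * B n) / 2 + rho * (A n * B n) := by
    have e1 : a * b / (1 + Rc) ≤ K3 + A n * B n / 2 + rho * (A n * B n) := by
      rw [div_le_iff₀ hRp]
      have e2 : I0 n A + A n / 2 + rho * A n = a := by
        rw [hIA, hrho]; ring
      rw [e2] at cheb2
      calc a * b ≤ _ := cheb2
        _ = _ := by ring
    have e3 : E * (a * b / (1 + Rc)) ≤ E * (K3 + A n * B n / 2 + rho * (A n * B n)) :=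
      mul_le_mul_of_nonneg_left e1 hE.le
    have e4 : 0 ≤ (1 - E) * (rho * (A n * B n)) :=
      mul_nonneg (by linarith) (mul_nonneg hrho0 (mul_nonneg (hA n le_rfl) (hB n le_rfl)))
    nlinarith
  -- the coefficient of a b
  have t3 : (r - E / (1 + Rc)) * (a * b) ≤ 73 / 100 * hh ^ 2 * (a + b) ^ 2 / 4 := by
    have e1 : (r - E / (1 + Rc)) * (a * b) ≤ 73 / 100 * hh ^ 2 * (a * b) :=
      mul_le_mul_of_nonneg_right hcoef (mul_nonneg ha0 hb0)
    have e2 : a * b ≤ (a + b) ^ 2 / 4 := by nlinarith [sq_nonneg (a - b)]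
    have e3 : 73 / 100 * hh ^ 2 * (a * b) ≤ 73 / 100 * hh ^ 2 * ((a + b) ^ 2 / 4) :=
      mul_le_mul_of_nonneg_left e2 (by positivity)
    linarith
  -- the bound of s1
  have t4 : (al + (1 - E) / 2 + rho * hh) * (1 - (a + b) / (1 + Rc)) ≤
      (E * (m + hh ^ 2 / 2) + (1 - E) / 2 + rho * hh) * (1 - (a + b) / (1 + Rc)) := by
    apply mul_le_mul_of_nonneg_right
    · linarith
    · rw [sub_nonneg, div_le_one hRp]
      have : 0 ≤ Rc * hh := mul_nonneg hR hh0
      linarith
  have hSn : Sv A B C n = E * (1 - A n) * (1 - B n) := rfl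
  have hQ : Qv n A B C = (1 - A n - hh) * (1 - B n - hh) + hh * E1 := rfl
  have hP : Pv n A B C = (1 + Rc) - a - b - 2 * (m + Rc * hh) +
      r * (a + (m + Rc * hh)) * (b + (m + Rc * hh)) + kap * (m + Rc * hh) := rfl
  rw [eS, hSn, hQ, hP]
  unfold Ff
  rw [← hr, ← hkap, ← hEdef]
  have t3' : r * (a * b) - E * (a * b / (1 + Rc)) ≤ 73 / 100 * hh ^ 2 * (a + b) ^ 2 / 4 := by
    calc _ = (r - E / (1 + Rc)) * (a * b) := by ring
      _ ≤ _ := t3
  have hA2 : I0 n A = a - Rc * A n := by linarith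
  have hB2 : I0 n B = b - Rc * B n := by linarith
  rw [hrho] at t1 t2 t4
  rw [hA2, hB2, hrho]
  linarith [t1, t2, t3', t4]

end Pool.Agent.Lib.RdvF
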