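import Mathlib
import Pool.Agent.Lib.RdvF.FIRed
import Pool.Agent.Lib.RdvF.FIPos
import Pool.Agent.Lib.RdvF.FIIRed
import Pool.Agent.Lib.RdvF.FIIPos

/-! # The kernel inequality for paths (assembly) -/

namespace Pool.Agent.Lib.RdvF

open MeasureTheory Finset Pool.Agent.Lib.MP92dd55
open scoped ENNReal

theorem KIneq_p {n : ℕ} {A B C D : ℕ → ℝ} (h : Path n A B C D) :
    Pv n A B C ≤ I0 n (Sv A B C) + Sv A B C n / 2 + rho * Qv n A B C := by
  have hb := FIIBd_p h
  rcases le_total (C n) (71 / 100) with hC | hC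
  · have h1 := FIRed_p h hC
    have h2 := FISum_p h
    have h3 := CBd_p h
    have hC0 : 0 ≤ C n := by
      have : ∀ s ≤ n, 0 ≤ C s := by
        intro s
        induction s with
        | zero => intro _; rw [h.C0]
        | succ s ih => intro hs; exact (ih (by omega)).trans (h.C1 s (by omega))
      exact this n le_rfl
    have h4 := FIPos_p (I0 n C) (C n) (I1 n A + I1 n B) hC0 hC h3.1 h3.2.1 h2.1 h2.2
    linarith
  · have h1 := FIIRed_p h
    have h2 := FIIPos_p (I0 n D) (I0 n (fun s => A s + B s)) (D n) (A n + B n) hb.1 hb.2.1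
      hb.2.2.1 hb.2.2.2.1 (by linarith [hb.2.2.2.2.2.2])
    linarith

end Pool.Agent.Lib.RdvF
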