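import Mathlib
import Pool.Agent.Lib.RdvF.KIneq

/-! # RdvF.KB: from paths to finite sets (150 lines)

Apply `KIneq_p` to `A = cnt (L \ L')`, `B = cnt (L' \ L)`, `C = cnt (L ∩ L')`,
`D = cnt (univ \ (L ∪ L'))`: `Path` holds (disjoint union of `univ`; the number of `k < s` in
`Fin n` is `s` for `s ≤ n`). `Sv = Sk`.
ABEL SUMMATION: `I1 n (cnt T) = Wc * lw T`: every `k ∈ T` contributes to `I0` the sum over
`s ∈ range n` of `([k < s] + [k < s+1])/2 /n /n = (n - k - 1/2)/n^2` and to `Rc * cnt T n` the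
amount `Rc/n`; together `(1 + Rc - (k+1/2)/n)/n = Wc * wgt n k`.
`cnt T n = #T/n`, `Qv = Qk`.
`lw L = lw (L \ L') + lw (L ∩ L')`. `Pv = Rc + Bk L L'` from `bc + Rc = Wc^2`:
`(1+R) - W (l + l') + R l l' + bc k = R + (1 - W l)(1 - W l') + bc (k - l l')`.
Finally `Sk` is nonincreasing in `s ≤ n`, so `I0 n (Sk L L') ≤ (Σ_{s<n} Sk L L' s)/n`. -/

namespace Pool.Agent.Lib.RdvF

open MeasureTheory Finset Pool.Agent.Lib.MP92dd55
open scoped ENNReal

private lemma KB_E1_lt : E1 < 1 := by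
  unfold E1
  have h := Real.exp_lt_exp.mpr (show (-1 : ℝ) < 0 by norm_num)
  rwa [Real.exp_zero] at h

private lemma KB_E1_pos : 0 < E1 := Real.exp_pos _

private lemma KB_sq : E1 ^ 2 + 3 - 4 * E1 = (2 * Rc - E1) ^ 2 := by
  have h : 0 ≤ E1 ^ 2 + 3 - 4 * E1 := by
    nlinarith [KB_E1_lt, KB_E1_pos]
  have h2 := Real.sq_sqrt h
  have h3 : 2 * Rc - E1 = Real.sqrt (E1 ^ 2 + 3 - 4 * E1) := by
    unfold Rc; ring
  rw [h3]; linarith

private lemma KB_Wsq : bc + Rc = Wc ^ 2 := by
  have h := KB_sq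
  unfold bc Wc
  nlinarith [h]

private lemma KB_Rpos : 0 ≤ Rc := by
  unfold Rc
  have := Real.sqrt_nonneg (E1 ^ 2 + 3 - 4 * E1)
  have := KB_E1_pos
  positivity

private lemma KB_Wpos : 0 < Wc := by
  unfold Wc; linarith [KB_Rpos]

private lemma KB_cnt_zero {n : ℕ} (T : Finset (Fin n)) : cnt T 0 = 0 := by
  simp [cnt]

private lemma KB_cnt_mono {n : ℕ} (T : Finset (Fin n)) {s t : ℕ} (h : s ≤ t) :
    cnt T s ≤ cnt T t := by
  unfold cnt
  apply div_le_div_of_nonneg_right _ (Nat.cast_nonneg n)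
  exact_mod_cast Finset.card_le_card (fun k hk => by
    simp only [Finset.mem_filter] at hk ⊢
    exact ⟨hk.1, hk.2.trans_le h⟩)

private lemma KB_cnt_full {n : ℕ} (T : Finset (Fin n)) : cnt T n = (T.card : ℝ) / n := by
  unfold cnt
  rw [Finset.filter_true_of_mem (fun k _ => k.isLt)]

private lemma KB_cnt_le_one {n : ℕ} (T : Finset (Fin n)) (s : ℕ) : cnt T s ≤ 1 := by
  unfold cnt
  apply div_le_one_of_le₀ _ (Nat.cast_nonneg n)
  exact_mod_cast (Finset.card_le_univ _).trans (by simp)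

private lemma KB_cnt_union {n : ℕ} {T U : Finset (Fin n)} (h : Disjoint T U) (s : ℕ) :
    cnt T s + cnt U s = cnt (T ∪ U) s := by
  unfold cnt
  rw [Finset.filter_union, Finset.card_union_of_disjoint]
  · push_cast; ring
  · exact Finset.disjoint_filter_filter h

private lemma KB_cnt_univ {n : ℕ} {s : ℕ} (h : s ≤ n) :
    cnt (univ : Finset (Fin n)) s = (s : ℝ) / n := by
  unfold cnt
  rw [Fin.card_filter_val_lt, min_eq_right h]

private lemma KB_inner {n k : ℕ} (hk : k < n) :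
    ∑ s ∈ range n, ((if k < s then (1 : ℝ) else 0) + (if k < s + 1 then (1 : ℝ) else 0)) / 2 =
      (n : ℝ) - k - 1 / 2 := by
  have h : ∀ m : ℕ, ∑ s ∈ range m,
      ((if k < s then (1 : ℝ) else 0) + (if k < s + 1 then (1 : ℝ) else 0)) / 2 =
      if k < m then (m : ℝ) - k - 1 / 2 else 0 := by
    intro m
    induction m with
    | zero => simp
    | succ m ih =>
      rw [Finset.sum_range_succ, ih]
      rcases lt_trichotomy k m with h1 | h1 | h1
      · have h2 : k < m + 1 := by omega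
        simp only [h1, h2, if_true]
        push_cast; ring
      · subst h1
        simp
        ring
      · have h2 : ¬ k < m := by omega
        have h3 : ¬ k < m + 1 := by omega
        simp [h2, h3]
  rw [h n, if_pos hk]

private lemma KB_abel {n : ℕ} (hn : 0 < n) (T : Finset (Fin n)) : I1 n (cnt T) = Wc * lw T := by
  have hn' : (n : ℝ) ≠ 0 := by exact_mod_cast hn.ne'
  have hW : Wc ≠ 0 := KB_Wpos.ne'
  have hcnt : ∀ s, cnt T s = (∑ k ∈ T, if k.val < s then (1 : ℝ) else 0) / n := by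
    intro s; unfold cnt; rw [Finset.card_filter]; push_cast; rfl
  have h1 : ∑ s ∈ range n, (cnt T s + cnt T (s + 1)) / 2 =
      (∑ k ∈ T, ((n : ℝ) - (k.val : ℝ) - 1 / 2)) / n := by
    have h2 : ∀ s ∈ range n, (cnt T s + cnt T (s + 1)) / 2 =
        (∑ k ∈ T, ((if k.val < s then (1 : ℝ) else 0) +
          (if k.val < s + 1 then (1 : ℝ) else 0)) / 2) / n := by
      intro s _
      rw [hcnt s, hcnt (s + 1), ← Finset.sum_div, Finset.sum_add_distrib]; ring
    rw [Finset.sum_congr rfl h2, ← Finset.sum_div, Finset.sum_comm]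
    congr 1
    apply Finset.sum_congr rfl
    intro k _
    exact KB_inner k.isLt
  unfold I1 I0
  rw [h1, KB_cnt_full]
  unfold lw wgt
  have h3 : (T.card : ℝ) = ∑ k ∈ T, (1 : ℝ) := by simp
  rw [h3, Finset.mul_sum, Finset.sum_div, Finset.sum_div, Finset.sum_div, Finset.mul_sum,
    ← Finset.sum_add_distrib]
  apply Finset.sum_congr rfl
  intro k _
  field_simp
  ring

private lemma KB_lw_union {n : ℕ} (L M : Finset (Fin n)) :
    lw L = lw (L \ M) + lw (L ∩ M) := by
  unfold lw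
  rw [← Finset.sum_union (Finset.disjoint_sdiff_inter L M), Finset.sdiff_union_inter]

private lemma KB_card {n : ℕ} (L M : Finset (Fin n)) :
    ((L \ M).card : ℝ) + ((L ∩ M).card : ℝ) = (L.card : ℝ) := by
  exact_mod_cast Finset.card_sdiff_add_card_inter L M

private lemma KB_path {n : ℕ} (hn : 0 < n) (L L' : Finset (Fin n)) :
    Path n (cnt (L \ L')) (cnt (L' \ L)) (cnt (L ∩ L')) (cnt (univ \ (L ∪ L'))) where
  npos := hn
  A0 := KB_cnt_zero _
  B0 := KB_cnt_zero _
  C0 := KB_cnt_zero _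
  D0 := KB_cnt_zero _
  A1 := fun s _ => KB_cnt_mono _ (Nat.le_succ s)
  B1 := fun s _ => KB_cnt_mono _ (Nat.le_succ s)
  C1 := fun s _ => KB_cnt_mono _ (Nat.le_succ s)
  D1 := fun s _ => KB_cnt_mono _ (Nat.le_succ s)
  sum := by
    intro s hs
    have d1 : Disjoint (L \ L') (L' \ L) := by
      rw [Finset.disjoint_left]; intro a ha hb
      simp only [Finset.mem_sdiff] at ha hb
      exact ha.2 hb.1
    have d2 : Disjoint ((L \ L') ∪ (L' \ L)) (L ∩ L') := by
      rw [Finset.disjoint_left]; intro a ha hb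
      simp only [Finset.mem_sdiff, Finset.mem_union, Finset.mem_inter] at ha hb
      tauto
    have d3 : Disjoint (((L \ L') ∪ (L' \ L)) ∪ (L ∩ L')) (univ \ (L ∪ L')) := by
      rw [Finset.disjoint_left]; intro a ha hb
      simp only [Finset.mem_sdiff, Finset.mem_union, Finset.mem_inter] at ha hb
      tauto
    rw [KB_cnt_union d1, KB_cnt_union d2, KB_cnt_union d3]
    have hu : (((L \ L') ∪ (L' \ L)) ∪ (L ∩ L')) ∪ (univ \ (L ∪ L')) = univ := by
      ext a
      simp only [Finset.mem_sdiff, Finset.mem_union, Finset.mem_inter, Finset.mem_univ,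
        true_and, iff_true]
      tauto
    rw [hu, KB_cnt_univ hs]

private lemma KB_Sk_anti {n : ℕ} (L L' : Finset (Fin n)) (s : ℕ) :
    Sk L L' (s + 1) ≤ Sk L L' s := by
  unfold Sk
  have hA := KB_cnt_mono (L \ L') (Nat.le_succ s)
  have hB := KB_cnt_mono (L' \ L) (Nat.le_succ s)
  have hC := KB_cnt_mono (L ∩ L') (Nat.le_succ s)
  have hA1 := KB_cnt_le_one (L \ L') (s + 1)
  have hB1 := KB_cnt_le_one (L' \ L) (s + 1)
  have hA2 := KB_cnt_le_one (L \ L') s
  simp only [Nat.succ_eq_add_one] at hA hB hC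
  have h1 : Real.exp (-cnt (L ∩ L') (s + 1)) ≤ Real.exp (-cnt (L ∩ L') s) :=
    Real.exp_le_exp.mpr (by linarith)
  apply mul_le_mul
  · apply mul_le_mul h1 (by linarith) (by linarith) (Real.exp_pos _).le
  · linarith
  · linarith
  · exact mul_nonneg (Real.exp_pos _).le (by linarith)

theorem KB_p {n : ℕ} (hn : 0 < n) (L L' : Finset (Fin n)) :
    Rc + Bk L L' ≤ (∑ s ∈ range n, Sk L L' s) / n + Sk L L' n / 2 + rho * Qk L L' := by
  have hn' : (0 : ℝ) < n := by exact_mod_cast hn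
  have hK := KIneq_p (KB_path hn L L')
  have hS : Sv (cnt (L \ L')) (cnt (L' \ L)) (cnt (L ∩ L')) = Sk L L' := by
    funext s; rfl
  rw [hS] at hK
  -- the value `Q`
  have hQ : Qv n (cnt (L \ L')) (cnt (L' \ L)) (cnt (L ∩ L')) = Qk L L' := by
    unfold Qv Qk
    rw [KB_cnt_full, KB_cnt_full, KB_cnt_full]
    have h1 := KB_card L L'
    have h2 := KB_card L' L
    rw [Finset.inter_comm L' L] at h2
    rw [← h1, ← h2]
    ring
  rw [hQ] at hK
  -- the value `P`
  have hP : Pv n (cnt (L \ L')) (cnt (L' \ L)) (cnt (L ∩ L')) = Rc + Bk L L' := by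
    unfold Pv Bk
    rw [KB_abel hn, KB_abel hn, KB_abel hn]
    have h1 := KB_lw_union L L'
    have h2 := KB_lw_union L' L
    rw [Finset.inter_comm L' L] at h2
    have hW := KB_Wpos.ne'
    have hb : bc = Wc ^ 2 - Rc := by linarith [KB_Wsq]
    rw [h1, h2, hb]
    field_simp
    ring
  rw [hP] at hK
  -- monotonicity
  have hI : I0 n (Sk L L') ≤ (∑ s ∈ range n, Sk L L' s) / n := by
    unfold I0
    apply div_le_div_of_nonneg_right _ hn'.le
    apply Finset.sum_le_sum
    intro s _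
    have := KB_Sk_anti L L' s
    linarith
  linarith

end Pool.Agent.Lib.RdvF
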