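import Mathlib
import Pool.Agent.Lib.RdvF.Defs

/-! # RdvF.Pot: the potential argument (100 lines, real sequences)

Put `s r = ∏_{i<r} p i`, `q r = ∏_{i<r} Q i`, `x i = ka i`.
(1) `s r ≥ q r - r ε` (induction: `s p ≥ s (Q - ε) ≥ s Q - ε ≥ (q - r ε) Q - ε`, `0 ≤ s, Q ≤ 1`).
(2) potential `U r = rho q r + s r/2`: with `y r = ka r + p r/2 - 1/2 ∈ [0,1]`:
`s r ka r + U (r+1) - U r = s r y r + rho q r (Q r - 1)
 ≥ (q r - r ε) y r + rho q r (Q r - 1) ≥ q r (Rc + B r - ε - 1/2 - rho) - r ε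
 ≥ q r B r - (r+1) ε` because `Rc = 1/2 + rho`, `y r + rho Q r ≥ Rc + B r - ε - 1/2`.
(3) sum over `r < M`: `X ≥ U 0 - U M + Σ q r B r - ε M (M+1)/2`, `U 0 = Rc`,
`X = Σ_{r<M} s r ka r`, and `U M ≤ rho (s M + M ε) + s M/2 ≤ Rc s M + M ε`.
(4) `M s M ≤ X` because `s M ≤ s (r+1) = s r p r ≤ s r ka r` for `r < M`.
So `Rc + Σ q r B r ≤ X + Rc X/M + ε (M (M+1)/2 + M)`. -/

namespace Pool.Agent.Lib.RdvF

open MeasureTheory Finset Pool.Agent.Lib.MP92dd55
open scoped ENNReal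

theorem Pot_p (M : ℕ) (hM : 0 < M) (ε : ℝ) (hε : 0 ≤ ε) (hr0 : 0 ≤ rho) (hr1 : rho ≤ 1)
    (p ka Q B : ℕ → ℝ)
    (hp0 : ∀ i, 0 ≤ p i) (hp1 : ∀ i, p i ≤ 1) (hQ0 : ∀ i, 0 ≤ Q i) (hQ1 : ∀ i, Q i ≤ 1)
    (hk1 : ∀ i, ka i ≤ 1) (hpk : ∀ i, p i ≤ ka i) (h2 : ∀ i, 1 / 2 ≤ ka i + p i / 2)
    (hQp : ∀ i, Q i - ε ≤ p i) (hB : ∀ i, Rc + B i - ε ≤ ka i + p i / 2 + rho * Q i) :
    Rc + ∑ r ∈ range M, (∏ i ∈ range r, Q i) * B r ≤
      (1 + Rc / M) * (∑ r ∈ range M, (∏ i ∈ range r, p i) * ka r) + ε * (M + 1) ^ 2 := by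
  have hRc : Rc = rho + 1 / 2 := by unfold rho; ring
  have hMr : (0 : ℝ) < M := by exact_mod_cast hM
  have hs0 : ∀ r, 0 ≤ ∏ i ∈ range r, p i := fun r => Finset.prod_nonneg fun i _ => hp0 i
  have hs1 : ∀ r, ∏ i ∈ range r, p i ≤ 1 := fun r =>
    Finset.prod_le_one (fun i _ => hp0 i) fun i _ => hp1 i
  have hq0 : ∀ r, 0 ≤ ∏ i ∈ range r, Q i := fun r => Finset.prod_nonneg fun i _ => hQ0 i
  have hq1 : ∀ r, ∏ i ∈ range r, Q i ≤ 1 := fun r =>
    Finset.prod_le_one (fun i _ => hQ0 i) fun i _ => hQ1 i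
  have hsq : ∀ r : ℕ, (∏ i ∈ range r, Q i) - r * ε ≤ ∏ i ∈ range r, p i := by
    intro r
    induction r with
    | zero => simp
    | succ r ih =>
      rw [Finset.prod_range_succ, Finset.prod_range_succ]
      push_cast
      have h1 : (∏ i ∈ range r, p i) * (Q r - ε) ≤ (∏ i ∈ range r, p i) * p r :=
        mul_le_mul_of_nonneg_left (hQp r) (hs0 r)
      have h2 : ((∏ i ∈ range r, Q i) - r * ε) * Q r ≤ (∏ i ∈ range r, p i) * Q r :=
        mul_le_mul_of_nonneg_right ih (hQ0 r)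
      have h3 : (∏ i ∈ range r, p i) * ε ≤ 1 * ε := mul_le_mul_of_nonneg_right (hs1 r) hε
      have h4 : (r * ε) * Q r ≤ (r * ε) * 1 :=
        mul_le_mul_of_nonneg_left (hQ1 r) (by positivity)
      nlinarith
  have hstep : ∀ r : ℕ, (rho * ∏ i ∈ range r, Q i) + (∏ i ∈ range r, p i) / 2 -
      ((rho * ∏ i ∈ range (r + 1), Q i) + (∏ i ∈ range (r + 1), p i) / 2) +
      (∏ i ∈ range r, Q i) * B r - (r + 1) * ε ≤ (∏ i ∈ range r, p i) * ka r := by
    intro r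
    rw [Finset.prod_range_succ, Finset.prod_range_succ]
    set sr := ∏ i ∈ range r, p i with hsr
    set qr := ∏ i ∈ range r, Q i with hqr
    have hy0 : 0 ≤ ka r + p r / 2 - 1 / 2 := by linarith [h2 r]
    have hy1 : ka r + p r / 2 - 1 / 2 ≤ 1 := by linarith [hk1 r, hp1 r]
    have h3 : (qr - r * ε) * (ka r + p r / 2 - 1 / 2) ≤ sr * (ka r + p r / 2 - 1 / 2) :=
      mul_le_mul_of_nonneg_right (hsq r) hy0
    have h4 : (r * ε) * (ka r + p r / 2 - 1 / 2) ≤ (r * ε) * 1 :=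
      mul_le_mul_of_nonneg_left hy1 (by positivity)
    have h5 : qr * (Rc + B r - ε) ≤ qr * (ka r + p r / 2 + rho * Q r) :=
      mul_le_mul_of_nonneg_left (hB r) (hq0 r)
    have h6 : qr * ε ≤ 1 * ε := mul_le_mul_of_nonneg_right (hq1 r) hε
    rw [hRc] at h5
    nlinarith
  have hsum : ∀ m : ℕ, rho + 1 / 2 -
      ((rho * ∏ i ∈ range m, Q i) + (∏ i ∈ range m, p i) / 2) +
      (∑ r ∈ range m, (∏ i ∈ range r, Q i) * B r) - ε * (m * (m + 1) / 2) ≤
      ∑ r ∈ range m, (∏ i ∈ range r, p i) * ka r := by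
    intro m
    induction m with
    | zero => simp
    | succ m ih =>
      rw [Finset.sum_range_succ (fun r => (∏ i ∈ range r, Q i) * B r),
        Finset.sum_range_succ (fun r => (∏ i ∈ range r, p i) * ka r)]
      have h3 := hstep m
      push_cast
      linarith
  have hX : (M : ℝ) * (∏ i ∈ range M, p i) ≤ ∑ r ∈ range M, (∏ i ∈ range r, p i) * ka r := by
    have h3 : ∑ _r ∈ range M, (∏ i ∈ range M, p i) ≤
        ∑ r ∈ range M, (∏ i ∈ range r, p i) * ka r := by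
      refine Finset.sum_le_sum fun r hr => ?_
      have hrM : r < M := Finset.mem_range.1 hr
      have h4 : ∏ i ∈ range M, p i ≤ ∏ i ∈ range (r + 1), p i := by
        have h5 : ∀ d : ℕ, ∏ i ∈ range (r + 1 + d), p i ≤ ∏ i ∈ range (r + 1), p i := by
          intro d
          induction d with
          | zero => simp
          | succ d ih =>
            rw [← add_assoc, Finset.prod_range_succ]
            refine le_trans ?_ ih
            exact mul_le_of_le_one_right (hs0 _) (hp1 _)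
        have h6 := h5 (M - (r + 1))
        rwa [show r + 1 + (M - (r + 1)) = M by omega] at h6
      rw [Finset.prod_range_succ] at h4
      exact h4.trans (mul_le_mul_of_nonneg_left (hpk r) (hs0 r))
    rwa [Finset.sum_const, Finset.card_range, nsmul_eq_mul] at h3
  have hfin := hsum M
  have hsqM := hsq M
  set X := ∑ r ∈ range M, (∏ i ∈ range r, p i) * ka r with hXdef
  set sM := ∏ i ∈ range M, p i with hsM
  set qM := ∏ i ∈ range M, Q i with hqM
  have h3 : rho * qM ≤ rho * sM + M * ε := by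
    have h4 : rho * (qM - M * ε) ≤ rho * sM := mul_le_mul_of_nonneg_left hsqM hr0
    have h5 : rho * (M * ε) ≤ 1 * (M * ε) := mul_le_mul_of_nonneg_right hr1 (by positivity)
    linarith
  have h4 : Rc * sM ≤ Rc / M * X := by
    have h5 : sM ≤ X / M := by
      rw [le_div_iff₀ hMr]
      linarith
    have h6 : (0 : ℝ) ≤ Rc := by rw [hRc]; linarith
    calc Rc * sM ≤ Rc * (X / M) := mul_le_mul_of_nonneg_left h5 h6
      _ = Rc / M * X := by ring
  have h5 : ε * ((M : ℝ) * (M + 1) / 2) + M * ε ≤ ε * (M + 1) ^ 2 := by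
    have h6 : ((M : ℝ) * (M + 1) / 2) + M ≤ (M + 1) ^ 2 := by nlinarith
    nlinarith [mul_le_mul_of_nonneg_left h6 hε]
  have h6 : Rc * sM = rho * sM + sM / 2 := by rw [hRc]; ring
  have h7 : (1 + Rc / M) * X = X + Rc / M * X := by ring
  rw [h7]
  have h8 : Rc = rho + 1 / 2 := hRc
  linarith

end Pool.Agent.Lib.RdvF
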