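import Mathlib
import Pool.Agent.Lib.RdvF.Defs

/-! # RdvF.Prefix: survival probabilities during a block

Copy of `kernel_lower` (`MP92dd55/Kernel.lean`) and `kernel_asymp` (`MP92dd55/Game.lean`) in which
the light times and the heavy phones are those of the whole block, but only the pairs
`pairsOn a b T` of the times in `T` are avoided. -/

namespace Pool.Agent.Lib.RdvF

open MeasureTheory Finset Pool.Agent.Lib.MP92dd55
open scoped ENNReal

section Copy

open Real

private lemma one_sub_pow_ge_P (m : ℝ) (hm : 1 < m) (k : ℕ) :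
    exp (-((k : ℝ) / (m - 1))) ≤ (1 - 1 / m) ^ k := by
  have h1 : exp (-(1 / (m - 1))) ≤ 1 - 1 / m := by
    rw [exp_neg]
    have h2 : 1 / (m - 1) + 1 ≤ exp (1 / (m - 1)) := add_one_le_exp _
    have h3 : 1 / (m - 1) + 1 = m / (m - 1) := by
      have : m - 1 ≠ 0 := by linarith
      field_simp
      ring
    rw [h3] at h2
    have h4 : (0 : ℝ) < m / (m - 1) := by
      apply div_pos <;> linarith
    calc (exp (1 / (m - 1)))⁻¹ ≤ (m / (m - 1))⁻¹ := inv_anti₀ h4 h2
      _ = 1 - 1 / m := by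
        have : m ≠ 0 := by linarith
        rw [inv_div]; field_simp
  calc exp (-((k : ℝ) / (m - 1))) = (exp (-(1 / (m - 1)))) ^ k := by
        rw [← exp_nat_mul]; congr 1; ring
    _ ≤ _ := pow_le_pow_left₀ (exp_pos _).le h1 k

private lemma kernel_lower_T {n t : ℕ} (a b : Fin t → Fin n) (T : Finset (Fin t)) (h A : ℕ) (hA : t ≤ A * (h + 1)) (hAn : A < n)
    (hh : 2 * h < n) :
    max 0 (1 - ((((lightTimes h b \ lightTimes h a) ∩ T).card : ℝ) + A * A) / n) *
      max 0 (1 - (((lightTimes h a \ lightTimes h b) ∩ T).card : ℝ) / ((n : ℝ) - A)) *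
      (1 - 1 / ((n : ℝ) - 2 * h)) ^ ((lightTimes h a ∩ lightTimes h b) ∩ T).card ≤
    pAvoid (pairsOn a b T) := by
  classical
  have hn : 0 < n := by omega
  have hheavyA : (heavy h a).card ≤ A := by
    have := heavy_card h a
    by_contra hcon
    push Not at hcon
    have : (A + 1) * (h + 1) ≤ (heavy h a).card * (h + 1) := Nat.mul_le_mul_right _ hcon
    nlinarith
  have hheavyB : (heavy h b).card ≤ A := by
    have := heavy_card h b
    by_contra hcon
    push Not at hcon
    have : (A + 1) * (h + 1) ≤ (heavy h b).card * (h + 1) := Nat.mul_le_mul_right _ hcon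
    nlinarith
  have hmemL : ∀ (c : Fin t → Fin n) (s : Fin t), s ∈ lightTimes h c ↔ useCount c (c s) ≤ h := by
    intro c s; simp [lightTimes]
  have hmemH : ∀ (c : Fin t → Fin n) (i : Fin n), i ∈ heavy h c ↔ h < useCount c i := by
    intro c s; simp [heavy]
  -- the three classes of times
  set La := lightTimes h a with hLa
  set Lb := lightTimes h b with hLb
  set E1 : Finset (Fin n × Fin n) := (pairsOn a b T).filter (fun e => e.1 ∈ heavy h a) with hE1
  set E2 : Finset (Fin n × Fin n) :=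
    (pairsOn a b T).filter (fun e => e.1 ∉ heavy h a ∧ e.2 ∈ heavy h b) with hE2
  set E3 : Finset (Fin n × Fin n) :=
    (pairsOn a b T).filter (fun e => e.1 ∉ heavy h a ∧ e.2 ∉ heavy h b) with hE3
  have hunion : (E1 ∪ E2) ∪ E3 = pairsOn a b T := by
    ext e
    simp only [hE1, hE2, hE3, mem_union, mem_filter]
    tauto
  have hd12 : Disjoint E1 E2 := by
    rw [Finset.disjoint_left]; intro e he1 he2
    simp only [hE1, hE2, mem_filter] at he1 he2
    exact he2.2.1 he1.2
  have hd123 : Disjoint (E1 ∪ E2) E3 := by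
    rw [Finset.disjoint_left]; intro e he1 he2
    simp only [hE1, hE2, hE3, mem_filter, mem_union] at he1 he2
    tauto
  -- cardinalities
  have hc1 : E1.card ≤ ((Lb \ La) ∩ T).card + A * A := by
    have hsub : E1 ⊆ (pairsOn a b ((Lb \ La) ∩ T)) ∪ (heavy h a ×ˢ heavy h b) := by
      intro e he
      simp only [hE1, mem_filter, pairsOn, mem_image] at he
      obtain ⟨⟨s, hsT, rfl⟩, hs⟩ := he
      simp only [mem_union, mem_product, pairsOn, mem_image, mem_sdiff, mem_inter]
      by_cases hb : b s ∈ heavy h b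
      · exact Or.inr ⟨hs, hb⟩
      · left
        refine ⟨s, ⟨⟨?_, ?_⟩, hsT⟩, rfl⟩
        · rw [hmemH] at hb; rw [hLb, hmemL]; omega
        · simp only at hs
          rw [hmemH] at hs; rw [hLa, hmemL]; omega
    calc E1.card ≤ _ := card_le_card hsub
      _ ≤ _ := card_union_le _ _
      _ ≤ _ := by
        rw [card_product]
        exact Nat.add_le_add card_image_le (Nat.mul_le_mul hheavyA hheavyB)
  have hc2 : E2.card ≤ ((La \ Lb) ∩ T).card := by
    have hsub : E2 ⊆ pairsOn a b ((La \ Lb) ∩ T) := by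
      intro e he
      simp only [hE2, mem_filter, pairsOn, mem_image] at he
      obtain ⟨⟨s, hsT, rfl⟩, hs1, hs2⟩ := he
      simp only [pairsOn, mem_image, mem_sdiff, mem_inter]
      refine ⟨s, ⟨⟨?_, ?_⟩, hsT⟩, rfl⟩
      · simp only at hs1
        rw [hmemH] at hs1; rw [hLa, hmemL]; omega
      · simp only at hs2
        rw [hmemH] at hs2; rw [hLb, hmemL]; omega
    exact (card_le_card hsub).trans card_image_le
  have hc3 : E3.card ≤ ((La ∩ Lb) ∩ T).card := by
    have hsub : E3 ⊆ pairsOn a b ((La ∩ Lb) ∩ T) := by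
      intro e he
      simp only [hE3, mem_filter, pairsOn, mem_image] at he
      obtain ⟨⟨s, hsT, rfl⟩, hs1, hs2⟩ := he
      simp only [pairsOn, mem_image, mem_inter]
      refine ⟨s, ⟨⟨?_, ?_⟩, hsT⟩, rfl⟩
      · simp only at hs1
        rw [hmemH] at hs1; rw [hLa, hmemL]; omega
      · simp only at hs2
        rw [hmemH] at hs2; rw [hLb, hmemL]; omega
    exact (card_le_card hsub).trans card_image_le
  have hnR : (0 : ℝ) < n := by exact_mod_cast hn
  -- step 1
  have s1 : max 0 (1 - ((((Lb \ La) ∩ T).card : ℝ) + A * A) / n) ≤ pAvoid E1 := by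
    apply max_le (pAvoid_nonneg _)
    have h1 := pAvoid_union (∅ : Finset (Fin n × Fin n)) E1 0 hn (by simp) (by
      intro e _; simp [rowDeg, colDeg])
    rw [pAvoid_empty, one_mul, empty_union] at h1
    refine le_trans ?_ h1
    have : (E1.card : ℝ) ≤ (((Lb \ La) ∩ T).card : ℝ) + A * A := by exact_mod_cast hc1
    simp only [Nat.cast_zero, sub_zero]
    gcongr
  -- step 2
  have s2 : pAvoid E1 * max 0 (1 - (((La \ Lb) ∩ T).card : ℝ) / ((n : ℝ) - A)) ≤ pAvoid (E1 ∪ E2) := by
    have hnA : (0 : ℝ) < (n : ℝ) - A := by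
      have : (A : ℝ) < n := by exact_mod_cast hAn
      linarith
    rcases le_total (1 - (((La \ Lb) ∩ T).card : ℝ) / ((n : ℝ) - A)) 0 with h0 | h0
    · rw [max_eq_left h0, mul_zero]; exact pAvoid_nonneg _
    · rw [max_eq_right h0]
      have h1 := pAvoid_union E1 E2 A hAn hd12 (by
        intro e he
        have hr : rowDeg E1 e.1 = 0 := by
          unfold rowDeg
          rw [card_eq_zero, filter_eq_empty_iff]
          intro f hf hfe
          simp only [hE1, hE2, mem_filter] at he hf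
          exact he.2.1 (hfe ▸ hf.2)
        have hc : colDeg E1 e.2 ≤ A := by
          refine le_trans ?_ hheavyA
          unfold colDeg
          refine Finset.card_le_card_of_injOn (fun f => f.1) ?_ ?_
          · intro f hf
            have hf' : f ∈ E1 ∧ f.2 = e.2 := by simpa using hf
            have := hf'.1
            rw [hE1, mem_filter] at this
            exact this.2
          · intro f hf g hg hfg
            have hf' : f ∈ E1 ∧ f.2 = e.2 := by simpa using hf
            have hg' : g ∈ E1 ∧ g.2 = e.2 := by simpa using hg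
            exact Prod.ext hfg (hf'.2.trans hg'.2.symm)
        omega)
      refine le_trans ?_ h1
      have : (E2.card : ℝ) ≤ (((La \ Lb) ∩ T).card : ℝ) := by exact_mod_cast hc2
      have hp := pAvoid_nonneg E1
      gcongr
  -- step 3
  have hn2 : (1 : ℝ) ≤ (n : ℝ) - 2 * h := by
    have : (2 : ℝ) * h + 1 ≤ n := by exact_mod_cast hh
    linarith
  have hq0 : 0 ≤ 1 - 1 / ((n : ℝ) - 2 * h) := by
    rw [sub_nonneg, div_le_one (by linarith)]; exact hn2
  have hq1 : 1 - 1 / ((n : ℝ) - 2 * h) ≤ 1 := by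
    have : 0 ≤ 1 / ((n : ℝ) - 2 * h) := by positivity
    linarith
  have s3 : pAvoid (E1 ∪ E2) * (1 - 1 / ((n : ℝ) - 2 * h)) ^ ((La ∩ Lb) ∩ T).card ≤
      pAvoid (pairsOn a b T) := by
    have h1 := pAvoid_seq (E1 ∪ E2) (2 * h) (by omega) E3 hd123 (by
      intro e he
      rw [hunion]
      have he' := he
      rw [hE3, mem_filter, hmemH, hmemH] at he'
      have hr : rowDeg (pairsOn a b T) e.1 ≤ useCount a e.1 := by
        unfold rowDeg
        have : (pairsOn a b T).filter (fun f => f.1 = e.1) ⊆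
            (univ.filter fun s => a s = e.1).image (fun s => (a s, b s)) := by
          intro f hf
          simp only [pairsOn, mem_filter, mem_image, mem_univ, true_and] at hf ⊢
          obtain ⟨⟨s, _, rfl⟩, hs⟩ := hf
          exact ⟨s, hs, rfl⟩
        exact (card_le_card this).trans card_image_le
      have hc : colDeg (pairsOn a b T) e.2 ≤ useCount b e.2 := by
        unfold colDeg
        have : (pairsOn a b T).filter (fun f => f.2 = e.2) ⊆
            (univ.filter fun s => b s = e.2).image (fun s => (a s, b s)) := by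
          intro f hf
          simp only [pairsOn, mem_filter, mem_image, mem_univ, true_and] at hf ⊢
          obtain ⟨⟨s, _, rfl⟩, hs⟩ := hf
          exact ⟨s, hs, rfl⟩
        exact (card_le_card this).trans card_image_le
      omega)
    rw [hunion] at h1
    refine le_trans ?_ h1
    have hp := pAvoid_nonneg (E1 ∪ E2)
    push_cast
    gcongr pAvoid (E1 ∪ E2) * ?_
    exact pow_le_pow_of_le_one hq0 hq1 hc3
  have hm0 : 0 ≤ max 0 (1 - (((La \ Lb) ∩ T).card : ℝ) / ((n : ℝ) - A)) := le_max_left _ _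
  calc _ ≤ pAvoid E1 * max 0 (1 - (((La \ Lb) ∩ T).card : ℝ) / ((n : ℝ) - A)) *
        (1 - 1 / ((n : ℝ) - 2 * h)) ^ ((La ∩ Lb) ∩ T).card := by gcongr
    _ ≤ pAvoid (E1 ∪ E2) * (1 - 1 / ((n : ℝ) - 2 * h)) ^ ((La ∩ Lb) ∩ T).card := by gcongr
    _ ≤ _ := s3

private lemma kernel_asymp_T (ε : ℝ) (hε : 0 < ε) (hε1 : ε ≤ 1) :
    ∃ N : ℕ, ∀ n ≥ N, ∃ h : ℕ, ∀ t : ℕ, t ≤ 3 * n → ∀ a b : Fin t → Fin n,
      ∀ T : Finset (Fin t),
      exp (-((((lightTimes h a ∩ lightTimes h b) ∩ T).card : ℝ) / n)) *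
        max 0 (1 - (((lightTimes h a \ lightTimes h b) ∩ T).card : ℝ) / n) *
        max 0 (1 - (((lightTimes h b \ lightTimes h a) ∩ T).card : ℝ) / n) - ε ≤
      pAvoid (pairsOn a b T) := by
  set η : ℝ := ε / 54 with hη
  have hη0 : 0 < η := by positivity
  have hη1 : η ≤ 1 / 54 := by rw [hη]; linarith
  set A : ℕ := ⌈3 / η⌉₊ with hA
  have hA1 : 3 / η ≤ A := Nat.le_ceil _
  refine ⟨⌈3 * (A : ℝ) ^ 2 / ε + 9 * A / ε + A + 4 / η + 10⌉₊, ?_⟩
  intro n hn
  have hn' : 3 * (A : ℝ) ^ 2 / ε + 9 * A / ε + A + 4 / η + 10 ≤ n := Nat.ceil_le.1 hn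
  have hp1 : 0 ≤ 3 * (A : ℝ) ^ 2 / ε := by positivity
  have hp2 : 0 ≤ 9 * (A : ℝ) / ε := by positivity
  have hp3 : 0 ≤ (A : ℝ) := by positivity
  have hp4 : 0 ≤ 4 / η := by positivity
  have hn0 : (0 : ℝ) < n := by linarith
  set h : ℕ := ⌊η * n⌋₊ with hh
  have hh1 : (h : ℝ) ≤ η * n := Nat.floor_le (by positivity)
  have hh2 : η * n < h + 1 := Nat.lt_floor_add_one _
  have hηn : 4 ≤ η * n := by
    have : 4 / η ≤ n := by linarith
    rwa [div_le_iff₀ hη0, mul_comm] at this
  refine ⟨h, ?_⟩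
  intro t ht a b T
  have htR : (t : ℝ) ≤ 3 * n := by exact_mod_cast ht
  have hAn : A < n := by
    have : (A : ℝ) < n := by linarith
    exact_mod_cast this
  have hhn : 2 * h < n := by
    have : (2 : ℝ) * h < n := by nlinarith
    exact_mod_cast this
  have htA : t ≤ A * (h + 1) := by
    have : (t : ℝ) ≤ A * (h + 1) := by
      calc (t : ℝ) ≤ 3 * n := htR
        _ = (3 / η) * (η * n) := by field_simp
        _ ≤ A * (h + 1) := by gcongr
    exact_mod_cast this
  have hK := kernel_lower_T a b T h A htA hAn hhn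
  set La := lightTimes h a
  set Lb := lightTimes h b
  set z : ℕ := ((La ∩ Lb) ∩ T).card
  set p : ℕ := ((La \ Lb) ∩ T).card
  set q : ℕ := ((Lb \ La) ∩ T).card
  have hz3 : (z : ℝ) ≤ 3 * n := by
    have : z ≤ t := by
      calc z ≤ (univ : Finset (Fin t)).card := card_le_card (subset_univ _)
        _ = t := by simp
    have : (z : ℝ) ≤ t := by exact_mod_cast this
    linarith
  have hp3' : (p : ℝ) ≤ 3 * n := by
    have : p ≤ t := by
      calc p ≤ (univ : Finset (Fin t)).card := card_le_card (subset_univ _)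
        _ = t := by simp
    have : (p : ℝ) ≤ t := by exact_mod_cast this
    linarith
  -- error terms
  have e1 : max 0 (1 - (q : ℝ) / n) - ε / 3 ≤ max 0 (1 - ((q : ℝ) + A * A) / n) := by
    have h1 : (A : ℝ) * A / n ≤ ε / 3 := by
      rw [div_le_div_iff₀ hn0 (by norm_num)]
      have : 3 * (A : ℝ) ^ 2 / ε ≤ n := by linarith
      rw [div_le_iff₀ hε] at this
      nlinarith
    have h2 : 1 - ((q : ℝ) + A * A) / n = 1 - (q : ℝ) / n - A * A / n := by ring
    rw [h2]
    rcases le_total 0 (1 - (q : ℝ) / n) with h3 | h3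
    · rw [max_eq_right h3]
      exact le_trans (by linarith) (le_max_right _ _)
    · rw [max_eq_left h3]
      exact le_trans (by linarith) (le_max_left _ _)
  have hnA : (0 : ℝ) < (n : ℝ) - A := by
    have : (A : ℝ) < n := by exact_mod_cast hAn
    linarith
  have e2 : max 0 (1 - (p : ℝ) / n) - ε / 3 ≤ max 0 (1 - (p : ℝ) / ((n : ℝ) - A)) := by
    have h1 : (p : ℝ) / ((n : ℝ) - A) ≤ (p : ℝ) / n + ε / 3 := by
      have h2 : (p : ℝ) / ((n : ℝ) - A) - (p : ℝ) / n = ((p : ℝ) / n) * (A / ((n : ℝ) - A)) := by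
        field_simp
        ring
      have h3 : (p : ℝ) / n ≤ 3 := by rw [div_le_iff₀ hn0]; exact hp3'
      have h4 : (A : ℝ) / ((n : ℝ) - A) ≤ ε / 9 := by
        rw [div_le_div_iff₀ hnA (by norm_num)]
        have : 9 * (A : ℝ) / ε ≤ n - A := by linarith
        rw [div_le_iff₀ hε] at this
        linarith
      have h5 : 0 ≤ (A : ℝ) / ((n : ℝ) - A) := by positivity
      have h6 : ((p : ℝ) / n) * (A / ((n : ℝ) - A)) ≤ 3 * (ε / 9) := by gcongr
      linarith
    rcases le_total 0 (1 - (p : ℝ) / n) with h3 | h3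
    · rw [max_eq_right h3]
      exact le_trans (by linarith) (le_max_right _ _)
    · rw [max_eq_left h3]
      exact le_trans (by linarith) (le_max_left _ _)
  have hm1 : (1 : ℝ) < (n : ℝ) - 2 * h := by nlinarith
  have e3 : exp (-((z : ℝ) / n)) - ε / 3 ≤ (1 - 1 / ((n : ℝ) - 2 * h)) ^ z := by
    have h1 := one_sub_pow_ge_P ((n : ℝ) - 2 * h) hm1 z
    refine le_trans ?_ h1
    set d : ℝ := (z : ℝ) / ((n : ℝ) - 2 * h - 1) - (z : ℝ) / n with hd
    have h2 : exp (-((z : ℝ) / ((n : ℝ) - 2 * h - 1))) = exp (-((z : ℝ) / n)) * exp (-d) := by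
      rw [← exp_add]; congr 1; rw [hd]; ring
    rw [h2]
    have hpos : (0 : ℝ) < (n : ℝ) - 2 * h - 1 := by linarith
    have hd0 : 0 ≤ d := by
      rw [hd, sub_nonneg]
      apply div_le_div_of_nonneg_left (by positivity) hpos (by linarith [Nat.cast_nonneg (α := ℝ) h])
    have hd1 : d ≤ ε / 3 := by
      have h3 : d = ((z : ℝ) / n) * ((2 * h + 1) / ((n : ℝ) - 2 * h - 1)) := by
        rw [hd]; field_simp; ring
      have h4 : (z : ℝ) / n ≤ 3 := by rw [div_le_iff₀ hn0]; exact hz3
      have h5 : (2 * (h : ℝ) + 1) / ((n : ℝ) - 2 * h - 1) ≤ 6 * η := by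
        rw [div_le_iff₀ hpos]
        nlinarith
      have h6 : 0 ≤ (2 * (h : ℝ) + 1) / ((n : ℝ) - 2 * h - 1) := by positivity
      rw [h3]
      calc ((z : ℝ) / n) * ((2 * h + 1) / ((n : ℝ) - 2 * h - 1)) ≤ 3 * (6 * η) := by gcongr
        _ = ε / 3 := by rw [hη]; ring
    have h4 : 1 - d ≤ exp (-d) := by have := add_one_le_exp (-d); linarith
    have h5 : exp (-((z : ℝ) / n)) ≤ 1 := by
      apply exp_le_one_iff.2
      have : 0 ≤ (z : ℝ) / n := by positivity
      linarith
    have h6 : 0 < exp (-((z : ℝ) / n)) := exp_pos _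
    nlinarith
  -- combine
  set X := exp (-((z : ℝ) / n))
  set Y := max 0 (1 - (p : ℝ) / n)
  set W := max 0 (1 - (q : ℝ) / n)
  set X' := (1 - 1 / ((n : ℝ) - 2 * h)) ^ z
  set Y' := max 0 (1 - (p : ℝ) / ((n : ℝ) - A))
  set W' := max 0 (1 - ((q : ℝ) + A * A) / n)
  have hX1 : X ≤ 1 := by
    apply exp_le_one_iff.2
    have : 0 ≤ (z : ℝ) / n := by positivity
    linarith
  have hX0 : 0 ≤ X := (exp_pos _).le
  have hY0 : 0 ≤ Y := le_max_left _ _
  have hY1 : Y ≤ 1 := by
    apply max_le zero_le_one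
    have : 0 ≤ (p : ℝ) / n := by positivity
    linarith
  have hW0 : 0 ≤ W := le_max_left _ _
  have hW1 : W ≤ 1 := by
    apply max_le zero_le_one
    have : 0 ≤ (q : ℝ) / n := by positivity
    linarith
  have hY'0 : 0 ≤ Y' := le_max_left _ _
  have hY'1 : Y' ≤ 1 := by
    apply max_le zero_le_one
    have : 0 ≤ (p : ℝ) / ((n : ℝ) - A) := by positivity
    linarith
  have hW'0 : 0 ≤ W' := le_max_left _ _
  have hW'1 : W' ≤ 1 := by
    apply max_le zero_le_one
    have : 0 ≤ ((q : ℝ) + A * A) / n := by positivity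
    linarith
  have hX'0 : 0 ≤ X' := by
    apply pow_nonneg
    rw [sub_nonneg, div_le_one (by linarith)]; linarith
  have t1 : X * Y * W - W' * Y' * X' =
      (X - X') * (Y * W) + X' * ((Y - Y') * W) + X' * (Y' * (W - W')) := by ring
  have hX'1 : X' ≤ 1 := by
    apply pow_le_one₀
    · rw [sub_nonneg, div_le_one (by linarith)]; linarith
    · have : 0 ≤ 1 / ((n : ℝ) - 2 * h) := by
        apply div_nonneg zero_le_one; linarith
      linarith
  have b1 : (X - X') * (Y * W) ≤ ε / 3 := by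
    have h1 : 0 ≤ Y * W := by positivity
    have h2 : Y * W ≤ 1 := mul_le_one₀ hY1 hW0 hW1
    calc (X - X') * (Y * W) ≤ (ε / 3) * (Y * W) := by gcongr; linarith
      _ ≤ (ε / 3) * 1 := by gcongr
      _ = ε / 3 := mul_one _
  have b2 : X' * ((Y - Y') * W) ≤ ε / 3 := by
    have h1 : (Y - Y') * W ≤ (ε / 3) * W := by gcongr; linarith
    have h2 : (ε / 3) * W ≤ ε / 3 := by nlinarith
    calc X' * ((Y - Y') * W) ≤ X' * (ε / 3) := by gcongr; linarith
      _ ≤ 1 * (ε / 3) := by gcongr
      _ = ε / 3 := one_mul _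
  have b3 : X' * (Y' * (W - W')) ≤ ε / 3 := by
    have h1 : Y' * (W - W') ≤ Y' * (ε / 3) := by gcongr; linarith
    have h2 : Y' * (ε / 3) ≤ ε / 3 := by nlinarith
    calc X' * (Y' * (W - W')) ≤ X' * (ε / 3) := by gcongr; linarith
      _ ≤ 1 * (ε / 3) := by gcongr
      _ = ε / 3 := one_mul _
  linarith


end Copy

private lemma cnt_eq {n : ℕ} (S : Finset (Fin n)) (s : ℕ) :
    cnt S s = ((S ∩ (univ.filter fun k : Fin n => k.val < s)).card : ℝ) / n := by
  unfold cnt
  rw [Finset.inter_filter, Finset.inter_univ]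

private lemma cnt_le_one {n : ℕ} (hn : 0 < n) (S : Finset (Fin n)) (s : ℕ) : cnt S s ≤ 1 := by
  unfold cnt
  have hnR : (0 : ℝ) < n := by exact_mod_cast hn
  rw [div_le_one hnR]
  have h1 : (S.filter fun k : Fin n => k.val < s).card ≤ n := by
    calc (S.filter fun k : Fin n => k.val < s).card ≤ (univ : Finset (Fin n)).card :=
          card_le_card (subset_univ _)
      _ = n := by simp
  exact_mod_cast h1

theorem Prefix_p (ε : ℝ) (hε : 0 < ε) :
    ∃ N : ℕ, ∀ n ≥ N, ∃ h : ℕ, ∀ a b : Fin n → Fin n, ∀ s ≤ n,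
      Sk (lightTimes h a) (lightTimes h b) s - ε ≤ pS s a b := by
  obtain ⟨N, hN⟩ := kernel_asymp_T (min ε 1) (by positivity) (min_le_right _ _)
  refine ⟨N + 1, fun n hn => ?_⟩
  obtain ⟨h, hh⟩ := hN n (by omega)
  have hn0 : 0 < n := by omega
  refine ⟨h, fun a b s _ => ?_⟩
  have h1 := hh n (by omega) a b (univ.filter fun k : Fin n => k.val < s)
  rw [← cnt_eq, ← cnt_eq, ← cnt_eq] at h1
  have h2 := cnt_le_one hn0 (lightTimes h a \ lightTimes h b) s
  have h3 := cnt_le_one hn0 (lightTimes h b \ lightTimes h a) s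
  rw [max_eq_right (by linarith), max_eq_right (by linarith)] at h1
  have h4 : min ε 1 ≤ ε := min_le_left _ _
  unfold pS Sk
  linarith

end Pool.Agent.Lib.RdvF
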