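import Mathlib
import Pool.Agent.Lib.RdvF.Defs

/-! # RdvF.PsB: elementary bounds of the true survival probabilities (80 lines)

`pS s a b` is a probability (`pAvoid_nonneg`, `pAvoid_le_one`), nonincreasing in `s`
(`pAvoid_anti`), and at least `1 - s/n` (`pAvoid_union ∅ E 0` as in step 1 of `kernel_lower`, or a
union bound; `pairsOn a b T` has at most `#T ≤ s` elements). So with
`kap = (Σ_{s<n} pS s a b)/n`: `kap + pS n a b/2 ≥ (Σ_{s<n} (1 - s/n))/n = (n+1)/(2n) ≥ 1/2`,
`kap ≤ 1`, `pS n a b ≤ kap`. -/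

namespace Pool.Agent.Lib.RdvF

open MeasureTheory Finset Pool.Agent.Lib.MP92dd55
open scoped ENNReal

private lemma pS_nonneg {n : ℕ} (s : ℕ) (a b : Fin n → Fin n) : 0 ≤ pS s a b :=
  pAvoid_nonneg _

private lemma pS_le_one {n : ℕ} (s : ℕ) (a b : Fin n → Fin n) : pS s a b ≤ 1 :=
  pAvoid_le_one _

private lemma pS_anti {n : ℕ} {s t : ℕ} (h : s ≤ t) (a b : Fin n → Fin n) :
    pS t a b ≤ pS s a b := by
  classical
  unfold pS
  apply pAvoid_anti
  unfold pairsOn
  apply image_subset_image
  intro k hk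
  simp only [mem_filter, mem_univ, true_and] at hk ⊢
  omega

private lemma pS_lower {n : ℕ} (hn : 0 < n) (s : ℕ) (a b : Fin n → Fin n) :
    1 - (s : ℝ) / n ≤ pS s a b := by
  classical
  unfold pS
  set E := pairsOn a b (univ.filter fun k : Fin n => k.val < s) with hE
  have hcard : E.card ≤ s := by
    rw [hE]
    unfold pairsOn
    refine card_image_le.trans ?_
    have h1 : ((univ.filter fun k : Fin n => k.val < s).image Fin.val) ⊆ range s := by
      intro x hx
      simp only [mem_image, mem_filter, mem_univ, true_and] at hx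
      obtain ⟨k, hk, rfl⟩ := hx
      exact mem_range.2 hk
    have h2 := card_le_card h1
    rw [card_image_of_injective _ Fin.val_injective, card_range] at h2
    exact h2
  have h1 := pAvoid_union (∅ : Finset (Fin n × Fin n)) E 0 hn (by simp) (by
    intro e _; simp [rowDeg, colDeg])
  rw [pAvoid_empty, one_mul, empty_union] at h1
  refine le_trans ?_ h1
  have hc : (E.card : ℝ) ≤ s := by exact_mod_cast hcard
  have hnR : (0 : ℝ) < n := by exact_mod_cast hn
  simp only [Nat.cast_zero, sub_zero]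
  have : (E.card : ℝ) / n ≤ s / n := by gcongr
  linarith

theorem PsB_p {n : ℕ} (hn : 0 < n) (a b : Fin n → Fin n) :
    0 ≤ pS n a b ∧ pS n a b ≤ 1 ∧ (∀ s, 0 ≤ pS s a b) ∧
      (∑ s ∈ range n, pS s a b) / n ≤ 1 ∧ pS n a b ≤ (∑ s ∈ range n, pS s a b) / n ∧
      1 / 2 ≤ (∑ s ∈ range n, pS s a b) / n + pS n a b / 2 := by
  have hnR : (0 : ℝ) < n := by exact_mod_cast hn
  have h0 := pS_nonneg n a b
  refine ⟨h0, pS_le_one n a b, fun s => pS_nonneg s a b, ?_, ?_, ?_⟩
  · rw [div_le_one hnR]
    calc ∑ s ∈ range n, pS s a b ≤ ∑ s ∈ range n, (1 : ℝ) :=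
          Finset.sum_le_sum fun s _ => pS_le_one s a b
      _ = n := by simp
  · rw [le_div_iff₀ hnR]
    calc pS n a b * n = ∑ s ∈ range n, pS n a b := by simp [mul_comm]
      _ ≤ ∑ s ∈ range n, pS s a b :=
          Finset.sum_le_sum fun s hs => pS_anti (mem_range.1 hs).le a b
  · have h1 : ∑ s ∈ range n, (1 - (s : ℝ) / n) ≤ ∑ s ∈ range n, pS s a b :=
      Finset.sum_le_sum fun s _ => pS_lower hn s a b
    have h2 : ∑ s ∈ range n, (1 - (s : ℝ) / n) = ((n : ℝ) + 1) / 2 := by
      have h3 : ∀ m : ℕ, ∑ s ∈ range m, (1 - (s : ℝ) / n) = m - (m : ℝ) * (m - 1) / (2 * n) := by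
        intro m
        induction m with
        | zero => simp
        | succ m ih =>
          rw [Finset.sum_range_succ, ih]
          push_cast
          field_simp
          ring
      rw [h3]
      field_simp
      ring
    rw [h2] at h1
    have h4 : (1 : ℝ) / 2 ≤ (∑ s ∈ range n, pS s a b) / n := by
      rw [le_div_iff₀ hnR]
      linarith
    linarith

end Pool.Agent.Lib.RdvF
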