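import Mathlib
import Pool.Agent.Lib.RdvF.Defs

/-! # RdvF.Psd: positive semidefinite kernels (150 lines)

`PSD K` means `K a b = Σ_j φ_j a φ_j b` (finite sum). Products: index set `Fin (m * m')`
(`finProdFinEquiv`), finite products by induction, composition with a map is immediate.
`Σ_a Σ_b w a w b K a b = Σ_j (Σ_a w a φ_j a)^2 ≥ 0`.
`Qk L L' = (1 - #L/n)(1 - #L'/n) + (E1/n) Σ_k 1_L(k) 1_L'(k)` (`E1 ≥ 0`).
`Bk L L' = (1 - W lw L)(1 - W lw L') + bc Σ_k wgt k (1_L(k) - lw L)(1_L'(k) - lw L')`, because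
`Σ_k wgt n k = 1` (`Σ_{k<n} (1 + Rc - (k+1/2)/n) = n (1 + Rc) - n/2 = n Wc`); `wgt ≥ 0`, `bc ≥ 0`.
For the sum of two PSD kernels use `Fin (m + m')` (`Fin.sum_univ_add`, `Fin.addCases`). It may be
convenient to prove first: for a fintype `ι`, `K a b = Σ_{i:ι} φ i a φ i b` implies `PSD K`
(`Fintype.equivFin`). -/

namespace Pool.Agent.Lib.RdvF

open MeasureTheory Finset Pool.Agent.Lib.MP92dd55
open scoped ENNReal

private theorem Psd_of_fintype {α ι : Type} [Fintype ι] {K : α → α → ℝ} (φ : ι → α → ℝ)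
    (h : ∀ a b, K a b = ∑ i, φ i a * φ i b) : PSD K := by
  refine ⟨Fintype.card ι, fun j => φ ((Fintype.equivFin ι).symm j), fun a b => ?_⟩
  rw [h]
  exact (Equiv.sum_comp (Fintype.equivFin ι).symm (fun i => φ i a * φ i b)).symm

private theorem Psd_add {α : Type} {K K' : α → α → ℝ} (h : PSD K) (h' : PSD K') :
    PSD (fun a b => K a b + K' a b) := by
  obtain ⟨m, φ, hφ⟩ := h
  obtain ⟨m', φ', hφ'⟩ := h'
  refine Psd_of_fintype (ι := Fin m ⊕ Fin m') (Sum.elim φ φ') fun a b => ?_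
  rw [Fintype.sum_sum_type, hφ, hφ']
  simp only [Sum.elim_inl, Sum.elim_inr]

private theorem Psd_one {α : Type} (f : α → ℝ) : PSD (fun a b => f a * f b) :=
  Psd_of_fintype (ι := Unit) (fun _ => f) fun a b => by simp

private theorem Psd_wsum {α ι : Type} [Fintype ι] (w : ι → ℝ) (hw : ∀ i, 0 ≤ w i)
    (f : ι → α → ℝ) : PSD (fun a b => ∑ i, w i * (f i a * f i b)) := by
  refine Psd_of_fintype (ι := ι) (fun i a => Real.sqrt (w i) * f i a) fun a b => ?_
  refine Finset.sum_congr rfl fun i _ => ?_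
  have h := Real.mul_self_sqrt (hw i)
  linear_combination (-(f i a * f i b)) * h

private noncomputable def Psd_ind {n : ℕ} (k : Fin n) (L : Finset (Fin n)) : ℝ :=
  if k ∈ L then 1 else 0

private theorem Psd_ind_inter {n : ℕ} (k : Fin n) (L L' : Finset (Fin n)) :
    Psd_ind k (L ∩ L') = Psd_ind k L * Psd_ind k L' := by
  unfold Psd_ind
  by_cases h1 : k ∈ L <;> by_cases h2 : k ∈ L' <;> simp [h1, h2]

private theorem Psd_sum_ind {n : ℕ} (w : Fin n → ℝ) (L : Finset (Fin n)) :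
    ∑ k ∈ L, w k = ∑ k, w k * Psd_ind k L := by
  unfold Psd_ind
  rw [← Finset.sum_filter_add_sum_filter_not univ (fun k => k ∈ L)]
  have h1 : ∑ k ∈ univ.filter (fun k => k ∈ L), w k * (if k ∈ L then (1 : ℝ) else 0) =
      ∑ k ∈ L, w k := by
    rw [Finset.filter_mem_eq_inter, Finset.univ_inter]
    refine Finset.sum_congr rfl fun k hk => ?_
    rw [if_pos hk, mul_one]
  have h2 : ∑ k ∈ univ.filter (fun k => ¬ k ∈ L), w k * (if k ∈ L then (1 : ℝ) else 0) = 0 := by
    refine Finset.sum_eq_zero fun k hk => ?_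
    rw [if_neg (Finset.mem_filter.1 hk).2, mul_zero]
  rw [h1, h2, add_zero]

private theorem Psd_lw {n : ℕ} (L : Finset (Fin n)) :
    lw L = ∑ k : Fin n, wgt n k * Psd_ind k L :=
  Psd_sum_ind (fun k : Fin n => wgt n k) L

private theorem Psd_card {n : ℕ} (L : Finset (Fin n)) :
    (L.card : ℝ) = ∑ k : Fin n, Psd_ind k L := by
  have h := Psd_sum_ind (fun _ : Fin n => (1 : ℝ)) L
  rw [Finset.sum_const, nsmul_eq_mul, mul_one] at h
  rw [h]
  exact Finset.sum_congr rfl fun k _ => one_mul _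

private theorem Psd_wgt_sum {n : ℕ} (hn : 0 < n) (hW : 0 < Wc) :
    ∑ k : Fin n, wgt n k = 1 := by
  have hn' : (n : ℝ) ≠ 0 := Nat.cast_ne_zero.2 hn.ne'
  rw [Fin.sum_univ_eq_sum_range (fun k => wgt n k) n]
  have hk : ∀ m : ℕ, ∑ k ∈ range m, ((k : ℝ) + 1 / 2) = (m : ℝ) ^ 2 / 2 := by
    intro m
    induction m with
    | zero => simp
    | succ m ih =>
      rw [Finset.sum_range_succ, ih]
      push_cast
      ring
  have h1 : ∑ k ∈ range n, wgt n k =
      ((n : ℝ) * (1 + Rc) - (∑ k ∈ range n, ((k : ℝ) + 1 / 2)) / n) / (n * Wc) := by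
    unfold wgt
    rw [← Finset.sum_div, Finset.sum_sub_distrib, Finset.sum_const, Finset.card_range,
      nsmul_eq_mul, ← Finset.sum_div]
  rw [h1, hk]
  have h2 : Rc = Wc - 1 / 2 := by
    unfold Wc
    ring
  rw [h2]
  field_simp
  ring

private theorem Psd_wgt_nonneg {n : ℕ} (hW : 0 < Wc) (hR : 0 ≤ Rc) (k : Fin n) :
    0 ≤ wgt n k := by
  have hn : 0 < n := k.pos
  have hn' : (0 : ℝ) < n := Nat.cast_pos.2 hn
  unfold wgt
  apply div_nonneg _ (mul_pos hn' hW).le
  have hk : ((k : ℕ) : ℝ) + 1 ≤ n := by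
    have := k.isLt
    exact_mod_cast this
  have h1 : (((k : ℕ) : ℝ) + 1 / 2) / n ≤ 1 := by
    rw [div_le_one hn']
    linarith
  linarith

theorem PSD_mul {α : Type} {K K' : α → α → ℝ} (h : PSD K) (h' : PSD K') :
    PSD (fun a b => K a b * K' a b) := by
  obtain ⟨m, φ, hφ⟩ := h
  obtain ⟨m', φ', hφ'⟩ := h'
  refine Psd_of_fintype (ι := Fin m × Fin m') (fun p a => φ p.1 a * φ' p.2 a) fun a b => ?_
  rw [hφ, hφ', Finset.sum_mul_sum, Fintype.sum_prod_type]
  refine Finset.sum_congr rfl fun i _ => Finset.sum_congr rfl fun j _ => ?_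
  ring

theorem PSD_prod {α : Type} (r : ℕ) (K : ℕ → α → α → ℝ) (h : ∀ i, PSD (K i)) :
    PSD (fun a b => ∏ i ∈ range r, K i a b) := by
  induction r with
  | zero =>
    refine ⟨1, fun _ _ => 1, fun a b => ?_⟩
    simp
  | succ r ih =>
    have h1 := PSD_mul ih (h r)
    have h2 : (fun a b => ∏ i ∈ range (r + 1), K i a b) =
        fun a b => (∏ i ∈ range r, K i a b) * K r a b := by
      funext a b
      rw [Finset.prod_range_succ]
    rw [h2]
    exact h1

theorem PSD_comap {α β : Type} {K : β → β → ℝ} (h : PSD K) (f : α → β) :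
    PSD (fun a b => K (f a) (f b)) := by
  obtain ⟨m, φ, hφ⟩ := h
  exact ⟨m, fun j a => φ j (f a), fun a b => hφ (f a) (f b)⟩

theorem PSD_nonneg {α : Type} [Fintype α] {K : α → α → ℝ} (h : PSD K) (w : α → ℝ) :
    0 ≤ ∑ a, ∑ b, w a * w b * K a b := by
  obtain ⟨m, φ, hφ⟩ := h
  have h1 : ∑ a, ∑ b, w a * w b * K a b = ∑ j, (∑ a, w a * φ j a) * (∑ b, w b * φ j b) := by
    have h2 : ∀ a b, w a * w b * K a b = ∑ j, (w a * φ j a) * (w b * φ j b) := by
      intro a b
      rw [hφ, Finset.mul_sum]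
      exact Finset.sum_congr rfl fun j _ => by ring
    calc ∑ a, ∑ b, w a * w b * K a b = ∑ a, ∑ b, ∑ j, (w a * φ j a) * (w b * φ j b) := by
          exact Finset.sum_congr rfl fun a _ => Finset.sum_congr rfl fun b _ => h2 a b
      _ = ∑ a, ∑ j, ∑ b, (w a * φ j a) * (w b * φ j b) :=
          Finset.sum_congr rfl fun a _ => Finset.sum_comm
      _ = ∑ j, ∑ a, ∑ b, (w a * φ j a) * (w b * φ j b) := Finset.sum_comm
      _ = ∑ j, (∑ a, w a * φ j a) * (∑ b, w b * φ j b) :=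
          Finset.sum_congr rfl fun j _ => (Finset.sum_mul_sum _ _ _ _).symm
  rw [h1]
  exact Finset.sum_nonneg fun j _ => mul_self_nonneg _

theorem PSD_Qk {n : ℕ} : PSD (fun L L' : Finset (Fin n) => Qk L L') := by
  have h1 := Psd_one (fun L : Finset (Fin n) => 1 - (L.card : ℝ) / n)
  have h2 := Psd_wsum (fun _ : Fin n => E1 / n)
    (fun _ => div_nonneg (Real.exp_pos _).le (Nat.cast_nonneg n))
    (fun k (L : Finset (Fin n)) => Psd_ind k L)
  have h3 := Psd_add h1 h2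
  have h4 : (fun L L' : Finset (Fin n) => Qk L L') = fun a b : Finset (Fin n) =>
      (1 - (a.card : ℝ) / n) * (1 - (b.card : ℝ) / n) +
        ∑ i : Fin n, E1 / n * (Psd_ind i a * Psd_ind i b) := by
    funext a b
    unfold Qk
    have h5 : ∑ i : Fin n, E1 / n * (Psd_ind i a * Psd_ind i b) =
        E1 * ((a ∩ b).card : ℝ) / n := by
      rw [← Finset.mul_sum, Psd_card (a ∩ b)]
      have h6 : ∑ i : Fin n, Psd_ind i a * Psd_ind i b = ∑ k : Fin n, Psd_ind k (a ∩ b) :=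
        Finset.sum_congr rfl fun k _ => (Psd_ind_inter k a b).symm
      rw [h6]
      ring
    rw [h5]
  rw [h4]
  exact h3

theorem PSD_Bk {n : ℕ} (hn : 0 < n) (hW : 0 < Wc) (hR : 0 ≤ Rc) (hb : 0 ≤ bc) :
    PSD (fun L L' : Finset (Fin n) => Bk L L') := by
  have h1 := Psd_one (fun L : Finset (Fin n) => 1 - Wc * lw L)
  have h2 := Psd_wsum (fun k : Fin n => bc * wgt n k)
    (fun k => mul_nonneg hb (Psd_wgt_nonneg hW hR k))
    (fun k (L : Finset (Fin n)) => Psd_ind k L - lw L)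
  have h3 := Psd_add h1 h2
  have h4 : (fun L L' : Finset (Fin n) => Bk L L') = fun a b : Finset (Fin n) =>
      (1 - Wc * lw a) * (1 - Wc * lw b) +
        ∑ i : Fin n, bc * wgt n i * ((Psd_ind i a - lw a) * (Psd_ind i b - lw b)) := by
    funext a b
    unfold Bk
    have h5 : ∑ i : Fin n, bc * wgt n i * ((Psd_ind i a - lw a) * (Psd_ind i b - lw b)) =
        bc * (lw (a ∩ b) - lw a * lw b) := by
      have h6 : ∀ i : Fin n, bc * wgt n i * ((Psd_ind i a - lw a) * (Psd_ind i b - lw b)) =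
          bc * (wgt n i * Psd_ind i (a ∩ b)) - bc * lw b * (wgt n i * Psd_ind i a) -
            bc * lw a * (wgt n i * Psd_ind i b) + bc * lw a * lw b * wgt n i := by
        intro i
        rw [Psd_ind_inter]
        ring
      simp only [h6]
      rw [Finset.sum_add_distrib, Finset.sum_sub_distrib, Finset.sum_sub_distrib,
        ← Finset.mul_sum, ← Finset.mul_sum, ← Finset.mul_sum, ← Finset.mul_sum,
        Psd_wgt_sum hn hW, ← Psd_lw, ← Psd_lw, ← Psd_lw]
      ring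
    rw [h5]
  rw [h4]
  exact h3

end Pool.Agent.Lib.RdvF
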