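import Mathlib
import Pool.Agent.Lib.RdvF.Defs
import Pool.Agent.Lib.RdvF.Num

/-! # RdvF.QS: Q is at most the survival probability

Put `a = cnt (L \ L') n`, `b = cnt (L' \ L) n`, `z = cnt (L ∩ L') n`; all nonnegative,
`a + b + z ≤ 1`, `#L/n = a + z`, `#L'/n = b + z`. -/

namespace Pool.Agent.Lib.RdvF

open MeasureTheory Finset Pool.Agent.Lib.MP92dd55
open scoped ENNReal

private theorem qs_k {z : ℝ} (h0 : 0 ≤ z) (h1 : z ≤ 1) :
    1 - Real.exp (-z) ≤ z * (1 - E1 * z) := by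
  obtain ⟨hE1, hE2, -⟩ := Num_p
  by_cases hz : z ≤ 1 / 2
  · have hb := Real.exp_bound (x := -z) (by rw [abs_neg, abs_of_nonneg h0]; linarith)
      (n := 3) (by norm_num)
    rw [abs_neg, abs_of_nonneg h0] at hb
    have hs : (∑ m ∈ Finset.range 3, (-z) ^ m / (m.factorial : ℝ)) = 1 - z + z ^ 2 / 2 := by
      simp only [Finset.sum_range_succ, Finset.sum_range_zero]
      norm_num [Nat.factorial]
      ring
    rw [hs] at hb
    have hc : ((Nat.succ 3 : ℕ) : ℝ) / ((Nat.factorial 3 : ℕ) * (3 : ℕ) : ℝ) = 2 / 9 := by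
      norm_num [Nat.factorial]
    rw [hc] at hb
    have hb2 := (abs_le.mp hb).1
    have h3 : 0 ≤ z ^ 2 * (1 / 2 - E1 - 2 / 9 * z) := by
      apply mul_nonneg (sq_nonneg z)
      linarith
    nlinarith [h3, hb2]
  · push Not at hz
    have hq := Real.quadratic_le_exp_of_nonneg (x := 1 - z) (by linarith)
    have he : Real.exp (-z) = E1 * Real.exp (1 - z) := by
      unfold E1
      rw [← Real.exp_add]
      congr 1
      ring
    have hE0 : 0 < E1 := by linarith
    have h2 : E1 * (1 + (1 - z) + (1 - z) ^ 2 / 2) ≤ Real.exp (-z) := by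
      rw [he]
      exact mul_le_mul_of_nonneg_left hq hE0.le
    have h3 : 0 ≤ (1 - z) * (3 * E1 - 1 - E1 * (1 - z) / 2) := by
      apply mul_nonneg (by linarith)
      nlinarith
    nlinarith [h2, h3]

private theorem qs_m {a b z : ℝ} (ha : 0 ≤ a) (hb : 0 ≤ b) (hz : 0 ≤ z) (h : a + b + z ≤ 1) :
    (1 - (a + z)) * (1 - (b + z)) + E1 * z ≤ Real.exp (-z) * (1 - a) * (1 - b) := by
  obtain ⟨hE1, hE2, -⟩ := Num_p
  have hz1 : z ≤ 1 := by linarith
  have hk := qs_k hz hz1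
  set q : ℝ := 1 - Real.exp (-z) with hq
  have he : Real.exp (-z) = 1 - q := by rw [hq]; ring
  rw [he]
  have hq0 : 0 ≤ q := by
    have : Real.exp (-z) ≤ 1 := by
      rw [Real.exp_le_one_iff]
      linarith
    rw [hq]
    linarith
  have hq1 : q ≤ z := by
    have := Real.add_one_le_exp (-z)
    rw [hq]
    linarith
  -- the product is at most the square of the mean
  have h1 : (1 - a) * (1 - b) ≤ (1 - (a + b) / 2) ^ 2 := by nlinarith [sq_nonneg (a - b)]
  have h2 : q * ((1 - a) * (1 - b)) ≤ q * (1 - (a + b) / 2) ^ 2 :=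
    mul_le_mul_of_nonneg_left h1 hq0
  -- monotonicity in `g = a + b`
  set g : ℝ := a + b with hg
  have h3 : 0 ≤ (1 - z - g) * (z - q / 2 * ((1 - g / 2) + (1 + z) / 2)) := by
    apply mul_nonneg (by linarith)
    have h4 : (1 - g / 2) + (1 + z) / 2 ≤ 2 := by
      have : 0 ≤ g := by rw [hg]; linarith
      linarith
    have h5 : q / 2 * ((1 - g / 2) + (1 + z) / 2) ≤ q / 2 * 2 :=
      mul_le_mul_of_nonneg_left h4 (by linarith)
    linarith
  -- the value at `g = 1 - z`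
  have h6 : q * (1 + z) ^ 2 ≤ z * (1 - E1 * z) * (1 + z) ^ 2 :=
    mul_le_mul_of_nonneg_right hk (sq_nonneg _)
  have h7 : 0 ≤ (1 - z) * (3 + z - E1 * (4 + 3 * z + z ^ 2)) := by
    apply mul_nonneg (by linarith)
    have h8 : 4 + 3 * z + z ^ 2 ≤ 4 + 4 * z := by nlinarith
    have h9 : E1 * (4 + 3 * z + z ^ 2) ≤ E1 * (4 + 4 * z) :=
      mul_le_mul_of_nonneg_left h8 (by linarith)
    nlinarith
  have h10 : (1 - E1 * z) * (1 + z) ^ 2 ≤ 4 * (1 - E1) := by nlinarith [h7]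
  have h11 : z * ((1 - E1 * z) * (1 + z) ^ 2) ≤ z * (4 * (1 - E1)) :=
    mul_le_mul_of_nonneg_left h10 hz
  nlinarith [h2, h3, h6, h11]

private theorem qs_cnt {n : ℕ} (T : Finset (Fin n)) : cnt T n = (T.card : ℝ) / n := by
  unfold cnt
  congr 2
  congr 1
  ext k
  simp [k.isLt]

private theorem qs_data {n : ℕ} (hn : 0 < n) (L L' : Finset (Fin n)) :
    0 ≤ cnt (L \ L') n ∧ 0 ≤ cnt (L' \ L) n ∧ 0 ≤ cnt (L ∩ L') n ∧
      cnt (L \ L') n + cnt (L' \ L) n + cnt (L ∩ L') n ≤ 1 ∧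
      (L.card : ℝ) / n = cnt (L \ L') n + cnt (L ∩ L') n ∧
      (L'.card : ℝ) / n = cnt (L' \ L) n + cnt (L ∩ L') n ∧
      ((L ∩ L').card : ℝ) / n = cnt (L ∩ L') n := by
  have hn' : (0 : ℝ) < n := by exact_mod_cast hn
  rw [qs_cnt, qs_cnt, qs_cnt]
  refine ⟨by positivity, by positivity, by positivity, ?_, ?_, ?_, rfl⟩
  · have h1 : (L \ L').card + (L' \ L).card + (L ∩ L').card ≤ n := by
      have h2 : (L ∪ L').card ≤ n := by
        simpa using Finset.card_le_univ (L ∪ L')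
      have h3 := Finset.card_union_add_card_inter L L'
      have h4 := Finset.card_sdiff_add_card_inter L L'
      have h5 := Finset.card_sdiff_add_card_inter L' L
      rw [Finset.inter_comm L' L] at h5
      omega
    rw [← add_div, ← add_div, div_le_one hn']
    exact_mod_cast h1
  · rw [← add_div]
    congr 1
    exact_mod_cast (Finset.card_sdiff_add_card_inter L L').symm
  · rw [← add_div]
    congr 1
    have h5 := Finset.card_sdiff_add_card_inter L' L
    rw [Finset.inter_comm L' L] at h5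
    exact_mod_cast h5.symm

theorem QS_p {n : ℕ} (hn : 0 < n) (L L' : Finset (Fin n)) : Qk L L' ≤ Sk L L' n := by
  obtain ⟨ha, hb, hz, hs, hx, hy, hw⟩ := qs_data hn L L'
  unfold Qk Sk
  rw [hx, hy, mul_div_assoc, hw]
  exact qs_m ha hb hz hs

theorem Qk01_p {n : ℕ} (hn : 0 < n) (L L' : Finset (Fin n)) : 0 ≤ Qk L L' ∧ Qk L L' ≤ 1 := by
  obtain ⟨ha, hb, hz, hs, hx, hy, hw⟩ := qs_data hn L L'
  obtain ⟨hE1, hE2, -⟩ := Num_p
  constructor
  · unfold Qk
    rw [hx, hy, mul_div_assoc, hw]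
    have h1 : 0 ≤ (1 - (cnt (L \ L') n + cnt (L ∩ L') n)) *
        (1 - (cnt (L' \ L) n + cnt (L ∩ L') n)) :=
      mul_nonneg (by linarith) (by linarith)
    have h2 : 0 ≤ E1 * cnt (L ∩ L') n := mul_nonneg (by linarith) hz
    linarith
  · refine (QS_p hn L L').trans ?_
    unfold Sk
    have h1 : Real.exp (-cnt (L ∩ L') n) ≤ 1 := by
      rw [Real.exp_le_one_iff]
      linarith
    have h0 := Real.exp_pos (-cnt (L ∩ L') n)
    have h2 : Real.exp (-cnt (L ∩ L') n) * (1 - cnt (L \ L') n) ≤ 1 := by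
      apply mul_le_one₀ h1 (by linarith) (by linarith)
    have h3 : 0 ≤ Real.exp (-cnt (L ∩ L') n) * (1 - cnt (L \ L') n) :=
      mul_nonneg h0.le (by linarith)
    calc Real.exp (-cnt (L ∩ L') n) * (1 - cnt (L \ L') n) * (1 - cnt (L' \ L) n)
        ≤ 1 * 1 := by
          apply mul_le_mul h2 (by linarith) (by linarith) (by norm_num)
      _ = 1 := by norm_num

end Pool.Agent.Lib.RdvF
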