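import Mathlib
import Pool.Agent.Lib.RdvF.Defs

/-! # RdvF.Sym: survival probabilities of a forgetful strategy (300 lines)

Copy the structure of `MP92dd55/Reduce.lean`. Put `Ω = Fin M → Fin n → Fin n`,
`ν = μ.map (blocks M)` (`blocks M` is measurable, `Ω` is finite).
(1) For `r < M`, `s ≤ n`, `t = r n + s` the indicator `notMet t σ x y` equals
`F σ (blocks M x) (blocks M y)` with `F σ A B = 1` iff `σ (A i k) ≠ B i k` for all `i < r`, all `k`,
and `σ (A r k) ≠ B r k` for `k < s`. So `∫∫ notMet = Σ_A Σ_B F σ A B ν{A} ν{B}` (as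
`lintegral_notMet`).
(2) INVARIANCE: for `π : Fin M → Perm (Fin n)` let `(π • A) i k = π i (A i k)`. From
`μ.map (relabel π') = μ` (`π'` extends `π` by the identity) and
`blocks M (relabel π' x) = π • blocks M x` (`(i n + k)/n = i`) we get `ν{π • A} = ν{A}`
(`A ↦ π • A` is a bijection).
(3) Average over all `σ` and all `π`: for fixed `A B`
`Σ_σ Σ_π F σ (π • A) B = n! Σ_π Π_{i<r} [π i ∈ avoid (pairs (A i) (B i))] *
[π r ∈ avoid (pairsOn (A r) (B r) {k<s})]` (replace `π i` by `σ⁻¹ π i`)
`= n! (n!)^M Π_{i<r} pS n (A i) (B i) * pS s (A r) (B r)`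
(`Finset.prod_univ_sum`/`Fintype.piFinset` : the sum over `π` of a product is the product of the
sums; `pairs a b = pairsOn a b univ`, the filter `k < n` is `univ`).
(4) `Σ_{t < M n} = Σ_{r<M} Σ_{s<n}` and `Σ_{t<T} notMet t σ x y ≤ meetTime σ x y`
(`sum_notMet_le`); `expectedTime_ge`, `sum_lintegral_notMet` show how to pass from `ENNReal` to
real finite sums. `extB A i = A i` for `i < M`. -/

namespace Pool.Agent.Lib.RdvF

open MeasureTheory Finset Pool.Agent.Lib.MP92dd55
open scoped ENNReal

private lemma sym_meas {n : ℕ} (M : ℕ) : Measurable (blocks (n := n) M) :=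
  measurable_pi_iff.2 fun _ => measurable_pi_iff.2 fun _ => measurable_pi_apply _

/-- the players have not met in the first `r` blocks and the first `s` periods of the next one -/
private def symG {n : ℕ} (r s : ℕ) (σ : Equiv.Perm (Fin n)) (A B : ℕ → Fin n → Fin n) : Prop :=
  (∀ i < r, ∀ k, σ (A i k) ≠ B i k) ∧ ∀ k : Fin n, k.val < s → σ (A r k) ≠ B r k

private lemma sym_ext {n M : ℕ} (z : ℕ → Fin n) (i : ℕ) (hi : i < M) (k : Fin n) :
    extB (blocks M z) i k = z (i * n + k) := by
  unfold extB
  rw [dif_pos hi]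
  rfl

private lemma symG_iff {n M r s : ℕ} (hr : r < M) (hs : s ≤ n) (σ : Equiv.Perm (Fin n))
    (x y : ℕ → Fin n) :
    (∀ t < r * n + s, σ (x t) ≠ y t) ↔
      symG r s σ (extB (blocks M x)) (extB (blocks M y)) := by
  constructor
  · intro h
    refine ⟨fun i hi k => ?_, fun k hk => ?_⟩
    · rw [sym_ext x i (hi.trans hr) k, sym_ext y i (hi.trans hr) k]
      apply h
      have h1 : i * n + n ≤ r * n := by
        have h2 := Nat.mul_le_mul_right n (Nat.succ_le_of_lt hi)
        rwa [Nat.succ_mul] at h2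
      have h3 := k.2
      omega
    · rw [sym_ext x r hr k, sym_ext y r hr k]
      apply h
      omega
  · rintro ⟨h1, h2⟩ t ht
    have hn : 0 < n := (x 0).pos
    have hdm : t / n * n + t % n = t := by
      rw [mul_comm]
      exact Nat.div_add_mod t n
    have hk := Nat.mod_lt t hn
    have hi : t / n < r + 1 := by
      rw [Nat.div_lt_iff_lt_mul hn, Nat.add_mul, one_mul]
      omega
    rcases Nat.lt_or_ge (t / n) r with hlt | hge
    · have h3 := h1 (t / n) hlt ⟨t % n, hk⟩
      rw [sym_ext _ _ (hlt.trans hr), sym_ext _ _ (hlt.trans hr)] at h3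
      have h4 : t / n * n + (⟨t % n, hk⟩ : Fin n).val = t := hdm
      rwa [h4] at h3
    · have he : t / n = r := by omega
      rw [he] at hdm
      have h3 := h2 ⟨t % n, hk⟩ (by
        show t % n < s
        omega)
      rw [sym_ext _ _ hr, sym_ext _ _ hr] at h3
      have h4 : r * n + (⟨t % n, hk⟩ : Fin n).val = t := hdm
      rwa [h4] at h3

/-- the action of relabellings on blocks -/
private def symAct {n M : ℕ} (π : Fin M → Equiv.Perm (Fin n)) :
    (Fin M → Fin n → Fin n) ≃ (Fin M → Fin n → Fin n) where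
  toFun A i k := π i (A i k)
  invFun A i k := (π i).symm (A i k)
  left_inv A := by
    funext i k
    simp
  right_inv A := by
    funext i k
    simp

private lemma symInv {n : ℕ} {μ : Measure (ℕ → Fin n)} (hF : Forgetful μ) (M : ℕ)
    (π : Fin M → Equiv.Perm (Fin n)) (A : Fin M → Fin n → Fin n) :
    wB μ M (symAct π A) = wB μ M A := by
  classical
  set π' : ℕ → Equiv.Perm (Fin n) := fun i => if h : i < M then π ⟨i, h⟩ else 1 with hπ'
  have hmr : Measurable (relabel π') := by
    refine measurable_pi_iff.2 fun t => ?_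
    exact (measurable_of_finite (fun a : Fin n => π' (t / n) a)).comp (measurable_pi_apply t)
  have hmb := sym_meas (n := n) M
  have hpre : (relabel π') ⁻¹' (blocks M ⁻¹' {symAct π A}) = blocks M ⁻¹' {A} := by
    ext x
    simp only [Set.mem_preimage, Set.mem_singleton_iff]
    have h1 : blocks M (relabel π' x) = symAct π (blocks M x) := by
      funext r k
      show π' (((r : ℕ) * n + k) / n) (x ((r : ℕ) * n + k)) = π r (x ((r : ℕ) * n + k))
      have h2 : ((r : ℕ) * n + k) / n = r := by
        rw [mul_comm, Nat.mul_add_div k.pos, Nat.div_eq_of_lt k.2, add_zero]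
      rw [h2, hπ']
      simp only [r.2, dif_pos, Fin.eta]
    rw [h1]
    exact (symAct π).apply_eq_iff_eq
  unfold wB
  rw [Measure.map_apply hmb (measurableSet_singleton _),
    Measure.map_apply hmb (measurableSet_singleton _)]
  conv_lhs => rw [← hF π']
  rw [Measure.map_apply hmr (hmb (measurableSet_singleton _)), hpre]

private lemma sym_avoid {n t : ℕ} (a b : Fin t → Fin n) (S : Finset (Fin t))
    (σ : Equiv.Perm (Fin n)) :
    (univ.filter fun τ : Equiv.Perm (Fin n) => ∀ k ∈ S, σ (τ (a k)) ≠ b k).card =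
      (avoid (pairsOn a b S)).card := by
  classical
  refine Finset.card_equiv (Equiv.mulLeft σ) fun τ => ?_
  simp only [mem_filter, mem_univ, true_and, avoid, pairsOn, mem_image, forall_exists_index,
    and_imp, Equiv.coe_mulLeft]
  constructor
  · rintro h e k hk rfl
    exact h k hk
  · intro h k hk
    exact h (a k, b k) k hk rfl

open Classical in
private lemma symCount {n M r s : ℕ} (hr : r < M) (A B : Fin M → Fin n → Fin n)
    (σ : Equiv.Perm (Fin n)) :
    ((univ.filter fun π : Fin M → Equiv.Perm (Fin n) =>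
      symG r s σ (extB (symAct π A)) (extB B)).card : ℝ) =
      (n.factorial : ℝ) ^ M * (sP (extB A) (extB B) r * pS s (extB A r) (extB B r)) := by
  have hfac : (n.factorial : ℝ) ≠ 0 := by positivity
  set T : Fin M → Finset (Equiv.Perm (Fin n)) := fun i =>
    if i.val < r then univ.filter (fun τ => ∀ k ∈ (univ : Finset (Fin n)), σ (τ (A i k)) ≠ B i k)
    else if i.val = r then
      univ.filter (fun τ => ∀ k ∈ univ.filter (fun k : Fin n => k.val < s), σ (τ (A i k)) ≠ B i k)
    else univ with hT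
  have h1 : (univ.filter fun π : Fin M → Equiv.Perm (Fin n) =>
      symG r s σ (extB (symAct π A)) (extB B)) = Fintype.piFinset T := by
    ext π
    rw [mem_filter, Fintype.mem_piFinset]
    simp only [mem_univ, true_and, hT]
    have hA : ∀ (i : Fin M) (k : Fin n), extB (symAct π A) i k = π i (A i k) := by
      intro i k
      unfold extB
      rw [dif_pos i.2]
      rfl
    have hB : ∀ (i : Fin M) (k : Fin n), extB B i k = B i k := by
      intro i k
      unfold extB
      rw [dif_pos i.2]
    constructor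
    · rintro ⟨h2, h3⟩ i
      by_cases hi : i.val < r
      · rw [if_pos hi, mem_filter]
        refine ⟨mem_univ _, fun k _ => ?_⟩
        have h4 := h2 i hi k
        rwa [hA, hB] at h4
      · rw [if_neg hi]
        by_cases hi' : i.val = r
        · rw [if_pos hi', mem_filter]
          refine ⟨mem_univ _, fun k hk => ?_⟩
          have h4 := h3 k (mem_filter.1 hk).2
          rw [← hi', hA, hB] at h4
          exact h4
        · rw [if_neg hi']
          exact mem_univ _
    · intro h2
      refine ⟨fun i hi k => ?_, fun k hk => ?_⟩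
      · have h3 := h2 ⟨i, hi.trans hr⟩
        rw [if_pos hi, mem_filter] at h3
        have h4 := h3.2 k trivial
        rw [← hA ⟨i, hi.trans hr⟩ k, ← hB ⟨i, hi.trans hr⟩ k] at h4
        exact h4
      · have h3 := h2 ⟨r, hr⟩
        rw [if_neg (lt_irrefl _), if_pos rfl, mem_filter] at h3
        have h4 := h3.2 k (mem_filter.2 ⟨mem_univ _, hk⟩)
        rw [← hA ⟨r, hr⟩ k, ← hB ⟨r, hr⟩ k] at h4
        exact h4
  set c : ℕ → ℝ := fun i => if i < r then pS n (extB A i) (extB B i)
    else if i = r then pS s (extB A r) (extB B r) else 1 with hc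
  have h5 : ∀ i : Fin M, ((T i).card : ℝ) = n.factorial * c i := by
    intro i
    have hA : extB A i = A i := by
      unfold extB
      rw [dif_pos i.2]
    have hB : extB B i = B i := by
      unfold extB
      rw [dif_pos i.2]
    have hun : (univ.filter fun k : Fin n => k.val < n) = univ :=
      Finset.filter_true_of_mem fun k _ => k.2
    simp only [hT, hc]
    by_cases hi : i.val < r
    · rw [if_pos hi, if_pos hi, sym_avoid, pS, pAvoid, hun, hA, hB]
      field_simp
    · rw [if_neg hi, if_neg hi]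
      by_cases hi' : i.val = r
      · rw [if_pos hi', if_pos hi', sym_avoid, pS, pAvoid, ← hi', hA, hB]
        field_simp
      · rw [if_neg hi', if_neg hi', mul_one, Finset.card_univ, Fintype.card_perm,
          Fintype.card_fin]
  have h6 : ∏ i : Fin M, c i = sP (extB A) (extB B) r * pS s (extB A r) (extB B r) := by
    rw [← Finset.prod_range]
    obtain ⟨j, rfl⟩ : ∃ j, M = (r + 1) + j := ⟨M - (r + 1), by omega⟩
    rw [Finset.prod_range_add, Finset.prod_range_succ]
    have h7 : ∏ x ∈ range j, c (r + 1 + x) = 1 := by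
      refine Finset.prod_eq_one fun x _ => ?_
      simp only [hc]
      rw [if_neg (by omega), if_neg (by omega)]
    have h8 : c r = pS s (extB A r) (extB B r) := by
      simp only [hc]
      rw [if_neg (lt_irrefl _), if_true]
    have h9 : ∏ x ∈ range r, c x = sP (extB A) (extB B) r := by
      unfold sP
      refine Finset.prod_congr rfl fun x hx => ?_
      simp only [hc]
      rw [if_pos (mem_range.1 hx)]
    rw [h7, h8, h9, mul_one]
  rw [h1, Fintype.card_piFinset]
  push_cast
  rw [Finset.prod_congr rfl fun i _ => h5 i, Finset.prod_mul_distrib, Finset.prod_const,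
    Finset.card_univ, Fintype.card_fin, h6]

open Classical in
private lemma symAvg {n : ℕ} {μ : Measure (ℕ → Fin n)} (hF : Forgetful μ) {M r s : ℕ}
    (hr : r < M) :
    ∑ A : Fin M → Fin n → Fin n, ∑ B : Fin M → Fin n → Fin n, wB μ M A * wB μ M B *
      ((univ.filter fun σ : Equiv.Perm (Fin n) => symG r s σ (extB A) (extB B)).card : ℝ) =
      n.factorial * ∑ A : Fin M → Fin n → Fin n, ∑ B : Fin M → Fin n → Fin n,
        wB μ M A * wB μ M B * (sP (extB A) (extB B) r * pS s (extB A r) (extB B r)) := by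
  have hfac : (n.factorial : ℝ) ≠ 0 := by positivity
  set N : (Fin M → Fin n → Fin n) → (Fin M → Fin n → Fin n) → ℝ := fun A B =>
    ((univ.filter fun σ : Equiv.Perm (Fin n) => symG r s σ (extB A) (extB B)).card : ℝ) with hN
  -- sums over the relabellings
  have h1 : ∀ A B : Fin M → Fin n → Fin n,
      ∑ π : Fin M → Equiv.Perm (Fin n), N (symAct π A) B =
        n.factorial * ((n.factorial : ℝ) ^ M *
          (sP (extB A) (extB B) r * pS s (extB A r) (extB B r))) := by
    intro A B
    have h2 : ∀ π : Fin M → Equiv.Perm (Fin n), N (symAct π A) B =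
        ∑ σ : Equiv.Perm (Fin n),
          if symG r s σ (extB (symAct π A)) (extB B) then (1 : ℝ) else 0 := by
      intro π
      rw [Finset.sum_boole]
    rw [Finset.sum_congr rfl fun π _ => h2 π, Finset.sum_comm]
    have h3 : ∀ σ : Equiv.Perm (Fin n), ∑ π : Fin M → Equiv.Perm (Fin n),
        (if symG r s σ (extB (symAct π A)) (extB B) then (1 : ℝ) else 0) =
        (n.factorial : ℝ) ^ M * (sP (extB A) (extB B) r * pS s (extB A r) (extB B r)) := by
      intro σ
      rw [Finset.sum_boole]
      exact symCount hr A B σ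
    rw [Finset.sum_congr rfl fun σ _ => h3 σ, Finset.sum_const, Finset.card_univ,
      Fintype.card_perm, Fintype.card_fin, nsmul_eq_mul]
  -- invariance
  have h4 : ∀ π : Fin M → Equiv.Perm (Fin n),
      ∑ A : Fin M → Fin n → Fin n, ∑ B : Fin M → Fin n → Fin n,
        wB μ M A * wB μ M B * N (symAct π A) B =
      ∑ A : Fin M → Fin n → Fin n, ∑ B : Fin M → Fin n → Fin n,
        wB μ M A * wB μ M B * N A B := by
    intro π
    rw [← Equiv.sum_comp (symAct π) fun A => ∑ B : Fin M → Fin n → Fin n,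
      wB μ M A * wB μ M B * N A B]
    refine Finset.sum_congr rfl fun A _ => Finset.sum_congr rfl fun B _ => ?_
    rw [symInv hF]
  have h5 : (n.factorial : ℝ) ^ M * ∑ A : Fin M → Fin n → Fin n, ∑ B : Fin M → Fin n → Fin n,
        wB μ M A * wB μ M B * N A B =
      (n.factorial : ℝ) ^ M * (n.factorial * ∑ A : Fin M → Fin n → Fin n,
        ∑ B : Fin M → Fin n → Fin n,
        wB μ M A * wB μ M B * (sP (extB A) (extB B) r * pS s (extB A r) (extB B r))) := by
    have hcard : (n.factorial : ℝ) ^ M =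
        ∑ _π : Fin M → Equiv.Perm (Fin n), (1 : ℝ) := by
      rw [Finset.sum_const, Finset.card_univ, nsmul_eq_mul, mul_one, Fintype.card_fun,
        Fintype.card_perm, Fintype.card_fin, Fintype.card_fin]
      push_cast
      rfl
    conv_lhs => rw [hcard, Finset.sum_mul]
    rw [Finset.sum_congr rfl fun π _ => (one_mul _).trans (h4 π).symm, Finset.sum_comm,
      Finset.mul_sum, Finset.mul_sum]
    refine Finset.sum_congr rfl fun A _ => ?_
    rw [Finset.sum_comm, Finset.mul_sum, Finset.mul_sum]
    refine Finset.sum_congr rfl fun B _ => ?_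
    rw [← Finset.mul_sum, h1]
    ring
  exact mul_left_cancel₀ (pow_ne_zero M hfac) h5

private lemma sP_nonneg' {n : ℕ} (A B : ℕ → Fin n → Fin n) (r : ℕ) : 0 ≤ sP A B r :=
  Finset.prod_nonneg fun _ _ => pAvoid_nonneg _

private lemma wB_nonneg' {n : ℕ} (μ : Measure (ℕ → Fin n)) (M : ℕ) (A : Fin M → Fin n → Fin n) :
    0 ≤ wB μ M A := ENNReal.toReal_nonneg

open Classical in
private lemma symInt {n : ℕ} (μ : Measure (ℕ → Fin n)) [IsProbabilityMeasure μ] {M r s : ℕ}
    (hr : r < M) (hs : s ≤ n) (σ : Equiv.Perm (Fin n)) :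
    ∫⁻ x, ∫⁻ y, notMet (r * n + s) σ x y ∂μ ∂μ =
      ∑ A : Fin M → Fin n → Fin n, ∑ B : Fin M → Fin n → Fin n,
        (if symG r s σ (extB A) (extB B) then (1 : ℝ≥0∞) else 0) *
          (μ.map (blocks M)) {B} * (μ.map (blocks M)) {A} := by
  have hm := sym_meas (n := n) M
  have h0 : ∀ x y : ℕ → Fin n, notMet (r * n + s) σ x y =
      if symG r s σ (extB (blocks M x)) (extB (blocks M y)) then (1 : ℝ≥0∞) else 0 := by
    intro x y
    unfold notMet
    exact if_congr (symG_iff hr hs σ x y) rfl rfl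
  have h1 : ∀ x : ℕ → Fin n, ∫⁻ y, notMet (r * n + s) σ x y ∂μ =
      ∑ B : Fin M → Fin n → Fin n,
        (if symG r s σ (extB (blocks M x)) (extB B) then (1 : ℝ≥0∞) else 0) *
          (μ.map (blocks M)) {B} := by
    intro x
    simp_rw [h0]
    rw [← lintegral_map (f := fun B : Fin M → Fin n → Fin n =>
      if symG r s σ (extB (blocks M x)) (extB B) then (1 : ℝ≥0∞) else 0)
      (measurable_of_finite _) hm]
    rw [lintegral_fintype]
  simp_rw [h1]
  rw [← lintegral_map (f := fun A : Fin M → Fin n → Fin n => ∑ B : Fin M → Fin n → Fin n,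
    (if symG r s σ (extB A) (extB B) then (1 : ℝ≥0∞) else 0) * (μ.map (blocks M)) {B})
    (measurable_of_finite _) hm, lintegral_fintype]
  refine Finset.sum_congr rfl fun A _ => ?_
  rw [Finset.sum_mul]

private lemma symProb {n : ℕ} {μ : Measure (ℕ → Fin n)} [IsProbabilityMeasure μ]
    (hF : Forgetful μ) {M r s : ℕ} (hr : r < M) (hs : s ≤ n) :
    (∑ σ : Equiv.Perm (Fin n), ∫⁻ x, ∫⁻ y, notMet (r * n + s) σ x y ∂μ ∂μ) /
      (Nat.factorial n : ℝ≥0∞) =
      ENNReal.ofReal (∑ A : Fin M → Fin n → Fin n, ∑ B : Fin M → Fin n → Fin n,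
        wB μ M A * wB μ M B * (sP (extB A) (extB B) r * pS s (extB A r) (extB B r))) := by
  classical
  have hm := sym_meas (n := n) M
  have : IsProbabilityMeasure (μ.map (blocks (n := n) M)) :=
    Measure.isProbabilityMeasure_map hm.aemeasurable
  have hw : ∀ A : Fin M → Fin n → Fin n, (μ.map (blocks M)) {A} = ENNReal.ofReal (wB μ M A) := by
    intro A
    unfold wB
    rw [ENNReal.ofReal_toReal (measure_ne_top _ _)]
  have hfac : (0 : ℝ) < (Nat.factorial n : ℝ) := by positivity
  have h1 := symAvg (n := n) hF (M := M) (r := r) (s := s) hr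
  have h2 : ∑ A : Fin M → Fin n → Fin n, ∑ B : Fin M → Fin n → Fin n,
        wB μ M A * wB μ M B * (sP (extB A) (extB B) r * pS s (extB A r) (extB B r)) =
      (∑ A : Fin M → Fin n → Fin n, ∑ B : Fin M → Fin n → Fin n, wB μ M A * wB μ M B *
      ((univ.filter fun σ : Equiv.Perm (Fin n) => symG r s σ (extB A) (extB B)).card : ℝ)) /
        (n.factorial : ℝ) := by
    rw [h1]
    field_simp
  rw [h2, ENNReal.ofReal_div_of_pos hfac, ENNReal.ofReal_natCast]
  congr 1
  simp_rw [symInt μ hr hs]
  rw [Finset.sum_comm, ENNReal.ofReal_sum_of_nonneg fun A _ => Finset.sum_nonneg fun B _ =>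
    mul_nonneg (mul_nonneg (wB_nonneg' _ _ _) (wB_nonneg' _ _ _)) (Nat.cast_nonneg _)]
  refine Finset.sum_congr rfl fun A _ => ?_
  rw [Finset.sum_comm, ENNReal.ofReal_sum_of_nonneg fun B _ =>
    mul_nonneg (mul_nonneg (wB_nonneg' _ _ _) (wB_nonneg' _ _ _)) (Nat.cast_nonneg _)]
  refine Finset.sum_congr rfl fun B _ => ?_
  rw [← Finset.sum_mul, ← Finset.sum_mul, Finset.sum_boole, hw, hw,
    ENNReal.ofReal_mul (mul_nonneg (wB_nonneg' _ _ _) (wB_nonneg' _ _ _)),
    ENNReal.ofReal_mul (wB_nonneg' _ _ _), ENNReal.ofReal_natCast]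
  ring

private lemma sym_range (f : ℕ → ℝ≥0∞) (n M : ℕ) :
    ∑ t ∈ range (M * n), f t = ∑ r ∈ range M, ∑ s ∈ range n, f (r * n + s) := by
  induction M with
  | zero => simp
  | succ M ih => rw [Nat.succ_mul, Finset.sum_range_add, ih, Finset.sum_range_succ]

theorem Sym_p {n : ℕ} (hn : 0 < n) (μ : Measure (ℕ → Fin n)) [IsProbabilityMeasure μ]
    (hF : Forgetful μ) (M : ℕ) :
    ENNReal.ofReal (∑ A : Fin M → Fin n → Fin n, ∑ B : Fin M → Fin n → Fin n,
      wB μ M A * wB μ M B * ∑ r ∈ range M, sP (extB A) (extB B) r *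
        ∑ s ∈ range n, pS s (extB A r) (extB B r)) ≤ expectedTime μ := by
  have h1 := expectedTime_ge μ (M * n)
  simp_rw [← sum_lintegral_notMet] at h1
  rw [sym_range] at h1
  refine le_trans (le_of_eq ?_) h1
  have h2 : ∑ A : Fin M → Fin n → Fin n, ∑ B : Fin M → Fin n → Fin n,
      wB μ M A * wB μ M B * ∑ r ∈ range M, sP (extB A) (extB B) r *
        ∑ s ∈ range n, pS s (extB A r) (extB B r) =
      ∑ r ∈ range M, ∑ s ∈ range n, ∑ A : Fin M → Fin n → Fin n,
        ∑ B : Fin M → Fin n → Fin n,
        wB μ M A * wB μ M B * (sP (extB A) (extB B) r * pS s (extB A r) (extB B r)) := by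
    have h3 : ∀ A B : Fin M → Fin n → Fin n,
        wB μ M A * wB μ M B * ∑ r ∈ range M, sP (extB A) (extB B) r *
          ∑ s ∈ range n, pS s (extB A r) (extB B r) =
        ∑ r ∈ range M, ∑ s ∈ range n, wB μ M A * wB μ M B *
          (sP (extB A) (extB B) r * pS s (extB A r) (extB B r)) := by
      intro A B
      rw [Finset.mul_sum]
      refine Finset.sum_congr rfl fun r _ => ?_
      rw [Finset.mul_sum, Finset.mul_sum]
    simp_rw [h3]
    rw [Finset.sum_congr rfl fun A _ => Finset.sum_comm]
    rw [Finset.sum_comm]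
    refine Finset.sum_congr rfl fun r _ => ?_
    rw [Finset.sum_congr rfl fun A _ => Finset.sum_comm]
    rw [Finset.sum_comm]
  have h4 : ∀ (r s : ℕ), 0 ≤ ∑ A : Fin M → Fin n → Fin n, ∑ B : Fin M → Fin n → Fin n,
        wB μ M A * wB μ M B * (sP (extB A) (extB B) r * pS s (extB A r) (extB B r)) := by
    intro r s
    refine Finset.sum_nonneg fun A _ => Finset.sum_nonneg fun B _ => ?_
    exact mul_nonneg (mul_nonneg (wB_nonneg' _ _ _) (wB_nonneg' _ _ _))
      (mul_nonneg (sP_nonneg' _ _ _) (pAvoid_nonneg _))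
  rw [h2, ENNReal.ofReal_sum_of_nonneg fun r _ => Finset.sum_nonneg fun s _ => h4 r s]
  refine Finset.sum_congr rfl fun r hr => ?_
  rw [ENNReal.ofReal_sum_of_nonneg fun s _ => h4 r s]
  refine Finset.sum_congr rfl fun s hs => ?_
  exact (symProb hF (mem_range.1 hr) (mem_range.1 hs).le).symm

theorem wB_p {n : ℕ} (μ : Measure (ℕ → Fin n)) [IsProbabilityMeasure μ] (M : ℕ) :
    (∀ A, 0 ≤ wB μ M A) ∧ ∑ A, wB μ M A = 1 := by
  refine ⟨fun A => ENNReal.toReal_nonneg, ?_⟩
  have hm := sym_meas (n := n) M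
  have : IsProbabilityMeasure (μ.map (blocks (n := n) M)) :=
    Measure.isProbabilityMeasure_map hm.aemeasurable
  unfold wB
  rw [← ENNReal.toReal_sum (fun a _ => measure_ne_top _ _)]
  rw [sum_measure_singleton]
  simp

end Pool.Agent.Lib.RdvF
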