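import Mathlib
import Pool.Agent.Lib.RdvF.KB
import Pool.Agent.Lib.RdvF.QS
import Pool.Agent.Lib.RdvF.Prefix
import Pool.Agent.Lib.RdvF.PsB
import Pool.Agent.Lib.RdvF.Pot
import Pool.Agent.Lib.RdvF.Psd
import Pool.Agent.Lib.RdvF.Sym

/-! # The lower bound (assembly) -/

namespace Pool.Agent.Lib.RdvF

open MeasureTheory Finset Pool.Agent.Lib.MP92dd55
open scoped ENNReal

theorem Lower_p (ε : ℝ) (hε : 0 < ε) :
    ∃ N : ℕ, ∀ n ≥ N, ∀ μ : Measure (ℕ → Fin n), IsProbabilityMeasure μ → Forgetful μ →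
      ENNReal.ofReal ((Rc - ε) * n) ≤ expectedTime μ := by
  classical
  obtain ⟨hE0, hE1, hR0, hR1, hRsq, hbW⟩ := Num_p
  have hRpos : 0 < Rc := by linarith
  have hrho0 : 0 ≤ rho := by unfold rho; linarith
  have hrho1 : rho ≤ 1 := by unfold rho; linarith
  have hWpos : 0 < Wc := by unfold Wc; linarith
  have hb : 0 ≤ bc := by
    unfold bc
    have : 0 ≤ Rc * E1 := mul_nonneg hRpos.le (by linarith)
    linarith
  obtain ⟨M, hM⟩ := exists_nat_gt (2 * Rc ^ 2 / ε)
  have hM1 : (0 : ℝ) < M := lt_of_le_of_lt (by positivity) hM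
  have hM0 : 0 < M := by exact_mod_cast hM1
  have hMR : Rc ^ 2 / M ≤ ε / 2 := by
    rw [div_le_iff₀ hM1]
    rw [div_lt_iff₀ hε] at hM
    linarith
  set δ : ℝ := ε / (4 * (M + 1) ^ 2) with hδ
  have hδ0 : 0 < δ := by positivity
  obtain ⟨N, hN⟩ := Prefix_p δ hδ0
  refine ⟨N + 1, ?_⟩
  intro n hn μ hμ hF
  have hn0 : 0 < n := by omega
  have hnR : (0 : ℝ) < n := by exact_mod_cast hn0
  obtain ⟨h, hh⟩ := hN n (by omega)
  -- pointwise potential inequality
  set Ω := Fin M → Fin n → Fin n with hΩ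
  let ka : Ω → Ω → ℕ → ℝ := fun A B r => (∑ s ∈ range n, pS s (extB A r) (extB B r)) / n
  let La : Ω → ℕ → Finset (Fin n) := fun A i => lightTimes h (extB A i)
  let KK : ℕ → Ω → Ω → ℝ := fun r A B =>
    (∏ i ∈ range r, Qk (La A i) (La B i)) * Bk (La A r) (La B r)
  let XX : Ω → Ω → ℝ := fun A B => ∑ r ∈ range M, sP (extB A) (extB B) r * ka A B r
  have hpt : ∀ A B : Ω, Rc + ∑ r ∈ range M, KK r A B ≤
      (1 + Rc / M) * XX A B + (2 * δ) * (M + 1) ^ 2 := by
    intro A B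
    have hps := fun i => PsB_p hn0 (extB A i) (extB B i)
    refine Pot_p M hM0 (2 * δ) (by linarith) hrho0 hrho1
      (fun i => pS n (extB A i) (extB B i)) (fun i => ka A B i)
      (fun i => Qk (La A i) (La B i)) (fun i => Bk (La A i) (La B i))
      (fun i => (hps i).1) (fun i => (hps i).2.1) (fun i => (Qk01_p hn0 _ _).1)
      (fun i => (Qk01_p hn0 _ _).2) (fun i => (hps i).2.2.2.1) (fun i => (hps i).2.2.2.2.1)
      (fun i => (hps i).2.2.2.2.2) ?_ ?_
    · intro i
      have h1 := QS_p hn0 (La A i) (La B i)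
      have h2 := hh (extB A i) (extB B i) n le_rfl
      simp only [La] at h1 ⊢
      linarith
    · intro i
      have h1 := KB_p hn0 (La A i) (La B i)
      have h2 := hh (extB A i) (extB B i) n le_rfl
      have h3 : (∑ s ∈ range n, Sk (La A i) (La B i) s) / n ≤ ka A B i + δ := by
        simp only [ka]
        rw [div_le_iff₀ hnR, add_mul, div_mul_cancel₀ _ hnR.ne']
        calc ∑ s ∈ range n, Sk (La A i) (La B i) s
            ≤ ∑ s ∈ range n, (pS s (extB A i) (extB B i) + δ) := by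
              refine Finset.sum_le_sum fun s hs => ?_
              have := hh (extB A i) (extB B i) s (mem_range.1 hs).le
              simp only [La]
              linarith
          _ = ∑ s ∈ range n, pS s (extB A i) (extB B i) + δ * n := by
              rw [Finset.sum_add_distrib, sum_const, card_range, nsmul_eq_mul]; ring
      simp only [La] at h1 h3 ⊢
      linarith
  -- average
  have hw := wB_p μ M
  have hpsd : ∀ r, 0 ≤ ∑ A : Ω, ∑ B : Ω, wB μ M A * wB μ M B * KK r A B := by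
    intro r
    have h1 : PSD (fun A B : Ω => ∏ i ∈ range r, Qk (La A i) (La B i)) :=
      PSD_prod r (fun i A B => Qk (La A i) (La B i))
        (fun i => PSD_comap (PSD_Qk (n := n)) (fun A => La A i))
    have h2 : PSD (fun A B : Ω => Bk (La A r) (La B r)) :=
      PSD_comap (PSD_Bk hn0 hWpos hRpos.le hb) (fun A => La A r)
    exact PSD_nonneg (PSD_mul h1 h2) (wB μ M)
  set X : ℝ := ∑ A : Ω, ∑ B : Ω, wB μ M A * wB μ M B * XX A B with hX
  have hww : ∑ A : Ω, ∑ B : Ω, wB μ M A * wB μ M B = 1 := by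
    rw [← Finset.sum_mul_sum, hw.2, one_mul]
  have hXX0 : ∀ A B : Ω, 0 ≤ XX A B := by
    intro A B
    refine Finset.sum_nonneg fun r _ => mul_nonneg ?_ ?_
    · exact Finset.prod_nonneg fun i _ => (PsB_p hn0 _ _).1
    · exact div_nonneg (Finset.sum_nonneg fun s _ => (PsB_p hn0 _ _).2.2.1 s) hnR.le
  have hX0 : 0 ≤ X := Finset.sum_nonneg fun A _ => Finset.sum_nonneg fun B _ =>
    mul_nonneg (mul_nonneg (hw.1 A) (hw.1 B)) (hXX0 A B)
  have havg : Rc ≤ (1 + Rc / M) * X + ε / 2 := by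
    have h1 : ∑ A : Ω, ∑ B : Ω, wB μ M A * wB μ M B * (Rc + ∑ r ∈ range M, KK r A B) ≤
        ∑ A : Ω, ∑ B : Ω, wB μ M A * wB μ M B *
          ((1 + Rc / M) * XX A B + (2 * δ) * (M + 1) ^ 2) := by
      refine Finset.sum_le_sum fun A _ => Finset.sum_le_sum fun B _ => ?_
      exact mul_le_mul_of_nonneg_left (hpt A B) (mul_nonneg (hw.1 A) (hw.1 B))
    have h2 : ∑ A : Ω, ∑ B : Ω, wB μ M A * wB μ M B * (Rc + ∑ r ∈ range M, KK r A B) =
        Rc + ∑ r ∈ range M, ∑ A : Ω, ∑ B : Ω, wB μ M A * wB μ M B * KK r A B := by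
      have e1 : ∀ A B : Ω, wB μ M A * wB μ M B * (Rc + ∑ r ∈ range M, KK r A B) =
          wB μ M A * wB μ M B * Rc + ∑ r ∈ range M, wB μ M A * wB μ M B * KK r A B := by
        intro A B
        rw [mul_add, Finset.mul_sum]
      simp_rw [e1, Finset.sum_add_distrib, ← Finset.sum_mul]
      rw [hww, one_mul]
      congr 1
      have e2 : ∀ A : Ω, ∑ B : Ω, ∑ r ∈ range M, wB μ M A * wB μ M B * KK r A B =
          ∑ r ∈ range M, ∑ B : Ω, wB μ M A * wB μ M B * KK r A B := fun A => Finset.sum_comm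
      simp_rw [e2]
      rw [Finset.sum_comm]
    have h3 : ∑ A : Ω, ∑ B : Ω, wB μ M A * wB μ M B *
          ((1 + Rc / M) * XX A B + (2 * δ) * (M + 1) ^ 2) =
        (1 + Rc / M) * X + (2 * δ) * (M + 1) ^ 2 := by
      have e1 : ∀ A B : Ω, wB μ M A * wB μ M B *
          ((1 + Rc / M) * XX A B + (2 * δ) * (M + 1) ^ 2) =
          (1 + Rc / M) * (wB μ M A * wB μ M B * XX A B) +
          wB μ M A * wB μ M B * ((2 * δ) * (M + 1) ^ 2) := fun A B => by ring
      simp_rw [e1, Finset.sum_add_distrib, ← Finset.sum_mul, ← Finset.mul_sum]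
      simp_rw [← Finset.mul_sum] at hww
      rw [hww, one_mul]
    have h4 : 0 ≤ ∑ r ∈ range M, ∑ A : Ω, ∑ B : Ω, wB μ M A * wB μ M B * KK r A B :=
      Finset.sum_nonneg fun r _ => hpsd r
    have h5 : (2 * δ) * ((M : ℝ) + 1) ^ 2 = ε / 2 := by
      rw [hδ]; field_simp; ring
    rw [h2, h3, h5] at h1
    linarith
  have hXge : Rc - ε ≤ X := by
    by_contra hcon
    push Not at hcon
    have h1 : X < Rc := by linarith
    have h2 : Rc / M * X ≤ Rc ^ 2 / M := by
      rw [div_mul_eq_mul_div, sq]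
      gcongr
    nlinarith
  refine le_trans ?_ (Sym_p hn0 μ hF M)
  apply ENNReal.ofReal_le_ofReal
  have hfin : ∑ A : Ω, ∑ B : Ω, wB μ M A * wB μ M B * ∑ r ∈ range M, sP (extB A) (extB B) r *
        ∑ s ∈ range n, pS s (extB A r) (extB B r) = X * n := by
    rw [hX, Finset.sum_mul]
    refine Finset.sum_congr rfl fun A _ => ?_
    rw [Finset.sum_mul]
    refine Finset.sum_congr rfl fun B _ => ?_
    rw [mul_assoc (wB μ M A * wB μ M B)]
    congr 1
    simp only [XX, ka]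
    rw [Finset.sum_mul]
    refine Finset.sum_congr rfl fun r _ => ?_
    rw [mul_assoc, div_mul_cancel₀ _ hnR.ne']
  rw [hfin]
  gcongr

end Pool.Agent.Lib.RdvF
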